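import Mathlib
import Pool.Agent.H80R3.SP.Defs

/-! AC: any two Haar unitaries are approximately conjugate. -/

set_option autoImplicit false

open scoped ComplexOrder Topology
open Filter

noncomputable section

namespace Pool.Agent.H80R3.SO

open Pool.Agent.H467F
open Pool.Agent.Helper278 (PVM)

section ac

variable {A : Type} [CStarAlgebra A] {τ : A →ₗ[ℂ] ℂ}

theorem AC_zero_of_sq (h : TW τ) {x : A} (hx : star x * x = 0) : x = 0 :=
  h.faithful x (by rw [hx, map_zero])

theorem AC_partial_right (h : TW τ) {v p : A} (hp : star p = p) (hpp : p * p = p)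
    (hv : star v * v = p) : v * p = v := by
  have h1 : v * p - v = 0 := by
    apply AC_zero_of_sq h
    rw [star_sub, star_mul, hp]
    calc (p * star v - star v) * (v * p - v) =
        p * (star v * v) * p - p * (star v * v) - (star v * v) * p + star v * v := by noncomm_ring
      _ = 0 := by rw [hv, hpp, hpp]; abel
  exact sub_eq_zero.1 h1

/-- Partitions with equivalent pieces are unitarily conjugate. -/
theorem AC_conj_pvm (h : TW τ) {ι : Type} [Fintype ι] (p q : ι → A) (hp : PVM p)
    (hq : PVM q) (hv : ∀ i, ∃ v : A, star v * v = p i ∧ v * star v = q i) :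
    ∃ w : A, star w * w = 1 ∧ w * star w = 1 ∧ ∀ i, w * p i * star w = q i := by
  classical
  choose v hv1 hv2 using hv
  have hvp : ∀ i, v i * p i = v i := fun i => AC_partial_right h (hp.star_eq i) (hp.idem i) (hv1 i)
  have hqv : ∀ i, q i * v i = v i := by
    intro i
    rw [← hv2, mul_assoc, hv1, hvp]
  have hpv : ∀ i, p i * star (v i) = star (v i) := by
    intro i
    have := congrArg star (hvp i)
    rwa [star_mul, hp.star_eq] at this
  have hvq : ∀ i, star (v i) * q i = star (v i) := by
    intro i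
    have := congrArg star (hqv i)
    rwa [star_mul, hq.star_eq] at this
  have o1 : ∀ i j, i ≠ j → star (v i) * v j = 0 := by
    intro i j hij
    rw [← hvq i, ← hqv j]
    calc star (v i) * q i * (q j * v j) = star (v i) * (q i * q j) * v j := by noncomm_ring
      _ = 0 := by rw [hq.orth i j hij]; simp
  have o2 : ∀ i j, i ≠ j → v i * star (v j) = 0 := by
    intro i j hij
    rw [← hvp i, ← hpv j]
    calc v i * p i * (p j * star (v j)) = v i * (p i * p j) * star (v j) := by noncomm_ring
      _ = 0 := by rw [hp.orth i j hij]; simp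
  have o3 : ∀ i j, j ≠ i → v j * p i = 0 := by
    intro i j hij
    rw [← hvp j, mul_assoc, hp.orth j i hij, mul_zero]
  refine ⟨∑ i, v i, ?_, ?_, ?_⟩
  · rw [star_sum, Finset.sum_mul_sum, ← hp.sum]
    refine Finset.sum_congr rfl fun i _ => ?_
    rw [Finset.sum_eq_single i, hv1]
    · intro j _ hj
      exact o1 i j (Ne.symm hj)
    · intro hi
      exact absurd (Finset.mem_univ i) hi
  · rw [star_sum, Finset.sum_mul_sum, ← hq.sum]
    refine Finset.sum_congr rfl fun i _ => ?_
    rw [Finset.sum_eq_single i, hv2]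
    · intro j _ hj
      exact o2 i j (Ne.symm hj)
    · intro hi
      exact absurd (Finset.mem_univ i) hi
  · intro i
    have e1 : (∑ j, v j) * p i = v i := by
      rw [Finset.sum_mul, Finset.sum_eq_single i, hvp]
      · intro j _ hj
        exact o3 i j hj
      · intro hi
        exact absurd (Finset.mem_univ i) hi
    rw [e1, star_sum, Finset.mul_sum, Finset.sum_eq_single i, hv2]
    · intro j _ hj
      exact o2 i j (Ne.symm hj)
    · intro hi
      exact absurd (Finset.mem_univ i) hi

theorem AC_n2_conj (h : TW τ) {w : A} (hw : star w * w = 1) (x : A) :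
    n2 τ (w * x * star w) = n2 τ x := by
  unfold n2
  have e : τ (star (w * x * star w) * (w * x * star w)) = τ (star x * x) := by
    have e1 : star (w * x * star w) * (w * x * star w) =
        w * (star x * (star w * w) * x * star w) := by
      rw [star_mul, star_mul, star_star]; noncomm_ring
    rw [e1, hw, h.comm]
    have e2 : star x * 1 * x * star w * w = star x * x * (star w * w) := by noncomm_ring
    rw [e2, hw, mul_one]
  rw [e]

end ac

theorem p_AC (hFS : S_FS) : S_AC := by
  intro A _ τ hF u v hu hv ε hε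
  have hT := hF.tw
  obtain ⟨J, hJ⟩ := exists_nat_gt ((4 / ε) ^ 2)
  have hJ0 : (0 : ℝ) < (J : ℝ) := lt_of_le_of_lt (by positivity) hJ
  have hJ1 : 1 ≤ J := by
    have : 0 < J := by exact_mod_cast hJ0
    omega
  have hs0 : 0 < Real.sqrt J := Real.sqrt_pos.2 hJ0
  have hsq : 4 / ε < Real.sqrt J := Real.lt_sqrt_of_sq_lt hJ
  have hlt : 2 / Real.sqrt J + 2 / Real.sqrt J < ε := by
    have e1 : 2 / Real.sqrt J + 2 / Real.sqrt J = 4 / Real.sqrt J := by ring
    rw [e1, div_lt_iff₀ hs0]
    rw [div_lt_iff₀ hε] at hsq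
    linarith
  obtain ⟨e, he, heu, het⟩ := hFS A τ hF J hJ1 u
  obtain ⟨f, hf, hfv, hft⟩ := hFS A τ hF J hJ1 v
  have het' := het hu
  have hft' := hft hv
  obtain ⟨w, hw1, hw2, hw3⟩ := AC_conj_pvm hT e f he hf (fun i =>
    hF.equ (e i) (f i) (he.star_eq i) (he.idem i) (hf.star_eq i) (hf.idem i)
      ((het' i).trans (hft' i).symm))
  refine ⟨⟨w, Unitary.mem_iff.2 ⟨hw1, hw2⟩⟩, ?_⟩
  have e1 : (((⟨w, Unitary.mem_iff.2 ⟨hw1, hw2⟩⟩ * u * star ⟨w, Unitary.mem_iff.2 ⟨hw1, hw2⟩⟩ :
      unitary A) : A) - v) = w * ((u : A) - ∑ j : Fin J, rt J (j : ℕ) • e j) * star w +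
        ((∑ j : Fin J, rt J (j : ℕ) • f j) - v) := by
    have e2 : w * (∑ j : Fin J, rt J (j : ℕ) • e j) * star w = ∑ j : Fin J, rt J (j : ℕ) • f j := by
      rw [Finset.mul_sum, Finset.sum_mul]
      refine Finset.sum_congr rfl fun j _ => ?_
      rw [mul_smul_comm, smul_mul_assoc, hw3]
    rw [mul_sub, sub_mul, e2]
    show w * (u : A) * star w - (v : A) = _
    abel
  rw [e1]
  refine lt_of_le_of_lt (hT.n2_add_le _ _) ?_
  rw [AC_n2_conj hT hw1, n2_sub_comm τ (∑ j : Fin J, rt J (j : ℕ) • f j) (v : A)]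
  exact lt_of_le_of_lt (add_le_add heu hfv) hlt

end Pool.Agent.H80R3.SO
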