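import Mathlib
import Pool.Agent.H80R3.SP.DefB

/-!
Block chains (helper318).
-/

set_option autoImplicit false

open scoped ComplexOrder Topology
open Filter

noncomputable section

namespace Pool.Agent.H80R3.SO

open Pool.Agent.H467F

namespace BCx

variable {A : Type} [CStarAlgebra A] {τ : A →ₗ[ℂ] ℂ} {U : Ultrafilter ℕ}

theorem vp {p v : A} (hp : Prj p) (h1 : star v * v = p) : v * p = v := by
  have h : star (v * p - v) * (v * p - v) = 0 := by
    have e : star (v * p - v) * (v * p - v) =
        star p * (star v * v) * p - star p * (star v * v) - (star v * v) * p + star v * v := by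
      rw [star_sub, star_mul]
      noncomm_ring
    rw [e, h1, hp.1, hp.2, hp.2]
    noncomm_ring
  have h2 := CStarRing.star_mul_self_eq_zero_iff (v * p - v) |>.1 h
  exact sub_eq_zero.1 h2

theorem pv {p v : A} (hp : Prj p) (h1 : star v * v = p) (h2 : v * star v = 1 - p) :
    p * v = 0 := by
  have h3 : v * star v * v = v := by rw [mul_assoc, h1, vp hp h1]
  rw [h2, sub_mul, one_mul] at h3
  have h4 : v - p * v = v - 0 := by rw [h3, sub_zero]
  exact sub_right_injective h4

theorem svp {p v : A} (hp : Prj p) (h1 : star v * v = p) (h2 : v * star v = 1 - p) :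
    star v * p = 0 := by
  have := congrArg star (pv hp h1 h2)
  rwa [star_mul, hp.1, star_zero] at this

theorem dg_mul {p v : A} (hp : Prj p) (h1 : star v * v = p) (h2 : v * star v = 1 - p)
    {a b a' b' : A} (ha : a * p = a) (ha' : p * a' = a') (hb : b * p = b) :
    dg v a b * dg v a' b' = dg v (a * a') (b * b') := by
  have e1 : a * v = 0 := by rw [← ha, mul_assoc, pv hp h1 h2, mul_zero]
  have e2 : star v * a' = 0 := by rw [← ha', ← mul_assoc, svp hp h1 h2, zero_mul]
  unfold dg
  have e : (a + v * b * star v) * (a' + v * b' * star v) =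
      a * a' + (a * v) * b' * star v + v * b * (star v * a') +
        v * (b * (star v * v) * b') * star v := by noncomm_ring
  rw [e, e1, e2, h1, hb]
  noncomm_ring

theorem dg_star (v a b : A) : star (dg v a b) = dg v (star a) (star b) := by
  unfold dg
  rw [star_add, star_mul, star_mul, star_star, mul_assoc]

theorem UC_star {p a : A} (hp : Prj p) (h : UC p a) : UC p (star a) := by
  obtain ⟨h1, h2, h3, h4⟩ := h
  refine ⟨?_, ?_, ?_, ?_⟩
  · have := congrArg star h2
    rwa [star_mul, hp.1] at this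
  · have := congrArg star h1
    rwa [star_mul, hp.1] at this
  · rw [star_star]
    exact h4
  · rw [star_star]
    exact h3

theorem dg_pp {p v : A} (hp : Prj p) (h1 : star v * v = p) (h2 : v * star v = 1 - p) :
    dg v p p = 1 := by
  unfold dg
  rw [vp hp h1, h2]
  noncomm_ring

theorem dg_unitary {p v : A} (hp : Prj p) (h1 : star v * v = p) (h2 : v * star v = 1 - p)
    {a b : A} (ha : UC p a) (hb : UC p b) : dg v a b ∈ unitary A := by
  have hsa := UC_star hp ha
  have hsb := UC_star hp hb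
  rw [Unitary.mem_iff, dg_star]
  constructor
  · rw [dg_mul hp h1 h2 hsa.2.1 ha.1 hsb.2.1, ha.2.2.1, hb.2.2.1, dg_pp hp h1 h2]
  · rw [dg_mul hp h1 h2 ha.2.1 hsa.1 hb.2.1, ha.2.2.2, hb.2.2.2, dg_pp hp h1 h2]

theorem UC_pow {p a : A} (h : UC p a) (k : ℕ) : p * a ^ (k + 1) = a ^ (k + 1) ∧
    a ^ (k + 1) * p = a ^ (k + 1) := by
  constructor
  · rw [pow_succ', ← mul_assoc, h.1]
  · rw [pow_succ, mul_assoc, h.2.1]

theorem dg_pow {p v : A} (hp : Prj p) (h1 : star v * v = p) (h2 : v * star v = 1 - p)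
    {a b : A} (ha : UC p a) (hb : UC p b) (k : ℕ) :
    dg v a b ^ (k + 1) = dg v (a ^ (k + 1)) (b ^ (k + 1)) := by
  induction k with
  | zero => simp
  | succ k ih =>
    rw [pow_succ, ih, dg_mul hp h1 h2 (UC_pow ha k).2 ha.1 (UC_pow hb k).2, ← pow_succ,
      ← pow_succ]

theorem tr_dg (h : TW τ) {p v : A} (h1 : star v * v = p) {a b : A} (hb : b * p = b) :
    τ (dg v a b) = τ a + τ b := by
  unfold dg
  rw [map_add]
  congr 1
  rw [mul_assoc, h.comm, mul_assoc, h1, hb]

theorem n2_v (h : TW τ) {p v : A} (h1 : star v * v = p) {z : A} (hz : z * p = z)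
    (hz' : p * z = z) : n2 τ (v * z * star v) = n2 τ z := by
  unfold n2
  have e : star (v * z * star v) * (v * z * star v) = v * (star z * (p * z)) * star v := by
    rw [← h1, star_mul, star_mul, star_star]
    noncomm_ring
  rw [e, hz', mul_assoc, h.comm, mul_assoc, mul_assoc, h1, hz]

theorem n2_comm_le (h : TW τ) {p v : A} (hp : Prj p) (h1 : star v * v = p)
    (h2 : v * star v = 1 - p) {a b a' b' : A} (ha : UC p a) (hb : UC p b) (ha' : UC p a')
    (hb' : UC p b') : n2 τ (dg v a b * dg v a' b' - dg v a' b' * dg v a b) ≤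
      n2 τ (a * a' - a' * a) + n2 τ (b * b' - b' * b) := by
  rw [dg_mul hp h1 h2 ha.2.1 ha'.1 hb.2.1, dg_mul hp h1 h2 ha'.2.1 ha.1 hb'.2.1]
  have e : dg v (a * a') (b * b') - dg v (a' * a) (b' * b) =
      (a * a' - a' * a) + v * (b * b' - b' * b) * star v := by
    unfold dg
    noncomm_ring
  rw [e]
  have h3 := h.n2_add_le (a * a' - a' * a) (v * (b * b' - b' * b) * star v)
  rwa [n2_v h h1 (by rw [sub_mul, mul_assoc, mul_assoc, hb'.2.1, hb.2.1])
    (by rw [mul_sub, ← mul_assoc, ← mul_assoc, hb.1, hb'.1])] at h3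

/-- padding of a chain -/
theorem pad {p : A} {m n : ℕ} {u v : A} (hu : HC τ p u) (hv : HC τ p v)
    (hc : ChC τ U p m u v) (hmn : m ≤ n) :
    ∃ w : ℕ → ℕ → A, w 0 = (fun _ => u) ∧ w (n + 1) = (fun _ => v) ∧
      (∀ i, HCU τ U p (w i)) ∧ ∀ i, CU τ U (w i) (w (i + 1)) := by
  obtain ⟨w, h0, h1, h2, h3⟩ := hc
  have hconst : ∀ {x : A}, HC τ p x → HCU τ U p (fun _ => x) := fun {x} hx =>
    ⟨fun _ => hx.1, fun k hk => by simp only [hx.2 k hk]; exact tendsto_const_nhds⟩
  refine ⟨fun i => w (min i (m + 1)), by simpa using h0, ?_, fun i => ?_, fun i => ?_⟩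
  · have e : min (n + 1) (m + 1) = m + 1 := by omega
    simp only [e]
    exact h1
  · rcases Nat.eq_zero_or_pos i with h | h
    · subst h
      simp only [Nat.zero_min, h0]
      exact hconst hu
    · by_cases h4 : i ≤ m
      · have e : min i (m + 1) = i := by omega
        simp only [e]
        exact h2 i h h4
      · have e : min i (m + 1) = m + 1 := by omega
        simp only [e, h1]
        exact hconst hv
  · by_cases h4 : i ≤ m
    · have e : min i (m + 1) = i := by omega
      have e' : min (i + 1) (m + 1) = i + 1 := by omega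
      simp only [e, e']
      exact h3 i h4
    · have e : min i (m + 1) = m + 1 := by omega
      have e' : min (i + 1) (m + 1) = m + 1 := by omega
      simp only [e, e', h1]
      unfold CU
      simp only [sub_self]
      have : n2 τ (0 : A) = 0 := by
        unfold n2
        simp
      simp only [this]
      exact tendsto_const_nhds

end BCx

open BCx in
theorem p_BC : S_BC := by
  intro A _ τ h U p v hp h1 h2 hU a b a' b' x y x' y' hx hy hx' hy' ha ha'
  obtain ⟨m₁, hm₁, hc₁⟩ := hU x x' hx hx'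
  obtain ⟨m₂, hm₂, hc₂⟩ := hU y y' hy hy'
  obtain ⟨w, w0, w1, wH, wC⟩ := pad (n := m₁ + m₂) hx hx' hc₁ (by omega)
  obtain ⟨z, z0, z1, zH, zC⟩ := pad (n := m₁ + m₂) hy hy' hc₂ (by omega)
  refine ⟨m₁ + m₂, by omega, fun i k => ⟨dg v (w i k) (z i k),
    dg_unitary hp h1 h2 ((wH i).1 k) ((zH i).1 k)⟩, ?_, ?_, ?_, ?_⟩
  · funext k
    apply Subtype.ext
    simp only [w0, z0]
    exact ha.symm
  · funext k
    apply Subtype.ext
    simp only [w1, z1]
    exact ha'.symm
  · intro i _ _
    have key : ∀ l : ℕ, Tendsto (fun n => τ (dg v (w i n) (z i n) ^ (l + 1)))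
        (U : Filter ℕ) (𝓝 0) := fun l => by
      have e : ∀ n, τ (dg v (w i n) (z i n) ^ (l + 1)) =
          τ (w i n ^ (l + 1)) + τ (z i n ^ (l + 1)) := fun n => by
        rw [dg_pow hp h1 h2 ((wH i).1 n) ((zH i).1 n), tr_dg h h1 (UC_pow ((zH i).1 n) l).2]
      simp only [e]
      have := ((wH i).2 (l + 1) (by omega)).add ((zH i).2 (l + 1) (by omega))
      rwa [add_zero] at this
    intro k hk
    obtain ⟨l, rfl | rfl⟩ := k.eq_nat_or_neg
    · obtain ⟨l', rfl⟩ : ∃ l', l = l' + 1 := ⟨l - 1, by omega⟩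
      simp only [zpow_natCast]
      exact key l'
    · obtain ⟨l', rfl⟩ : ∃ l', l = l' + 1 := ⟨l - 1, by omega⟩
      have e : ∀ n, τ (((⟨dg v (w i n) (z i n),
          dg_unitary hp h1 h2 ((wH i).1 n) ((zH i).1 n)⟩ : unitary A) ^
            (-((l' + 1 : ℕ) : ℤ)) : unitary A) : A) =
          star (τ (dg v (w i n) (z i n) ^ (l' + 1))) := fun n => by
        rw [zpow_neg, zpow_natCast, ← h.conj]
        rfl
      simp only [e]
      have := (key l').star
      rwa [star_zero] at this
  · intro i _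
    unfold CommU
    have hz : Tendsto (fun n => n2 τ (w i n * w (i + 1) n - w (i + 1) n * w i n) +
        n2 τ (z i n * z (i + 1) n - z (i + 1) n * z i n)) (U : Filter ℕ) (𝓝 0) := by
      have := (wC i).add (zC i)
      rwa [add_zero] at this
    refine squeeze_zero (fun n => Real.sqrt_nonneg _) (fun n => ?_) hz
    exact n2_comm_le h hp h1 h2 ((wH i).1 n) ((zH i).1 n) ((wH (i + 1)).1 n) ((zH (i + 1)).1 n)

end Pool.Agent.H80R3.SO
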