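import Mathlib
import Pool.Agent.H80R3.SP.DefB
import Pool.Agent.H80R3.SP.CH
import Pool.Agent.H80R3.SP.TR

/-!
DB: doubling (assembly).
-/

set_option autoImplicit false

open scoped ComplexOrder Topology
open Filter

noncomputable section

namespace Pool.Agent.H80R3.SO

open Pool.Agent.H467F

section DBaux

variable {A : Type} [CStarAlgebra A]

theorem DB_pi {w e : A} (he : star e = e) (hee : e * e = e) (hw : star w * w = e) : w * e = w := by
  have h : star (w - w * e) * (w - w * e) = 0 := by
    have : star (w - w * e) * (w - w * e) =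
        star w * w - star w * w * e - star e * (star w * w) + star e * (star w * w) * e := by
      rw [star_sub, star_mul]
      noncomm_ring
    rw [this, hw, he, hee, hee]
    simp
  have h2 := (CStarRing.star_mul_self_eq_zero_iff _).1 h
  exact (sub_eq_zero.1 h2).symm

structure MU (p v : A) : Prop where
  ps : star p = p
  pp : p * p = p
  vv : star v * v = p
  vs : v * star v = 1 - p
  vp : v * p = v
  pv : p * v = 0
  sp : star v * p = 0
  ps' : p * star v = star v

theorem MU.mk' {p v : A} (hp : Prj p) (h1 : star v * v = p) (h2 : v * star v = 1 - p) :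
    MU p v := by
  have e1 : v * p = v := DB_pi hp.1 hp.2 h1
  have e2 : p * v = 0 := by
    have : (1 - p) * v = v := by rw [← h2, mul_assoc, h1, e1]
    rw [sub_mul, one_mul] at this
    exact sub_eq_self.1 this
  refine ⟨hp.1, hp.2, h1, h2, e1, e2, ?_, ?_⟩
  · have := congrArg star e2
    rwa [star_mul, star_zero, hp.1] at this
  · have := congrArg star e1
    rwa [star_mul, hp.1] at this

variable {p v : A}

theorem DB_mul (m : MU p v) {a1 b1 a2 b2 : A} (ha1 : a1 * p = a1) (ha2 : p * a2 = a2)
    (hb1 : b1 * p = b1) : dg v a1 b1 * dg v a2 b2 = dg v (a1 * a2) (b1 * b2) := by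
  have e1 : a1 * v = 0 := by rw [← ha1, mul_assoc, m.pv, mul_zero]
  have e2 : star v * a2 = 0 := by rw [← ha2, ← mul_assoc, m.sp, zero_mul]
  have t2 : a1 * (v * b2 * star v) = 0 := by
    rw [← mul_assoc, ← mul_assoc, e1, zero_mul, zero_mul]
  have t3 : v * b1 * star v * a2 = 0 := by rw [mul_assoc, e2, mul_zero]
  have t4 : v * b1 * star v * (v * b2 * star v) = v * (b1 * b2) * star v := by
    calc v * b1 * star v * (v * b2 * star v) = v * (b1 * (star v * v)) * b2 * star v := by
          simp only [mul_assoc]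
      _ = _ := by rw [m.vv, hb1]; simp only [mul_assoc]
  simp only [dg, add_mul, mul_add, t2, t3, t4, zero_add, add_zero]

theorem DB_star (a b : A) : star (dg v a b) = dg v (star a) (star b) := by
  simp only [dg, star_add, star_mul, star_star, mul_assoc]

theorem DB_one (m : MU p v) : dg v p p = 1 := by
  simp only [dg, m.vp, m.vs]
  abel

theorem DB_tau {τ : A →ₗ[ℂ] ℂ} (hT : TW τ) (m : MU p v) (a : A) {b : A} (hb : b * p = b) :
    τ (dg v a b) = τ a + τ b := by
  simp only [dg, map_add]
  congr 1
  rw [hT.comm, ← mul_assoc, m.vv, hT.comm, hb]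

theorem DB_ucs {u : A} (hps : star p = p) (h : UC p u) : star u * p = star u ∧ p * star u = star u := by
  constructor
  · have := congrArg star h.1
    rwa [star_mul, hps] at this
  · have := congrArg star h.2.1
    rwa [star_mul, hps] at this

theorem DB_unit (m : MU p v) {a b : A} (ha : UC p a) (hb : UC p b) :
    star (dg v a b) * dg v a b = 1 ∧ dg v a b * star (dg v a b) = 1 := by
  have sa := DB_ucs m.ps ha
  have sb := DB_ucs m.ps hb
  rw [DB_star]
  constructor
  · rw [DB_mul m sa.1 ha.1 sb.1, ha.2.2.1, hb.2.2.1, DB_one m]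
  · rw [DB_mul m ha.2.1 sa.2 hb.2.1, ha.2.2.2, hb.2.2.2, DB_one m]

theorem DB_powc {x : A} (h : x * p = x) (k : ℕ) : x ^ (k + 1) * p = x ^ (k + 1) := by
  rw [pow_succ, mul_assoc, h]

theorem DB_pow (m : MU p v) {a b : A} (ha : UC p a) (hb : UC p b) (k : ℕ) :
    dg v a b ^ (k + 1) = dg v (a ^ (k + 1)) (b ^ (k + 1)) := by
  induction k with
  | zero => simp
  | succ k ih =>
    rw [pow_succ, ih, DB_mul m (DB_powc ha.2.1 k) ha.1 (DB_powc hb.2.1 k), ← pow_succ, ← pow_succ]

theorem DB_haar {τ : A →ₗ[ℂ] ℂ} (hT : TW τ) (u : unitary A)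
    (h : ∀ k : ℕ, 1 ≤ k → τ ((u : A) ^ k) = 0) : Haar τ u := by
  intro k hk
  obtain ⟨n, rfl | rfl⟩ := k.eq_nat_or_neg
  · have hn : 1 ≤ n := by
      rcases Nat.eq_zero_or_pos n with h0 | h0
      · subst h0; simp at hk
      · exact h0
    rw [zpow_natCast]
    exact h n hn
  · have hn : 1 ≤ n := by
      rcases Nat.eq_zero_or_pos n with h0 | h0
      · subst h0; simp at hk
      · exact h0
    rw [zpow_neg, zpow_natCast, ← Unitary.star_eq_inv, Unitary.coe_star, hT.conj]
    have := h n hn
    have e : ((u ^ n : unitary A) : A) = (u : A) ^ n := rfl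
    rw [e, this, star_zero]

theorem DB_conj {τ : A →ₗ[ℂ] ℂ} (hT : TW τ) (hp : Prj p) {x w : A} (hx : HC τ p x) (hw : UC p w) :
    HC τ p (w * x * star w) := by
  have sw := DB_ucs hp.1 hw
  have sx := DB_ucs hp.1 hx.1
  refine ⟨⟨?_, ?_, ?_, ?_⟩, ?_⟩
  · rw [← mul_assoc, ← mul_assoc, hw.1]
  · rw [mul_assoc, sw.1]
  · have : star (w * x * star w) * (w * x * star w) =
        w * (star x * (star w * w) * x) * star w := by
      simp only [star_mul, star_star, mul_assoc]
    rw [this, hw.2.2.1, sx.1, hx.1.2.2.1, hw.2.1, hw.2.2.2]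
  · have : (w * x * star w) * star (w * x * star w) =
        w * (x * (star w * w) * star x) * star w := by
      simp only [star_mul, star_star, mul_assoc]
    rw [this, hw.2.2.1, hx.1.2.1, hx.1.2.2.2, hw.2.1, hw.2.2.2]
  · intro k hk
    obtain ⟨k, rfl⟩ : ∃ j, k = j + 1 := ⟨k - 1, by omega⟩
    have e : ∀ j : ℕ, (w * x * star w) ^ (j + 1) = w * x ^ (j + 1) * star w := by
      intro j
      induction j with
      | zero => simp
      | succ j ih =>
        rw [pow_succ, ih]
        calc w * x ^ (j + 1) * star w * (w * x * star w) =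
            w * (x ^ (j + 1) * (star w * w)) * x * star w := by simp only [mul_assoc]
          _ = _ := by
            rw [hw.2.2.1, DB_powc hx.1.2.1, pow_succ x (j + 1)]
            simp only [mul_assoc]
    rw [e, hT.comm, ← mul_assoc, hw.2.2.1, hT.comm, DB_powc hx.1.2.1]
    exact hx.2 _ hk

theorem DB_split {τ : A →ₗ[ℂ] ℂ} (hT : TW τ) (m : MU p v) {X : A} (hX1 : star X * X = 1)
    (hX2 : X * star X = 1) (hc : X * p = p * X) (h1 : ∀ k : ℕ, 1 ≤ k → τ (X ^ k) = 0)
    (h2 : ∀ k : ℕ, 1 ≤ k → τ (X ^ k * p) = 0) :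
    HC τ p (X * p) ∧ HC τ p (star v * X * v) ∧ X = dg v (X * p) (star v * X * v) := by
  have hcs : p * star X = star X * p := by
    have := congrArg star hc
    rwa [star_mul, star_mul, m.ps] at this
  have hq : v * star v * X = X * (v * star v) := by
    rw [m.vs, sub_mul, mul_sub, hc, one_mul, mul_one]
  have hqs : v * star v * star X = star X * (v * star v) := by
    rw [m.vs, sub_mul, mul_sub, hcs, one_mul, mul_one]
  have hvvv : v * star v * v = v := by rw [mul_assoc, m.vv, m.vp]
  refine ⟨⟨⟨?_, ?_, ?_, ?_⟩, ?_⟩, ⟨⟨?_, ?_, ?_, ?_⟩, ?_⟩, ?_⟩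
  · rw [hc, ← mul_assoc, m.pp]
  · rw [mul_assoc, m.pp]
  · rw [star_mul, m.ps]
    calc p * star X * (X * p) = p * (star X * X) * p := by simp only [mul_assoc]
      _ = p := by rw [hX1, mul_one, m.pp]
  · rw [star_mul, m.ps]
    calc X * p * (p * star X) = X * (p * p) * star X := by simp only [mul_assoc]
      _ = p * (X * star X) := by rw [m.pp, hc, mul_assoc]
      _ = p := by rw [hX2, mul_one]
  · intro k hk
    obtain ⟨k, rfl⟩ : ∃ j, k = j + 1 := ⟨k - 1, by omega⟩
    have e : ∀ j : ℕ, (X * p) ^ (j + 1) = X ^ (j + 1) * p := by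
      intro j
      induction j with
      | zero => simp
      | succ j ih =>
        rw [pow_succ, ih]
        calc X ^ (j + 1) * p * (X * p) = X ^ (j + 1) * (p * X) * p := by simp only [mul_assoc]
          _ = X ^ (j + 1) * X * (p * p) := by rw [← hc]; simp only [mul_assoc]
          _ = _ := by rw [m.pp, pow_succ X (j + 1)]
    rw [e]
    exact h2 _ hk
  · rw [← mul_assoc, ← mul_assoc, m.ps']
  · rw [mul_assoc, m.vp]
  · calc star (star v * X * v) * (star v * X * v) = star v * (star X * (v * star v) * X) * v := by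
          simp only [star_mul, star_star, mul_assoc]
      _ = star v * ((star X * X) * (v * star v)) * v := by
          rw [mul_assoc (star X), hq]; simp only [mul_assoc]
      _ = star v * (v * star v * v) := by rw [hX1, one_mul]; simp only [mul_assoc]
      _ = p := by rw [hvvv, m.vv]
  · calc (star v * X * v) * star (star v * X * v) = star v * (X * (v * star v) * star X) * v := by
          simp only [star_mul, star_star, mul_assoc]
      _ = star v * ((X * star X) * (v * star v)) * v := by
          rw [mul_assoc X, hqs]; simp only [mul_assoc]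
      _ = star v * (v * star v * v) := by rw [hX2, one_mul]; simp only [mul_assoc]
      _ = p := by rw [hvvv, m.vv]
  · intro k hk
    obtain ⟨k, rfl⟩ : ∃ j, k = j + 1 := ⟨k - 1, by omega⟩
    have e : ∀ j : ℕ, (star v * X * v) ^ (j + 1) = star v * X ^ (j + 1) * v := by
      intro j
      induction j with
      | zero => simp
      | succ j ih =>
        rw [pow_succ, ih]
        calc star v * X ^ (j + 1) * v * (star v * X * v) =
            star v * X ^ (j + 1) * (v * star v * X) * v := by simp only [mul_assoc]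
          _ = star v * (X ^ (j + 1) * X) * (v * star v * v) := by
            rw [hq]; simp only [mul_assoc]
          _ = _ := by rw [hvvv, pow_succ X (j + 1)]
    rw [e, hT.comm, ← mul_assoc, m.vs, sub_mul, one_mul, map_sub, hT.comm p, h1 _ hk, h2 _ hk,
      sub_zero]
  · have : v * (star v * X * v) * star v = X * (v * star v) := by
      calc v * (star v * X * v) * star v = (v * star v * X) * (v * star v) := by
            simp only [mul_assoc]
        _ = X * (v * star v * v) * star v := by rw [hq]; simp only [mul_assoc]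
        _ = _ := by rw [hvvv, mul_assoc]
    simp only [dg, this, m.vs, mul_sub, mul_one]
    abel

theorem DB_R0 (τ : A →ₗ[ℂ] ℂ) (u x : unitary A) (h : (u : A) * x = x * u) : R τ 0 u x := by
  intro k
  refine ⟨fun i => if i = 0 then u else x, by simp, by simp, ?_, ?_⟩
  · intro i h1 h2
    omega
  · intro i hi
    obtain rfl : i = 0 := by omega
    simp only [if_true, zero_add, one_ne_zero, if_false]
    rw [h, sub_self, n2_zero]
    positivity

theorem DB_main (hMX : S_MX) (hRC : S_RC) (hHX : S_HX) (hHQ : S_HQ) (hBC : S_BC)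
    (τ : A →ₗ[ℂ] ℂ) (hF : Fac τ) (hPol : Pol A) (U : Ultrafilter ℕ) (hU : ∀ n, {n} ∉ U)
    (hp : Prj p) (hτp : τ p = 1 / 2) (hUni : UniC τ U p) (m : MU p v) (u : unitary A) :
    ∃ (w : unitary A) (a b : A) (n : ℕ), HC τ p a ∧ HC τ p b ∧ (w : A) = dg v a b ∧
      R τ n u w := by
  obtain ⟨q, hq, hτq, hcomm⟩ := hHQ A τ hF u
  have hT := hF.tw
  have hqs : star (u : A) * q = q * star (u : A) := by
    have := congrArg star hcomm
    rw [star_mul, star_mul, hq.1] at this
    exact this.symm
  have huu1 : (u : A) * star (u : A) = 1 := Unitary.coe_mul_star_self u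
  have huu2 : star (u : A) * (u : A) = 1 := Unitary.coe_star_mul_self u
  obtain ⟨x, hx1, hx2⟩ := hHX A τ hF {(u : A), star (u : A), q}
    (by
      intro y hy
      simp only [Set.mem_insert_iff, Set.mem_singleton_iff] at hy ⊢
      rcases hy with rfl | rfl | rfl
      · right; left; rfl
      · left; rw [star_star]
      · right; right; exact hq.1)
    (by
      intro y hy z hz
      simp only [Set.mem_insert_iff, Set.mem_singleton_iff] at hy hz
      rcases hy with rfl | rfl | rfl <;> rcases hz with rfl | rfl | rfl <;>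
        first
          | rfl
          | exact huu1.trans huu2.symm
          | exact huu2.trans huu1.symm
          | exact hcomm
          | exact hcomm.symm
          | exact hqs
          | exact hqs.symm)
    q (by simp) hq
  have hxu : (x : A) * u = u * x := hx1 _ (by simp)
  have hxq : (x : A) * q = q * x := hx1 _ (by simp)
  have hxH : Haar τ x := DB_haar hT x (fun k hk => (hx2 k hk).1)
  -- g
  obtain ⟨v1, h11, h12⟩ := hF.equ p q hp.1 hp.2 hq.1 hq.2 (by rw [hτp, hτq])
  have hp' : star (1 - p) = 1 - p := by rw [star_sub, star_one, hp.1]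
  have hq' : star (1 - q) = 1 - q := by rw [star_sub, star_one, hq.1]
  have hpp' : (1 - p) * (1 - p) = 1 - p := by
    have := hp.2
    rw [mul_sub, sub_mul, sub_mul, this]; simp
  have hqq' : (1 - q) * (1 - q) = 1 - q := by
    have := hq.2
    rw [mul_sub, sub_mul, sub_mul, this]; simp
  obtain ⟨v2, h21, h22⟩ := hF.equ (1 - p) (1 - q) hp' hpp' hq' hqq'
    (by rw [map_sub, map_sub, hτp, hτq])
  have e1 : v1 * p = v1 := DB_pi hp.1 hp.2 h11
  have e2 : v2 * (1 - p) = v2 := DB_pi hp' hpp' h21
  have e3 : q * v1 = v1 := by rw [← h12, mul_assoc, h11, e1]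
  have e4 : (1 - q) * v2 = v2 := by rw [← h22, mul_assoc, h21, e2]
  have e5 : v2 * p = 0 := by
    rw [← e2, mul_assoc, sub_mul, one_mul, hp.2, sub_self, mul_zero]
  have e6 : q * v2 = 0 := by
    rw [← e4, ← mul_assoc, mul_sub, mul_one, hq.2, sub_self, zero_mul]
  have e7 : star v1 * v2 = 0 := by
    have : star v1 * q = star v1 := by
      have := congrArg star e3
      rwa [star_mul, hq.1] at this
    rw [← this, mul_assoc, e6, mul_zero]
  have e8 : star v2 * v1 = 0 := by
    have := congrArg star e7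
    rwa [star_mul, star_star, star_zero] at this
  have e9 : v2 * star v1 = 0 := by
    have : p * star v1 = star v1 := by
      have := congrArg star e1
      rwa [star_mul, hp.1] at this
    rw [← this, ← mul_assoc, e5, zero_mul]
  have e10 : v1 * star v2 = 0 := by
    have := congrArg star e9
    rwa [star_mul, star_star, star_zero] at this
  have g1 : star (v1 + v2) * (v1 + v2) = 1 := by
    rw [star_add, add_mul, mul_add, mul_add, h11, e7, e8, h21]
    abel
  have g2 : (v1 + v2) * star (v1 + v2) = 1 := by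
    rw [star_add, add_mul, mul_add, mul_add, h12, e9, e10, h22]
    abel
  have gp : (v1 + v2) * p = q * (v1 + v2) := by
    rw [add_mul, mul_add, e1, e5, e3, e6]
  have gp' : p * star (v1 + v2) = star (v1 + v2) * q := by
    have := congrArg star gp
    rwa [star_mul, star_mul, hp.1, hq.1] at this
  let G : unitary A := ⟨v1 + v2, by rw [Unitary.mem_iff]; exact ⟨g1, g2⟩⟩
  have hG : (G : A) = v1 + v2 := rfl
  -- x'
  set X : unitary A := star G * x * G with hX
  have hXc : (X : A) = star (G : A) * x * G := rfl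
  have hXp : (X : A) * p = p * X := by
    rw [hXc]
    calc star (G : A) * x * G * p = star (G : A) * x * (G * p) := by simp only [mul_assoc]
      _ = star (G : A) * (x * q) * G := by rw [hG, gp]; simp only [mul_assoc]
      _ = (star (G : A) * q) * x * G := by rw [hxq]; simp only [mul_assoc]
      _ = _ := by rw [hG, ← gp']; simp only [mul_assoc]
  have hGG : (G : A) * star (G : A) = 1 := Unitary.coe_mul_star_self G
  have hXk : ∀ k : ℕ, (X : A) ^ k = star (G : A) * (x : A) ^ k * G := by
    intro k
    induction k with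
    | zero =>
      rw [pow_zero, pow_zero, mul_one]
      exact (Unitary.coe_star_mul_self G).symm
    | succ k ih =>
      rw [pow_succ, ih, hXc]
      calc star (G : A) * (x : A) ^ k * G * (star (G : A) * x * G) =
          star (G : A) * (x : A) ^ k * (G * star (G : A)) * x * G := by simp only [mul_assoc]
        _ = _ := by
          rw [hGG, mul_one, pow_succ]; simp only [mul_assoc]
  obtain ⟨ha, hb, hXd⟩ := DB_split hT m (Unitary.coe_star_mul_self X) (Unitary.coe_mul_star_self X)
    hXp (fun k hk => by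
      rw [hXk, hT.comm, ← mul_assoc, hGG, one_mul]
      exact (hx2 k hk).1)
    (fun k hk => by
      rw [hXk]
      have : star (G : A) * (x : A) ^ k * G * p = star (G : A) * ((x : A) ^ k * q * G) := by
        rw [mul_assoc _ (G : A) p, hG, gp]; simp only [mul_assoc]
      rw [this, hT.comm, mul_assoc, hGG, mul_one]
      exact (hx2 k hk).2)
  set a : A := (X : A) * p with hadef
  set b : A := star v * (X : A) * v with hbdef
  -- decomposition of g
  obtain ⟨u1, u2, d, C, S, hu1, hu2, hd, hpC, hCp, hpS, hSp, hC, hS, hCS, hCSp, hgd⟩ :=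
    hMX A τ hF hPol p v (v1 + v2) hp m.vv m.vs g1 g2
  obtain ⟨hr1, hr2, hr3⟩ := hRC A p v C S hp m.vv m.vs hpC hCp hpS hSp hC hS hCS hCSp
  obtain ⟨z, hz1, hz2⟩ := hHX A τ hF {p, C, S}
    (by
      intro y hy
      simp only [Set.mem_insert_iff, Set.mem_singleton_iff] at hy ⊢
      rcases hy with rfl | rfl | rfl
      · left; exact hp.1
      · right; left; exact hC
      · right; right; exact hS)
    (by
      intro y hy z hz
      simp only [Set.mem_insert_iff, Set.mem_singleton_iff] at hy hz
      rcases hy with rfl | rfl | rfl <;> rcases hz with rfl | rfl | rfl <;>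
        first
          | rfl
          | (rw [hpC, hCp])
          | (rw [hCp, hpC])
          | (rw [hpS, hSp])
          | (rw [hSp, hpS])
          | exact hCS
          | exact hCS.symm)
    p (by simp) hp
  have hzp : (z : A) * p = p * z := hz1 _ (by simp)
  have hzC : (z : A) * C = C * z := hz1 _ (by simp)
  have hzS : (z : A) * S = S * z := hz1 _ (by simp)
  obtain ⟨hc, -, -⟩ := DB_split hT m (Unitary.coe_star_mul_self z) (Unitary.coe_mul_star_self z)
    hzp (fun k hk => (hz2 k hk).1) (fun k hk => (hz2 k hk).2)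
  set c : A := (z : A) * p with hcdef
  have hcC : c * C = C * c := by
    rw [hcdef, mul_assoc, hpC, hzC, ← hCp, mul_assoc, ← hzp, hCp, ← mul_assoc]
  have hcS : c * S = S * c := by
    rw [hcdef, mul_assoc, hpS, hzS, ← hSp, mul_assoc, ← hzp, hSp, ← mul_assoc]
  have hUp : UC p p := ⟨hp.2, hp.2, by rw [hp.1, hp.2], by rw [hp.1, hp.2]⟩
  have hD1 := DB_unit m hu1 hu2
  have hD2 := DB_unit m hUp hd
  have hEE := DB_unit m hc.1 hc.1
  let D1 : unitary A := ⟨dg v u1 u2, by rw [Unitary.mem_iff]; exact hD1⟩
  let D2 : unitary A := ⟨dg v p d, by rw [Unitary.mem_iff]; exact hD2⟩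
  let Rt : unitary A := ⟨rot v C S, by rw [Unitary.mem_iff]; exact ⟨hr1, hr2⟩⟩
  let E : unitary A := ⟨dg v c c, by rw [Unitary.mem_iff]; exact hEE⟩
  have hGd : G = D1 * Rt * D2 := Subtype.ext hgd
  have sd := DB_ucs hp.1 hd
  have hb' := DB_conj hT hp hb hd
  have hY0 : ((D2 * X * star D2 : unitary A) : A) = dg v a (d * b * star d) := by
    have : ((D2 * X * star D2 : unitary A) : A) = dg v p d * (X : A) * star (dg v p d) := rfl
    rw [this, hXd, DB_star, hp.1]
    rw [DB_mul m hp.2 ha.1.1 hd.2.1]
    rw [ha.1.1]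
    rw [DB_mul m ha.1.2.1 hp.2 (by rw [mul_assoc, hb.1.2.1])]
    rw [ha.1.2.1]
  obtain ⟨n, hn, hch⟩ := hBC A τ hT U p v hp m.vv m.vs hUni (D2 * X * star D2) 1 E 1 a
    (d * b * star d) c c ha hb' hc hc hY0 rfl
  have hR := (p_CH A τ hT U hU n _ _).1 hch
  have hR2 := p_TR3 A τ hT n (D1 * Rt) _ _ hR
  have hfirst : D1 * Rt * (D2 * X * star D2) * star (D1 * Rt) = x := by
    have h1 : D1 * Rt * (D2 * X * star D2) * star (D1 * Rt) =
        (D1 * Rt * D2) * X * star (D1 * Rt * D2) := by
      simp only [star_mul, mul_assoc]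
    rw [h1, ← hGd, hX, Unitary.star_eq_inv]
    group
  have hsecond : ((D1 * Rt * E * star (D1 * Rt) : unitary A) : A) =
      dg v (u1 * c * star u1) (u2 * c * star u2) := by
    have h1 : D1 * Rt * E * star (D1 * Rt) = D1 * E * star D1 := by
      have h2 : Rt * E = E * Rt := Subtype.ext (hr3 c hc.1 hcC hcS)
      rw [mul_assoc D1 Rt E, h2, star_mul, ← mul_assoc D1 E Rt]
      have h3 : Rt * star Rt = 1 := Unitary.mul_star_self Rt
      calc D1 * E * Rt * (star Rt * star D1) = D1 * E * (Rt * star Rt) * star D1 := by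
            simp only [mul_assoc]
        _ = _ := by rw [h3, mul_one]
    rw [h1]
    have : ((D1 * E * star D1 : unitary A) : A) =
        dg v u1 u2 * dg v c c * star (dg v u1 u2) := rfl
    have s1 := DB_ucs hp.1 hu1
    rw [this, DB_star, DB_mul m hu1.2.1 hc.1.1 hu2.2.1,
      DB_mul m (by rw [mul_assoc, hc.1.2.1]) s1.2 (by rw [mul_assoc, hc.1.2.1])]
  rw [hfirst] at hR2
  refine ⟨_, _, _, 0 + 1 + n, DB_conj hT hp hc hu1, DB_conj hT hp hc hu2, hsecond, ?_⟩
  exact p_TR2 A τ hT 0 n u x _ hxH (DB_R0 τ u x hxu.symm) hR2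

end DBaux

theorem p_DB (hMX : S_MX) (hRC : S_RC) (hHX : S_HX) (hHQ : S_HQ) (hBC : S_BC) : S_DB := by
  intro A _ τ hF hPol U hU p hp hτp hUni u v hu hv
  have hT := hF.tw
  have hp' : star (1 - p) = 1 - p := by rw [star_sub, star_one, hp.1]
  have hpp' : (1 - p) * (1 - p) = 1 - p := by
    have := hp.2
    rw [mul_sub, sub_mul, sub_mul, this]; simp
  obtain ⟨e, he1, he2⟩ := hF.equ p (1 - p) hp.1 hp.2 hp' hpp'
    (by rw [map_sub, hT.one, hτp]; norm_num)
  have m : MU p e := MU.mk' hp he1 he2
  obtain ⟨w, a, b, n, ha, hb, hw, hR⟩ :=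
    DB_main hMX hRC hHX hHQ hBC τ hF hPol U hU hp hτp hUni m u
  obtain ⟨w', a', b', n', ha', hb', hw', hR'⟩ :=
    DB_main hMX hRC hHX hHQ hBC τ hF hPol U hU hp hτp hUni m v
  have hH : ∀ (w : unitary A) (a b : A), HC τ p a → HC τ p b → (w : A) = dg e a b →
      Haar τ w := by
    intro w a b ha hb hw
    refine DB_haar hT w (fun k hk => ?_)
    obtain ⟨k, rfl⟩ : ∃ j, k = j + 1 := ⟨k - 1, by omega⟩
    rw [hw, DB_pow m ha.1 hb.1, DB_tau hT m _ (DB_powc hb.1.2.1 k), ha.2 _ hk, hb.2 _ hk, add_zero]
  obtain ⟨l, hl, hch⟩ := hBC A τ hT U p e hp m.vv m.vs hUni w w w' w' a b a' b' ha hb ha' hb' hw hw'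
  have hRl := (p_CH A τ hT U hU l _ _).1 hch
  have h1 := p_TR2 A τ hT n l u w w' (hH w a b ha hb hw) hR hRl
  have h2 := p_TR2 A τ hT _ n' u w' v (hH w' a' b' ha' hb' hw') h1 (p_TR1 A τ hT _ _ _ hR')
  exact ⟨_, by omega, (p_CH A τ hT U hU _ _ _).2 h2⟩

end Pool.Agent.H80R3.SO
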