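import Mathlib
import Pool.Agent.H80R3.SP.Defs
import Pool.Agent.H80R3.SP.DefB

/-!
HQ: a projection of trace 1/2 commuting with a given unitary (helper248).
-/

set_option autoImplicit false

open scoped ComplexOrder Topology
open Filter

noncomputable section

namespace Pool.Agent.H80R3.SO

open Pool.Agent.H467F

theorem p_HQ : S_HQ := by
  intro A _ τ h y
  have y1 : (y : A) * star (y : A) = 1 := by
    have := y.2.2
    exact this
  have y2 : star (y : A) * (y : A) = 1 := by
    have := y.2.1
    exact this
  obtain ⟨D, hSD, hDc, hD⟩ := h.lyap {(y : A), star (y : A)} (by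
      intro x hx
      rcases hx with rfl | hx
      · exact Or.inr rfl
      · rw [Set.mem_singleton_iff] at hx
        subst hx
        rw [star_star]
        exact Or.inl rfl) (by
      intro x hx z hz
      rcases hx with rfl | hx
      · rcases hz with rfl | hz
        · rfl
        · rw [Set.mem_singleton_iff] at hz
          subst hz
          rw [y1, y2]
      · rw [Set.mem_singleton_iff] at hx
        subst hx
        rcases hz with rfl | hz
        · rw [y1, y2]
        · rw [Set.mem_singleton_iff] at hz
          subst hz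
          rfl)
  obtain ⟨p, hpD, hP, hτ⟩ := hD (Fin 2) Unit (fun _ => (((1 / 2 : ℝ)) : ℂ) • (1 : A))
    (fun _ => (1 : A)) (fun _ => D.smul_mem (one_mem D) _)
    (fun _ => Pool.Agent.Helper278.pos_proj (star_one A) (one_mul 1) (1 / 2) (by norm_num))
    (by
      rw [Fin.sum_univ_two, ← add_smul]
      have : (((1 / 2 : ℝ)) : ℂ) + (((1 / 2 : ℝ)) : ℂ) = 1 := by
        push_cast
        norm_num
      rw [this, one_smul])
  refine ⟨p 0, ⟨hP.star_eq 0, hP.idem 0⟩, ?_, ?_⟩
  · have h1 := hτ 0 ()
    simp only [mul_one] at h1
    rw [h1, map_smul, h.tw.one, smul_eq_mul, mul_one]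
    push_cast
    rfl
  · exact hDc _ (hSD _ (Or.inl rfl)) _ (hpD 0)

end Pool.Agent.H80R3.SO
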