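import Mathlib
import Pool.Agent.H80R3.SP.Defs
import Pool.Agent.H80R3.SP.DefB

/-! HX: Haar unitaries commuting with a commuting set, independent of a projection. -/

set_option autoImplicit false

open scoped ComplexOrder Topology InnerProductSpace
open Filter Pool.Agent.H467F

namespace Pool.Agent.H80R3.SO.HXx

section gen
universe u

variable {M : Type u} [CStarAlgebra M] {τ : M →ₗ[ℂ] ℂ}

theorem n2_unit (h : TW τ) {x : M} (hx : x ∈ unitary M) : n2 τ x = 1 := by
  unfold n2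
  rw [(Unitary.mem_iff.1 hx).1, h.one]
  simp

theorem n2_mul_left (h : TW τ) {u : M} (hu : u ∈ unitary M) (a : M) :
    n2 τ (u * a) = n2 τ a := by
  unfold n2
  have e : star (u * a) * (u * a) = star a * a := by
    rw [star_mul, mul_assoc, ← mul_assoc (star u) u a, (Unitary.mem_iff.1 hu).1, one_mul]
  rw [e]

theorem n2_mul_right (h : TW τ) {u : M} (hu : u ∈ unitary M) (a : M) :
    n2 τ (a * u) = n2 τ a := by
  have hu' : star u ∈ unitary M := Unitary.star_mem hu
  rw [← h.n2_star (a * u), star_mul, n2_mul_left h hu', h.n2_star]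

theorem n2_pow (h : TW τ) {x y : M} (hx : x ∈ unitary M) (hy : y ∈ unitary M) (k : ℕ) :
    n2 τ (x ^ k - y ^ k) ≤ k * n2 τ (x - y) := by
  induction k with
  | zero => simp [n2_zero]
  | succ k ih =>
    have e : x ^ (k + 1) - y ^ (k + 1) = x ^ k * (x - y) + (x ^ k - y ^ k) * y := by
      rw [pow_succ, pow_succ, mul_sub, sub_mul]
      abel
    rw [e]
    refine (h.n2_add_le _ _).trans ?_
    rw [n2_mul_left h (pow_mem hx k), n2_mul_right h hy]
    push_cast
    linarith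

theorem star_mul_one (h : TW τ) {y : M} (hy : ‖y‖ ≤ 1) (h1 : n2 τ y = 1) :
    star y * y = 1 := by
  let _ : PartialOrder M := CStarAlgebra.spectralOrder M
  have _ : StarOrderedRing M := CStarAlgebra.spectralOrderedRing M
  have hle : star y * y ≤ 1 := by
    have hn : ‖star y * y‖ ≤ 1 := by
      rw [CStarRing.norm_star_mul_self]
      exact mul_le_one₀ hy (norm_nonneg _) hy
    exact (CStarAlgebra.norm_le_one_iff_of_nonneg (star y * y) (star_mul_self_nonneg y)).1 hn
  have h0 : 0 ≤ 1 - star y * y := sub_nonneg.2 hle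
  obtain ⟨b, hb⟩ := CStarAlgebra.nonneg_iff_eq_star_mul_self.1 h0
  have ht : τ (star b * b) = 0 := by
    rw [← hb, map_sub, h.one, h.n2_sq' y, h1]
    simp
  have hb0 := h.faithful b ht
  rw [hb0, star_zero, mul_zero] at hb
  exact (sub_eq_zero.1 hb).symm

theorem n2_lim (h : TW τ) {x : ℕ → M} (hx : ∀ n, x n ∈ unitary M) {y : M}
    (ht : Tendsto (fun n => n2 τ (x n - y)) atTop (𝓝 0)) : n2 τ y = 1 := by
  have h1 : ∀ n, 1 - n2 τ y ≤ n2 τ (x n - y) := by
    intro n
    have := h.n2_add_le (x n - y) y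
    rw [sub_add_cancel, n2_unit h (hx n)] at this
    linarith
  have h2 : ∀ n, n2 τ y - 1 ≤ n2 τ (x n - y) := by
    intro n
    have := h.n2_add_le (y - x n) (x n)
    rw [sub_add_cancel, n2_unit h (hx n), n2_sub_comm τ y (x n)] at this
    linarith
  have h3 : 1 - n2 τ y ≤ 0 := ge_of_tendsto' ht h1
  have h4 : n2 τ y - 1 ≤ 0 := ge_of_tendsto' ht h2
  linarith

theorem unit_lim (h : TW τ) {x : ℕ → M} (hx : ∀ n, x n ∈ unitary M) {y : M} (hy : ‖y‖ ≤ 1)
    (ht : Tendsto (fun n => n2 τ (x n - y)) atTop (𝓝 0)) : y ∈ unitary M := by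
  have h1 := n2_lim h hx ht
  refine Unitary.mem_iff.2 ⟨star_mul_one h hy h1, ?_⟩
  have h2 := star_mul_one h (y := star y) (by rwa [norm_star]) (by rwa [h.n2_star])
  rwa [star_star] at h2

theorem exists_lim (h : TW τ) {x : ℕ → M} (hx : ∀ n, x n ∈ unitary M)
    (hc : ∀ n, n2 τ (x n - x (n + 1)) ≤ (1 / 2) ^ n) :
    ∃ y ∈ unitary M, Tendsto (fun n => n2 τ (x n - y)) atTop (𝓝 0) := by
  have hnt : Nontrivial M := by
    refine ⟨⟨1, 0, fun h10 => ?_⟩⟩
    have h2 := h.one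
    rw [h10, map_zero] at h2
    exact zero_ne_one h2
  have hone : ‖(1 : M)‖ ≤ 1 := by rw [CStarRing.norm_one]
  have hn : ∀ n, ‖x n‖ ≤ 1 := by
    intro n
    have h1 : ‖star (x n) * x n‖ ≤ 1 := by
      rw [(Unitary.mem_iff.1 (hx n)).1]
      exact hone
    rw [CStarRing.norm_star_mul_self] at h1
    nlinarith [norm_nonneg (x n)]
  obtain ⟨y, hy, ht⟩ := h.complete x hn hc
  exact ⟨y, unit_lim h hx hy ht, ht⟩

end gen

theorem seq_exists {α : Type} (Q : ℕ → α → Prop) (Rr : ℕ → α → α → Prop) (h0 : ∃ a, Q 0 a)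
    (hs : ∀ k a, Q k a → ∃ b, Q (k + 1) b ∧ Rr k a b) :
    ∃ x : ℕ → α, ∀ k, Q k (x k) ∧ Rr k (x k) (x (k + 1)) := by
  obtain ⟨a, ha⟩ := h0
  haveI : Nonempty α := ⟨a⟩
  choose! f hf using hs
  let x : ℕ → α := fun n => Nat.rec a (fun k b => f k b) n
  have hQ : ∀ k, Q k (x k) := by
    intro k
    induction k with
    | zero => exact ha
    | succ k ih => exact (hf k _ ih).1
  exact ⟨x, fun k => ⟨hQ k, (hf k _ (hQ k)).2⟩⟩

/-- `exp (i π / 2^k)` -/
noncomputable def wk (k : ℕ) : ℂ := Complex.exp (Complex.I * ((Real.pi / 2 ^ k : ℝ) : ℂ))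

theorem wk_pow (k m : ℕ) : wk k ^ (2 ^ k * m) = (-1) ^ m := by
  rw [pow_mul]
  congr 1
  unfold wk
  rw [← Complex.exp_nat_mul]
  have e : ((2 ^ k : ℕ) : ℂ) * (Complex.I * ((Real.pi / 2 ^ k : ℝ) : ℂ)) = Real.pi * Complex.I := by
    push_cast
    field_simp
  rw [e, Complex.exp_pi_mul_I]

theorem wk_norm (k : ℕ) : star (wk k) * wk k = 1 := by
  rw [Complex.star_def, ← Complex.normSq_eq_conj_mul_self, Complex.normSq_eq_norm_sq]
  unfold wk
  rw [Complex.norm_exp_I_mul_ofReal]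
  simp

theorem wk_sub (k : ℕ) : ‖wk k - 1‖ ≤ Real.pi / 2 ^ k := by
  unfold wk
  refine (Real.norm_exp_I_mul_ofReal_sub_one_le).trans ?_
  rw [Real.norm_eq_abs, abs_of_nonneg (by positivity)]

section step

variable {A : Type} [CStarAlgebra A] {τ : A →ₗ[ℂ] ℂ}

theorem step (h : TW τ) (D : StarSubalgebra ℂ A) (hc : ∀ x ∈ D, ∀ y ∈ D, x * y = y * x)
    (hD : ∀ (κ : Type) [Finite κ] (y : κ → A), ∃ q : A, q ∈ D ∧ star q = q ∧ q * q = q ∧
      ∀ k, τ (q * y k) = (1 / 2) * τ (y k))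
    (p : A) (hp : p ∈ D) (k : ℕ) (x : A) (hxD : x ∈ D) (hx : star x * x = 1)
    (hk : x ^ (2 ^ k) = 1)
    (hP : ∀ l : ℕ, ¬ 2 ^ k ∣ l → τ (x ^ l) = 0 ∧ τ (x ^ l * p) = 0) :
    ∃ x' : A, (x' ∈ D ∧ star x' * x' = 1 ∧ x' ^ (2 ^ (k + 1)) = 1 ∧
      ∀ l : ℕ, ¬ 2 ^ (k + 1) ∣ l → τ (x' ^ l) = 0 ∧ τ (x' ^ l * p) = 0) ∧
      n2 τ (x - x') ≤ Real.pi / 2 ^ k := by
  obtain ⟨q, hqD, hqs, hqq, hq⟩ := hD (Fin (2 ^ k) × Bool)
    (fun j => x ^ (j.1 : ℕ) * (if j.2 = true then p else 1))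
  have h1D : (1 : A) ∈ D := one_mem D
  have hq1 : q * (1 - q) = 0 := by rw [mul_sub, mul_one, hqq, sub_self]
  have hq2 : (1 - q) * q = 0 := by rw [sub_mul, one_mul, hqq, sub_self]
  have hq3 : (1 - q) * (1 - q) = 1 - q := by rw [mul_sub, mul_one, hq2, sub_zero]
  have hmul : ∀ a b : ℂ, (q + a • (1 - q)) * (q + b • (1 - q)) = q + (a * b) • (1 - q) := by
    intro a b
    rw [mul_add, add_mul, add_mul, hqq, smul_mul_assoc, hq2, smul_zero, add_zero, mul_smul_comm,
      hq1, smul_zero, zero_add, smul_mul_smul_comm, hq3]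
  have hone : q + (1 : ℂ) • (1 - q) = 1 := by rw [one_smul]; abel
  set u : A := q + wk k • (1 - q) with hu
  have hpow : ∀ l : ℕ, u ^ l = q + (wk k ^ l) • (1 - q) := by
    intro l
    induction l with
    | zero => rw [pow_zero, pow_zero, hone]
    | succ l ih => rw [pow_succ, ih, hu, hmul, ← pow_succ]
  have huD : u ∈ D := add_mem hqD (D.smul_mem (sub_mem h1D hqD) _)
  have hus : star u * u = 1 := by
    have e : star u = q + star (wk k) • (1 - q) := by
      rw [hu, star_add, star_smul, star_sub, star_one, hqs]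
    rw [e, hu, hmul, wk_norm, hone]
  have hxu : Commute x u := hc x hxD u huD
  have hpowx : ∀ l : ℕ, (x * u) ^ l = x ^ l * u ^ l := fun l => hxu.mul_pow l
  -- the trace identity
  have hmod : ∀ l : ℕ, x ^ l = x ^ (l % 2 ^ k) := fun l => pow_eq_pow_mod l hk
  have hlt : ∀ l : ℕ, l % 2 ^ k < 2 ^ k := fun l => Nat.mod_lt _ (by positivity)
  have key : ∀ (l : ℕ) (b : Bool), τ ((x * u) ^ l * (if b = true then p else 1)) =
      (1 + wk k ^ l) / 2 * τ (x ^ l * (if b = true then p else 1)) := by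
    intro l b
    set y : A := if b = true then p else 1 with hy
    have hyD : y ∈ D := by
      rw [hy]
      split_ifs
      · exact hp
      · exact h1D
    have h2 := hq (⟨l % 2 ^ k, hlt l⟩, b)
    simp only [← hmod, ← hy] at h2
    have e : (x * u) ^ l * y = q * (x ^ l * y) + (wk k ^ l) • ((x ^ l * y) - q * (x ^ l * y)) := by
      rw [hpowx, hpow]
      have hxl : x ^ l ∈ D := pow_mem hxD l
      have e1 : x ^ l * q = q * x ^ l := hc _ hxl _ hqD
      rw [mul_add, add_mul, mul_smul_comm, smul_mul_assoc, mul_sub, mul_one, sub_mul, e1, mul_assoc]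
    rw [e, map_add, map_smul, map_sub, h2, smul_eq_mul]
    ring
  refine ⟨x * u, ⟨mul_mem hxD huD, ?_, ?_, ?_⟩, ?_⟩
  · rw [star_mul, mul_assoc, ← mul_assoc (star x), hx, one_mul, hus]
  · rw [hpowx, hpow, pow_succ 2 k, pow_mul, hk, one_pow, one_mul, wk_pow]
    simp
  · intro l hl
    have hfac : ∀ b : Bool, τ ((x * u) ^ l * (if b = true then p else 1)) = 0 := by
      intro b
      rw [key]
      by_cases hkl : 2 ^ k ∣ l
      · obtain ⟨m, rfl⟩ := hkl
        have hm : Odd m := by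
          rw [← Nat.not_even_iff_odd]
          rintro ⟨c, rfl⟩
          exact hl ⟨c, by rw [pow_succ]; ring⟩
        rw [wk_pow, hm.neg_one_pow]
        simp
      · obtain ⟨h3, h4⟩ := hP l hkl
        cases b
        · simp [h3]
        · simp [h4]
    have h5 := hfac false
    have h6 := hfac true
    simp only [Bool.false_eq_true, if_false, mul_one, if_true] at h5 h6
    exact ⟨h5, h6⟩
  · have hxD' : star x ∈ D := star_mem hxD
    have hxuni : x ∈ unitary A := by
      refine Unitary.mem_iff.2 ⟨hx, ?_⟩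
      rw [hc x hxD _ hxD', hx]
    have e : x - x * u = x * ((1 - wk k) • (1 - q)) := by
      have e1 : (1 : A) - u = (1 - wk k) • (1 - q) := by
        rw [hu, sub_smul, one_smul]
        abel
      rw [← e1, mul_sub, mul_one]
    rw [e, n2_mul_left h hxuni, n2_smul, norm_sub_rev]
    have hn : n2 τ (1 - q) ≤ 1 := by
      have h7 : n2 τ (1 - q) ^ 2 ≤ 1 := by
        rw [h.n2_sq, star_sub, star_one, hqs, hq3, map_sub, h.one]
        have h8 := h.re_nonneg q
        rw [hqs, hqq] at h8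
        simp only [Complex.sub_re, Complex.one_re]
        linarith
      nlinarith [n2_nonneg τ (1 - q)]
    calc ‖wk k - 1‖ * n2 τ (1 - q) ≤ ‖wk k - 1‖ * 1 :=
          mul_le_mul_of_nonneg_left hn (norm_nonneg _)
      _ ≤ Real.pi / 2 ^ k := by rw [mul_one]; exact wk_sub k

end step

end Pool.Agent.H80R3.SO.HXx

namespace Pool.Agent.H80R3.SO

open HXx

theorem p_HX : S_HX := by
  intro A _ τ hF T hTs hTc p hpT hp
  have h := hF.tw
  obtain ⟨D, hTD, hc, hlyap⟩ := hF.lyap T hTs hTc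
  have hD : ∀ (κ : Type) [Finite κ] (y : κ → A), ∃ q : A, q ∈ D ∧ star q = q ∧ q * q = q ∧
      ∀ k, τ (q * y k) = (1 / 2) * τ (y k) := by
    intro κ _ y
    obtain ⟨P, hPD, hPV, hPt⟩ := hlyap Bool κ (fun _ => ((1 / 2 : ℝ) : ℂ) • (1 : A)) y
      (fun _ => D.smul_mem (one_mem D) _)
      (fun _ => Pool.Agent.Helper278.pos_proj (star_one A) (one_mul 1) (1 / 2) (by norm_num))
      (by
        rw [Fintype.sum_bool, ← add_smul]
        have : (((1 / 2 : ℝ) : ℂ) + ((1 / 2 : ℝ) : ℂ)) = 1 := by push_cast; norm_num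
        rw [this, one_smul])
    refine ⟨P true, hPD true, hPV.star_eq true, hPV.idem true, fun k => ?_⟩
    rw [hPt true k, smul_mul_assoc, one_mul, map_smul, smul_eq_mul]
    push_cast
    ring
  obtain ⟨x, hx⟩ := seq_exists
    (fun k (x : A) => x ∈ D ∧ star x * x = 1 ∧ x ^ (2 ^ k) = 1 ∧
      ∀ l : ℕ, ¬ 2 ^ k ∣ l → τ (x ^ l) = 0 ∧ τ (x ^ l * p) = 0)
    (fun k (x x' : A) => n2 τ (x - x') ≤ Real.pi / 2 ^ k)
    ⟨1, one_mem D, by simp, by simp, fun l hl => absurd (by simp) hl⟩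
    (fun k a ⟨h1, h2, h3, h4⟩ => step h D hc hD p (hTD p hpT) k a h1 h2 h3 h4)
  have hu : ∀ n, x n ∈ unitary A := by
    intro n
    obtain ⟨⟨h1, h2, -, -⟩, -⟩ := hx n
    refine Unitary.mem_iff.2 ⟨h2, ?_⟩
    rw [hc _ h1 _ (star_mem h1), h2]
  obtain ⟨z, hz, ht⟩ := exists_lim h (x := fun n => x (n + 2)) (fun n => hu (n + 2)) (by
    intro n
    refine ((hx (n + 2)).2).trans ?_
    rw [one_div, inv_pow, pow_add, div_le_iff₀ (by positivity)]
    have hpi : Real.pi ≤ 4 := Real.pi_le_four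
    have h2 : (0 : ℝ) < 2 ^ n := by positivity
    have : ((2 : ℝ) ^ n)⁻¹ * (2 ^ n * 2 ^ 2) = 4 := by
      field_simp
      norm_num
    rw [this]
    exact hpi)
  refine ⟨⟨z, hz⟩, ?_, ?_⟩
  · intro t htT
    show z * t = t * z
    set c : A := z * t - t * z with hcdef
    have hcomm : ∀ n, x (n + 2) * t = t * x (n + 2) := fun n =>
      hc _ (hx (n + 2)).1.1 _ (hTD t htT)
    have e1 : ∀ b : A, τ (star c * (b * t - t * b)) = τ ((t * star c - star c * t) * b) := by
      intro b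
      rw [mul_sub, sub_mul, map_sub, map_sub, ← mul_assoc, ← mul_assoc, h.comm (star c * b) t,
        ← mul_assoc]
    have e2 : ∀ n, τ (star c * c) = τ ((t * star c - star c * t) * (z - x (n + 2))) := by
      intro n
      have e0 : (z - x (n + 2)) * t - t * (z - x (n + 2)) = c := by
        rw [sub_mul, mul_sub, hcomm, hcdef]
        abel
      rw [← e1, e0]
    have e3 : ∀ n, ‖τ (star c * c)‖ ≤
        n2 τ (t * star c - star c * t) * n2 τ (x (n + 2) - z) := by
      intro n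
      rw [e2 n, n2_sub_comm τ (x (n + 2)) z]
      exact h.cauchy' _ _
    have e4 : ‖τ (star c * c)‖ ≤ 0 := by
      have h5 := ht.const_mul (n2 τ (t * star c - star c * t))
      rw [mul_zero] at h5
      exact ge_of_tendsto' h5 e3
    have e5 := h.faithful c (norm_le_zero_iff.1 e4)
    exact sub_eq_zero.1 e5
  · intro l hl
    show τ (z ^ l) = 0 ∧ τ (z ^ l * p) = 0
    have hgen : ∀ y : A, (∀ n, l ≤ n → τ (x (n + 2) ^ l * y) = 0) → τ (z ^ l * y) = 0 := by
      intro y hy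
      have e3 : ∀ n, l ≤ n → ‖τ (z ^ l * y)‖ ≤ (l * n2 τ y) * n2 τ (x (n + 2) - z) := by
        intro n hn
        have e : τ (z ^ l * y) = τ ((z ^ l - x (n + 2) ^ l) * y) := by
          rw [sub_mul, map_sub, hy n hn, sub_zero]
        rw [e]
        refine (h.cauchy' _ _).trans ?_
        have h6 := n2_pow h hz (hu (n + 2)) l
        rw [n2_sub_comm τ z (x (n + 2))] at h6
        have h7 := mul_le_mul_of_nonneg_right h6 (n2_nonneg τ y)
        linarith
      have e4 : ‖τ (z ^ l * y)‖ ≤ 0 := by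
        have h5 := ht.const_mul ((l : ℝ) * n2 τ y)
        rw [mul_zero] at h5
        refine ge_of_tendsto h5 ?_
        filter_upwards [eventually_ge_atTop l] with n hn
        exact e3 n hn
      exact norm_le_zero_iff.1 e4
    have hnd : ∀ n, l ≤ n → ¬ 2 ^ (n + 2) ∣ l := by
      intro n hn hdvd
      have h8 := Nat.le_of_dvd (by omega) hdvd
      have h9 : n + 2 < 2 ^ (n + 2) := Nat.lt_two_pow_self
      omega
    constructor
    · have := hgen 1 (fun n hn => by
        rw [mul_one]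
        exact ((hx (n + 2)).1.2.2.2 l (hnd n hn)).1)
      rwa [mul_one] at this
    · exact hgen p (fun n hn => ((hx (n + 2)).1.2.2.2 l (hnd n hn)).2)

end Pool.Agent.H80R3.SO
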