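import Mathlib
import Pool.Agent.H80R3.SP.DefB

/-!
The rotation is unitary and commutes with `c ⊕ c` (helper662).
-/

set_option autoImplicit false
set_option linter.unusedSimpArgs false

namespace Pool.Agent.H80R3.SO

theorem rc_v {A : Type} [CStarAlgebra A] {p v : A} (hp : Prj p) (h1 : star v * v = p) :
    v * p = v := by
  have h : star (v * p - v) * (v * p - v) = 0 := by
    rw [star_sub, star_mul, hp.1, sub_mul, mul_sub, mul_sub]
    have e1 : p * star v * (v * p) = p := by
      rw [mul_assoc, ← mul_assoc (star v), h1, hp.2, hp.2]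
    have e2 : p * star v * v = p := by rw [mul_assoc, h1, hp.2]
    have e3 : star v * (v * p) = p := by rw [← mul_assoc, h1, hp.2]
    rw [e1, e2, e3, h1]
    abel
  have h2 := CStarRing.star_mul_self_eq_zero_iff (v * p - v) |>.1 h
  exact sub_eq_zero.1 h2

theorem p_RC : S_RC := by
  intro A _ p v C S hp h1 h2 hpC hCp hpS hSp hC hS hCS hsum
  obtain ⟨hps, hpp⟩ := hp
  have hvp : v * p = v := rc_v ⟨hps, hpp⟩ h1
  have hpv : p * v = 0 := by
    have e : (v * star v) * v = v * p := by rw [mul_assoc, h1]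
    rw [h2, hvp, sub_mul, one_mul] at e
    have := sub_eq_self.1 e
    exact this
  have hpsv : p * star v = star v := by
    have := congrArg star hvp
    rwa [star_mul, hps] at this
  have hsvp : star v * p = 0 := by
    have := congrArg star hpv
    rwa [star_mul, hps, star_zero] at this
  have hvv : v * v = 0 := by
    have : v * v = v * (p * v) := by rw [← mul_assoc, hvp]
    rw [this, hpv, mul_zero]
  have hsvsv : star v * star v = 0 := by
    have := congrArg star hvv
    rwa [star_mul, star_zero] at this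
  have hCv : C * v = 0 := by rw [← hCp, mul_assoc, hpv, mul_zero]
  have hSv : S * v = 0 := by rw [← hSp, mul_assoc, hpv, mul_zero]
  have hsvC : star v * C = 0 := by rw [← hpC, ← mul_assoc, hsvp, zero_mul]
  have hsvS : star v * S = 0 := by rw [← hpS, ← mul_assoc, hsvp, zero_mul]
  have hSS : S * S = p - C * C := by rw [← hsum]; abel
  have ra : ∀ {x y z : A}, x * y = z → ∀ w, x * (y * w) = z * w := by
    intro x y z h w
    rw [← mul_assoc, h]
  have hstar : star (rot v C S) = C - v * S + S * star v + v * C * star v := by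
    unfold rot
    rw [star_add, star_add, star_sub, star_mul, star_mul, star_mul, star_mul, star_star, hC, hS,
      mul_assoc]
  refine ⟨?_, ?_, ?_⟩
  · rw [hstar]
    unfold rot
    simp only [mul_add, add_mul, mul_sub, sub_mul, mul_assoc, hpp, ra hpp, hpC, ra hpC, hCp,
      ra hCp, hpS, ra hpS, hSp, ra hSp, hvp, ra hvp, hpv, ra hpv, hpsv, ra hpsv, hsvp, ra hsvp,
      hvv, ra hvv, hsvsv, ra hsvsv, hCv, ra hCv, hSv, ra hSv, hsvC, ra hsvC, hsvS, ra hsvS,
      h1, ra h1, h2, ra h2, ← hCS, ra hCS.symm, hSS, ra hSS, mul_zero, zero_mul, one_mul, mul_one]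
    abel
  · rw [hstar]
    unfold rot
    simp only [mul_add, add_mul, mul_sub, sub_mul, mul_assoc, hpp, ra hpp, hpC, ra hpC, hCp,
      ra hCp, hpS, ra hpS, hSp, ra hSp, hvp, ra hvp, hpv, ra hpv, hpsv, ra hpsv, hsvp, ra hsvp,
      hvv, ra hvv, hsvsv, ra hsvsv, hCv, ra hCv, hSv, ra hSv, hsvC, ra hsvC, hsvS, ra hsvS,
      h1, ra h1, h2, ra h2, ← hCS, ra hCS.symm, hSS, ra hSS, mul_zero, zero_mul, one_mul, mul_one]
    abel
  · intro c hc hcC hcS
    obtain ⟨hpc, hcp, -, -⟩ := hc
    have hcv : c * v = 0 := by rw [← hcp, mul_assoc, hpv, mul_zero]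
    have hsvc : star v * c = 0 := by rw [← hpc, ← mul_assoc, hsvp, zero_mul]
    unfold rot dg
    simp only [mul_add, add_mul, mul_sub, sub_mul, mul_assoc, hpp, ra hpp, hpC, ra hpC, hCp,
      ra hCp, hpS, ra hpS, hSp, ra hSp, hvp, ra hvp, hpv, ra hpv, hpsv, ra hpsv, hsvp, ra hsvp,
      hvv, ra hvv, hsvsv, ra hsvsv, hCv, ra hCv, hSv, ra hSv, hsvC, ra hsvC, hsvS, ra hsvS,
      h1, ra h1, hpc, ra hpc, hcp, ra hcp, hcv, ra hcv, hsvc, ra hsvc, hcC, ra hcC, hcS, ra hcS,
      mul_zero, zero_mul, one_mul, mul_one]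
    abel

end Pool.Agent.H80R3.SO
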