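import Mathlib
import Pool.Agent.H80R3.SP.DefB
import Pool.Agent.H80R3.SP.BRC

/-!
Decomposition of the unitaries of `M_2(p N p)` (helper662).
-/

set_option autoImplicit false
set_option linter.unusedSimpArgs false

namespace Pool.Agent.H80R3.SO

theorem mx_pv {A : Type} [CStarAlgebra A] {p v : A} (hp : Prj p) (h1 : star v * v = p)
    (h2 : v * star v = 1 - p) : p * v = 0 := by
  have hvp : v * p = v := rc_v hp h1
  have e : (v * star v) * v = v * p := by rw [mul_assoc, h1]
  rw [h2, hvp, sub_mul, one_mul] at e
  exact sub_eq_self.1 e

theorem mx_ra {A : Type} [CStarAlgebra A] {x y z : A} (h : x * y = z) (w : A) :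
    x * (y * w) = z * w := by
  rw [← mul_assoc, h]

/-- block diagonal unitaries are unitary -/
theorem mx_dg {A : Type} [CStarAlgebra A] {p v a b : A} (hp : Prj p) (h1 : star v * v = p)
    (h2 : v * star v = 1 - p) (ha : UC p a) (hb : UC p b) :
    star (dg v a b) * dg v a b = 1 ∧ dg v a b * star (dg v a b) = 1 := by
  obtain ⟨hpa, hap, ha1, ha2⟩ := ha
  obtain ⟨hpb, hbp, hb1, hb2⟩ := hb
  have hvp : v * p = v := rc_v hp h1
  have hpv := mx_pv hp h1 h2
  have hsvp : star v * p = 0 := by
    have := congrArg star hpv
    rwa [star_mul, hp.1, star_zero] at this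
  have hav : a * v = 0 := by rw [← hap, mul_assoc, hpv, mul_zero]
  have hsva : star v * a = 0 := by rw [← hpa, ← mul_assoc, hsvp, zero_mul]
  have hsav : star a * v = 0 := by
    have := congrArg star hsva
    rwa [star_mul, star_star, star_zero] at this
  have hsvsa : star v * star a = 0 := by
    have := congrArg star hav
    rwa [star_mul, star_zero] at this
  have e0 : star (dg v a b) = star a + v * star b * star v := by
    unfold dg
    rw [star_add, star_mul, star_mul, star_star, mul_assoc]
  have ebp : star b * p = star b := by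
    have := congrArg star hpb
    rwa [star_mul, hp.1] at this
  constructor
  · rw [e0]
    unfold dg
    have e1 : (star a + v * star b * star v) * (a + v * b * star v) =
        star a * a + (star a * v) * b * star v + v * star b * (star v * a) +
          v * (star b * (star v * v)) * b * star v := by
      noncomm_ring
    rw [e1, ha1, hsav, hsva, h1, ebp, mul_assoc v (star b) b, hb1, hvp, h2]
    simp
  · rw [e0]
    unfold dg
    have e1 : (a + v * b * star v) * (star a + v * star b * star v) =
        a * star a + (a * v) * star b * star v + v * b * (star v * star a) +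
          v * (b * (star v * v)) * star b * star v := by
      noncomm_ring
    rw [e1, ha2, hav, hsvsa, h1, hbp, mul_assoc v b (star b), hb2, hvp, h2]
    simp

theorem p_MX (hP : S_POLU) : S_MX := by
  intro A _ τ hF hPol p v g hp h1 h2 hg1 hg2
  have hvp : v * p = v := rc_v hp h1
  have hpv := mx_pv hp h1 h2
  have hps := hp.1
  have hpp := hp.2
  have hpsv : p * star v = star v := by
    have := congrArg star hvp
    rwa [star_mul, hps] at this
  have hsvp : star v * p = 0 := by
    have := congrArg star hpv
    rwa [star_mul, hps, star_zero] at this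
  obtain ⟨u1, C, hu1, hpC, hCp, hC, hCC, hu1C, -⟩ := hP A τ hF hPol p (p * g * p) hp
    (by rw [← mul_assoc, ← mul_assoc, hpp]) (by rw [mul_assoc, hpp])
  obtain ⟨u2, S, hu2, hpS, hSp, hS, hSS, hu2S, hcomm⟩ := hP A τ hF hPol p (star v * g * p) hp
    (by rw [← mul_assoc, ← mul_assoc, hpsv]) (by rw [mul_assoc, hpp])
  have hsum : C * C + S * S = p := by
    rw [hCC, hSS]
    simp only [star_mul, star_star, hps]
    have e1 : p * (star g * p) * (p * g * p) + p * (star g * v) * (star v * g * p) =
        p * (star g * (p * p + v * star v) * g) * p := by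
      noncomm_ring
    rw [e1, hpp, h2, add_sub_cancel, mul_one, hg1, mul_one, hpp]
  have hCS : C * S = S * C := by
    apply hcomm
    rw [← hSS]
    have e1 : S * S = p - C * C := by rw [← hsum]; abel
    rw [e1, mul_sub, sub_mul, hCp, hpC, mul_assoc]
  obtain ⟨hr1, hr2, -⟩ := p_RC A p v C S hp h1 h2 hpC hCp hpS hSp hC hS hCS hsum
  obtain ⟨hd1, hd2⟩ := mx_dg hp h1 h2 hu1 hu2
  have hkey : dg v u1 u2 * rot v C S * p = g * p := by
    have e1 : dg v u1 u2 * rot v C S * p = u1 * (C * p) - u1 * S * (star v * p) +
        (u1 * v) * S * p + (u1 * v) * C * star v * p +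
        v * u2 * (star v * C) * p - v * u2 * (star v * S) * star v * p +
        v * (u2 * (star v * v)) * (S * p) + v * u2 * (star v * v) * C * (star v * p) := by
      unfold dg rot
      noncomm_ring
    have hu1v : u1 * v = 0 := by rw [← hu1.2.1, mul_assoc, hpv, mul_zero]
    have hsvC : star v * C = 0 := by rw [← hpC, ← mul_assoc, hsvp, zero_mul]
    have hsvS : star v * S = 0 := by rw [← hpS, ← mul_assoc, hsvp, zero_mul]
    rw [e1, hCp, hSp, hsvp, hu1v, hsvC, hsvS, h1, hu2.2.1, hu1C, mul_assoc v u2 S, hu2S]
    have e2 : p * g * p - u1 * S * 0 + 0 * S * p + 0 * C * star v * p + v * u2 * 0 * p -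
        v * u2 * 0 * star v * p + v * (star v * g * p) + v * u2 * p * C * 0 =
        (p + v * star v) * (g * p) := by
      noncomm_ring
    rw [e2, h2, add_sub_cancel, one_mul]
  set D := dg v u1 u2 with hD
  set Rr := rot v C S with hRr
  set k := star Rr * star D * g with hk
  have hkp : k * p = p := by
    have e1 : k * p = star Rr * (star D * (g * p)) := by rw [hk]; noncomm_ring
    have e2 : star Rr * (star D * (D * Rr * p)) = star Rr * ((star D * D) * (Rr * p)) := by
      noncomm_ring
    rw [e1, ← hkey, e2, hd1, one_mul, ← mul_assoc, hr1, one_mul]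
  have hsk : star k = star g * D * Rr := by
    rw [hk, star_mul, star_mul, star_star, star_star, ← mul_assoc]
  have hk1 : star k * k = 1 := by
    have e1 : star k * k = star g * (D * (Rr * star Rr) * star D) * g := by
      rw [hsk, hk]; noncomm_ring
    rw [e1, hr2, mul_one, hd2, mul_one, hg1]
  have hk2 : k * star k = 1 := by
    have e1 : k * star k = star Rr * (star D * (g * star g) * D) * Rr := by
      rw [hsk, hk]; noncomm_ring
    rw [e1, hg2, mul_one, hd1, mul_one, hr1]
  have hskp : star k * p = p := by
    have e1 : star k * (k * p) = p := by rw [← mul_assoc, hk1, one_mul]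
    rwa [hkp] at e1
  have hpk : p * k = p := by
    have := congrArg star hskp
    rwa [star_mul, star_star, hps] at this
  have hpsk : p * star k = p := by
    have := congrArg star hkp
    rwa [star_mul, hps] at this
  have hd : UC p (star v * k * v) := by
    refine ⟨by rw [← mul_assoc, ← mul_assoc, hpsv], by rw [mul_assoc, hvp], ?_, ?_⟩
    · have e1 : star (star v * k * v) * (star v * k * v) =
          star v * (star k * (v * star v) * k) * v := by
        rw [star_mul, star_mul, star_star]
        noncomm_ring
      have e2 : star k * (1 - p) * k = 1 - p := by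
        rw [mul_sub, mul_one, sub_mul, hk1, hskp, hpk]
      rw [e1, h2, e2, mul_sub, mul_one, hsvp, sub_zero, h1]
    · have e1 : (star v * k * v) * star (star v * k * v) =
          star v * (k * (v * star v) * star k) * v := by
        rw [star_mul, star_mul, star_star]
        noncomm_ring
      have e2 : k * (1 - p) * star k = 1 - p := by
        rw [mul_sub, mul_one, sub_mul, hk2, hkp, hpsk]
      rw [e1, h2, e2, mul_sub, mul_one, hsvp, sub_zero, h1]
  have hkd : dg v p (star v * k * v) = k := by
    have e1 : dg v p (star v * k * v) = p + (v * star v) * k * (v * star v) := by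
      unfold dg
      noncomm_ring
    rw [e1, h2]
    have e2 : p + (1 - p) * k * (1 - p) = p + k - k * p - p * k + (p * k) * p := by
      noncomm_ring
    rw [e2, hkp, hpk, hpp]
    abel
  refine ⟨u1, u2, star v * k * v, C, S, hu1, hu2, hd, hpC, hCp, hpS, hSp, hC, hS, hCS, hsum, ?_⟩
  rw [hkd]
  have e1 : D * Rr * k = D * (Rr * star Rr) * star D * g := by
    rw [hk]; noncomm_ring
  rw [e1, hr2, mul_one, hd2, one_mul]

end Pool.Agent.H80R3.SO
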