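import Mathlib
import Pool.Agent.H80R3.SP.DefB
import Pool.Agent.Helper278.Defs

/-!
Polar decomposition in a von Neumann algebra.
-/

set_option autoImplicit false

open scoped ComplexOrder InnerProductSpace ComplexConjugate

noncomputable section

namespace Pool.Agent.H80R3.SO

open Pool.Agent.H467F

namespace BPLaux

variable {H : Type} [NormedAddCommGroup H] [InnerProductSpace ℂ H] [CompleteSpace H]

lemma inner_star (a : H →L[ℂ] H) (ξ η : H) : ⟪star a ξ, η⟫_ℂ = ⟪ξ, a η⟫_ℂ := by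
  rw [ContinuousLinearMap.star_eq_adjoint, ContinuousLinearMap.adjoint_inner_left]

lemma inner_star' (a : H →L[ℂ] H) (ξ η : H) : ⟪ξ, star a η⟫_ℂ = ⟪a ξ, η⟫_ℂ := by
  rw [ContinuousLinearMap.star_eq_adjoint, ContinuousLinearMap.adjoint_inner_right]

lemma norm_eq_of (x a : H →L[ℂ] H) (ha : star a = a) (haa : a * a = star x * x) (ξ : H) :
    ‖a ξ‖ = ‖x ξ‖ := by
  have h1 : ⟪a ξ, a ξ⟫_ℂ = ⟪x ξ, x ξ⟫_ℂ := by
    rw [← inner_star a, ← inner_star x, ha]
    have : a (a ξ) = star x (x ξ) := by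
      have := congrArg (fun T : H →L[ℂ] H => T ξ) haa
      simpa using this
    rw [this]
  rw [inner_self_eq_norm_sq_to_K, inner_self_eq_norm_sq_to_K] at h1
  have h2 : ‖a ξ‖ ^ 2 = ‖x ξ‖ ^ 2 := by exact_mod_cast h1
  exact (sq_eq_sq₀ (norm_nonneg _) (norm_nonneg _)).1 h2

/-- Polar decomposition. -/
lemma exists_polar (x a : H →L[ℂ] H) (ha : star a = a) (haa : a * a = star x * x) :
    ∃ v : H →L[ℂ] H, v * a = x ∧ v * star v * v = v ∧ star v * v * a = a ∧
      (∀ ζ, a ζ = 0 → v ζ = 0) ∧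
      ∀ b c : H →L[ℂ] H, b * a = c * a → (∀ ζ, a ζ = 0 → b ζ = c ζ) → b = c := by
  have hn : ∀ ξ, ‖a ξ‖ = ‖x ξ‖ := norm_eq_of x a ha haa
  set K : Submodule ℂ H := (LinearMap.range (a : H →ₗ[ℂ] H)).topologicalClosure with hK
  have hKc : IsClosed (K : Set H) := Submodule.isClosed_topologicalClosure _
  have : CompleteSpace K := hKc.completeSpace_coe
  have hmem : ∀ ξ, a ξ ∈ K := fun ξ => Submodule.le_topologicalClosure _ ⟨ξ, rfl⟩
  let e : H →ₗ[ℂ] K := (a : H →ₗ[ℂ] H).codRestrict K hmem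
  have hde : DenseRange e := by
    intro k
    rw [Metric.mem_closure_iff]
    intro ε hε
    have hk : (k : H) ∈ closure (LinearMap.range (a : H →ₗ[ℂ] H) : Set H) := k.2
    rw [Metric.mem_closure_iff] at hk
    obtain ⟨_, ⟨ξ, rfl⟩, hξ⟩ := hk ε hε
    exact ⟨e ξ, ⟨ξ, rfl⟩, hξ⟩
  have hne : ∀ ξ, ‖(x : H →ₗ[ℂ] H) ξ‖ ≤ 1 * ‖e ξ‖ := by
    intro ξ
    rw [one_mul]
    exact (hn ξ).ge
  let V : K →L[ℂ] H := (x : H →ₗ[ℂ] H).extendOfNorm e
  have hV : ∀ ξ, V (e ξ) = x ξ := fun ξ => LinearMap.extendOfNorm_eq hde ⟨1, hne⟩ ξ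
  have hVn : ∀ k : K, ‖V k‖ = ‖k‖ := by
    intro k
    refine hde.induction (P := fun k => ‖V k‖ = ‖k‖) ?_ (isClosed_eq (by fun_prop) (by fun_prop)) k
    rintro _ ⟨ξ, rfl⟩
    rw [hV]
    exact (hn ξ).symm
  let Vi : K →ₗᵢ[ℂ] H := ⟨(V : K →ₗ[ℂ] H), hVn⟩
  have hVi : ∀ k l : K, ⟪V k, V l⟫_ℂ = ⟪k, l⟫_ℂ := fun k l => Vi.inner_map_map k l
  let v : H →L[ℂ] H := V ∘L K.orthogonalProjectionOnto
  have hv : ∀ ξ, v ξ = V (K.orthogonalProjectionOnto ξ) := fun ξ => rfl
  have hvK : ∀ k : K, v k = V k := by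
    intro k
    rw [hv, Submodule.orthogonalProjectionOnto_mem_subspace_eq_self]
  have hker : ∀ ζ, a ζ = 0 → ζ ∈ Kᗮ := by
    intro ζ hζ
    rw [hK, Submodule.orthogonal_closure, Submodule.mem_orthogonal]
    rintro _ ⟨ξ, rfl⟩
    show ⟪a ξ, ζ⟫_ℂ = 0
    rw [← inner_star', ha, hζ, inner_zero_right]
  have hker' : ∀ ζ, ζ ∈ Kᗮ → a ζ = 0 := by
    intro ζ hζ
    rw [Submodule.mem_orthogonal] at hζ
    have := hζ (a (a ζ)) (hmem _)
    rw [← inner_star', ha] at this
    exact inner_self_eq_zero.1 this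
  have hvs : ∀ ξ, star v (v ξ) = (K.orthogonalProjectionOnto ξ : H) := by
    intro ξ
    refine ext_inner_right ℂ fun η => ?_
    rw [inner_star, hv, hv, hVi, Submodule.inner_orthogonalProjectionOnto_eq_of_mem_left]
  refine ⟨v, ?_, ?_, ?_, ?_, ?_⟩
  · ext ξ
    show v (a ξ) = x ξ
    have : v (e ξ) = V (e ξ) := hvK _
    rw [hV] at this
    exact this
  · ext ξ
    show v (star v (v ξ)) = v ξ
    rw [hvs, hvK, hv]
  · ext ξ
    show star v (v (a ξ)) = a ξ
    rw [hvs]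
    have h2 := Submodule.orthogonalProjectionOnto_mem_subspace_eq_self (K := K) (e ξ)
    exact congrArg (fun k : K => (k : H)) h2
  · intro ζ hζ
    have := hker ζ hζ
    rw [hv, Submodule.orthogonalProjectionOnto_eq_zero_iff.2 this, map_zero]
  · intro b c h1 h2
    ext ξ
    have hK1 : ∀ k : K, b k = c k := by
      intro k
      refine hde.induction (P := fun k => b k = c k) ?_
        (isClosed_eq (by fun_prop) (by fun_prop)) k
      rintro _ ⟨η, rfl⟩
      exact congrArg (fun T : H →L[ℂ] H => T η) h1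
    have hK2 : b (ξ - K.starProjection ξ) = c (ξ - K.starProjection ξ) :=
      h2 _ (hker' _ (Submodule.sub_starProjection_mem_orthogonal ξ))
    have hK3 := hK1 (K.orthogonalProjectionOnto ξ)
    have hK4 : ((K.orthogonalProjectionOnto ξ : K) : H) = K.starProjection ξ := rfl
    rw [hK4] at hK3
    rw [map_sub, map_sub, hK3] at hK2
    exact sub_left_injective hK2

end BPLaux

open BPLaux

/-- PL: polar decomposition in a von Neumann algebra. -/
theorem p_PL (H : Type) [NormedAddCommGroup H] [InnerProductSpace ℂ H] [CompleteSpace H]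
    (N : VonNeumannAlgebra H) : Pol (Pool.Agent.Helper278.Elt N) := by
  rintro ⟨x, hx⟩
  have hxN : x ∈ N := hx
  obtain ⟨c, hcs, hcc, hcomm⟩ : ∃ c : H →L[ℂ] H, star c = c ∧ c * c = star x * x ∧
      ∀ y : H →L[ℂ] H, star x * x * y = y * (star x * x) → c * y = y * c := by
    refine ⟨CFC.abs x, (CFC.abs_nonneg x).isSelfAdjoint.star_eq, CFC.abs_mul_abs x, ?_⟩
    intro y h1
    have h3 : Commute (star x * x) y := h1
    exact (Commute.cfcₙ_nnreal h3 _ : Commute (CFC.abs x) y)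
  obtain ⟨v, hvc, hvv, hvvc, hv0, huniq⟩ := exists_polar x c hcs hcc
  have hcN : c ∈ N := by
    rw [← VonNeumannAlgebra.commutant_commutant N, VonNeumannAlgebra.mem_commutant_iff]
    intro y hy
    rw [VonNeumannAlgebra.mem_commutant_iff] at hy
    have h1 : x * y = y * x := hy x hxN
    have h2 : star x * y = y * star x := hy (star x) (star_mem hxN)
    refine (hcomm y ?_).symm
    rw [mul_assoc, h1, ← mul_assoc, h2, mul_assoc]
  have hvN : v ∈ N := by
    rw [← VonNeumannAlgebra.commutant_commutant N, VonNeumannAlgebra.mem_commutant_iff]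
    intro y hy
    rw [VonNeumannAlgebra.mem_commutant_iff] at hy
    have h1 : x * y = y * x := hy x hxN
    have h2 : star x * y = y * star x := hy (star x) (star_mem hxN)
    have h3 : c * y = y * c := hy c hcN
    refine huniq _ _ ?_ ?_
    · rw [mul_assoc, hvc, mul_assoc, ← h3, ← mul_assoc, hvc, h1]
    · intro ζ hζ
      show y (v ζ) = v (y ζ)
      have h4 : c (y ζ) = 0 := by
        have := congrArg (fun T : H →L[ℂ] H => T ζ) h3
        have h5 : c (y ζ) = y (c ζ) := this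
        rw [h5, hζ, map_zero]
      rw [hv0 ζ hζ, map_zero, hv0 _ h4]
  have hvs : star v * v * (star v * v) = star v * v := by
    rw [mul_assoc, ← mul_assoc v, hvv]
  refine ⟨⟨v, hvN⟩, ⟨c, hcN⟩, Subtype.ext hcs, Subtype.ext hcc, Subtype.ext hvc,
    ⟨Subtype.ext ?_, Subtype.ext hvs⟩, Subtype.ext hvvc, ?_, ?_⟩
  · show star (star v * v) = star v * v
    rw [star_mul, star_star]
  · rintro ⟨y, hy⟩ h
    have h' : c * y = 0 := congrArg Subtype.val h
    refine Subtype.ext ?_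
    show star v * v * y = 0
    have h2 : v * y = 0 := by
      ext ξ
      exact hv0 _ (congrArg (fun T : H →L[ℂ] H => T ξ) h')
    rw [mul_assoc, h2, mul_zero]
  · rintro ⟨y, hy⟩ h
    have h' : y * (star x * x) = star x * x * y := congrArg Subtype.val h
    exact Subtype.ext (hcomm y h'.symm).symm

end Pool.Agent.H80R3.SO
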