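import Mathlib
import Pool.Agent.H80R3.SP.DefB

set_option autoImplicit false

open scoped ComplexOrder Topology
open Filter

namespace Pool.Agent.H80R3.SO

open Pool.Agent.H467F

theorem BPOLU_pi {A : Type} [CStarAlgebra A] (w q : A) (hq : star w * w = q) (h2 : q * q = q)
    (h1 : star q = q) : w * q = w := by
  have h : star (w - w * q) * (w - w * q) = 0 := by
    have e1 : star (w - w * q) = star w - q * star w := by rw [star_sub, star_mul, h1]
    rw [e1]
    have e2 : (star w - q * star w) * (w - w * q) =
        star w * w - (star w * w) * q - q * (star w * w) + q * (star w * w) * q := by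
      noncomm_ring
    rw [e2, hq, h2, h2, sub_self, zero_sub, neg_add_cancel]
  have h' := (CStarRing.star_mul_self_eq_zero_iff _).1 h
  exact (sub_eq_zero.1 h').symm

theorem p_POLU : S_POLU := by
  intro A _ τ hF hP p a hp hpa hap
  obtain ⟨v, c, hc, hcc, hvc, he, hec, hker, hcom⟩ := hP a
  obtain ⟨hp1, hp2⟩ := hp
  obtain ⟨e, hedef⟩ : ∃ e, e = star v * v := ⟨_, rfl⟩
  rw [← hedef] at he hec hker
  obtain ⟨he1, he2⟩ := he
  -- `c * p = c`
  have hcp : c * p = c := by
    have h : star (c * (1 - p)) * (c * (1 - p)) = 0 := by
      rw [star_mul, hc, star_sub, star_one, hp1]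
      have e1 : (1 - p) * c * (c * (1 - p)) = (1 - p) * ((c * c) * (1 - p)) := by
        noncomm_ring
      rw [e1, hcc, mul_assoc (star a) a, mul_sub a, mul_one, hap, sub_self, mul_zero, mul_zero]
    have h' := (CStarRing.star_mul_self_eq_zero_iff _).1 h
    rw [mul_sub, mul_one] at h'
    exact (sub_eq_zero.1 h').symm
  have hpc : p * c = c := by
    have := congrArg star hcp
    rwa [star_mul, hp1, hc] at this
  -- `e ≤ p`
  have hep : e * p = e := by
    have h := hker (1 - p) (by rw [mul_sub, mul_one, hcp, sub_self])
    rw [mul_sub, mul_one] at h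
    exact (sub_eq_zero.1 h).symm
  have hpe : p * e = e := by
    have := congrArg star hep
    rwa [star_mul, hp1, he1] at this
  have hve : v * e = v := BPOLU_pi v e hedef.symm he2 he1
  have hvp : v * p = v := by
    calc v * p = v * e * p := by rw [hve]
      _ = v * (e * p) := mul_assoc _ _ _
      _ = v := by rw [hep, hve]
  have hev : e * star v = star v := by
    have := congrArg star hve
    rwa [star_mul, he1] at this
  -- `p * v = v`
  have hvs : star v * p = star v := by
    have h1 : c * (star v * (1 - p)) = 0 := by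
      have h2 : (1 - p) * (v * c) = 0 := by
        rw [hvc, sub_mul, one_mul, hpa, sub_self]
      have h3 := congrArg star h2
      rw [star_mul, star_mul, hc, star_sub, star_one, hp1, star_zero, mul_assoc] at h3
      exact h3
    have h2 := hker _ h1
    rw [← mul_assoc, hev, mul_sub, mul_one] at h2
    exact (sub_eq_zero.1 h2).symm
  have hpv : p * v = v := by
    have := congrArg star hvs
    rwa [star_mul, hp1, star_star] at this
  obtain ⟨f, hfdef⟩ : ∃ f, f = v * star v := ⟨_, rfl⟩
  have hf1 : star f = f := by rw [hfdef, star_mul, star_star]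
  have hfv : f * v = v := by rw [hfdef, mul_assoc, ← hedef, hve]
  have hf2 : f * f = f := by
    nth_rewrite 2 [hfdef]
    rw [← mul_assoc, hfv, ← hfdef]
  have hpf : p * f = f := by rw [hfdef, ← mul_assoc, hpv]
  have hfp : f * p = f := by rw [hfdef, mul_assoc, hvs]
  have hvf : star v * f = star v := by
    have := congrArg star hfv
    rwa [star_mul, hf1] at this
  -- the complementary partial isometry
  have hq1 : star (p - e) = p - e := by rw [star_sub, hp1, he1]
  have hq2 : (p - e) * (p - e) = p - e := by
    rw [sub_mul, mul_sub, mul_sub, hp2, hpe, hep, he2, sub_self, sub_zero]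
  have hr1 : star (p - f) = p - f := by rw [star_sub, hp1, hf1]
  have hr2 : (p - f) * (p - f) = p - f := by
    rw [sub_mul, mul_sub, mul_sub, hp2, hpf, hfp, hf2, sub_self, sub_zero]
  have htr : τ (p - e) = τ (p - f) := by
    rw [map_sub, map_sub, hedef, hfdef, hF.tw.comm (star v) v]
  obtain ⟨w, hw1, hw2⟩ := hF.equ (p - e) (p - f) hq1 hq2 hr1 hr2 htr
  have hwq : w * (p - e) = w := BPOLU_pi w (p - e) hw1 hq2 hq1
  have hrw : (p - f) * w = w := by
    rw [← hw2, mul_assoc, hw1, hwq]
  have hwp : w * p = w := by
    calc w * p = w * (p - e) * p := by rw [hwq]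
      _ = w * ((p - e) * p) := mul_assoc _ _ _
      _ = w := by rw [sub_mul, hp2, hep, hwq]
  have hpw : p * w = w := by
    calc p * w = p * ((p - f) * w) := by rw [hrw]
      _ = (p * (p - f)) * w := (mul_assoc _ _ _).symm
      _ = w := by rw [mul_sub, hp2, hpf, hrw]
  have hvw : star v * w = 0 := by
    calc star v * w = (star v * f) * ((p - f) * w) := by rw [hvf, hrw]
      _ = star v * ((f * (p - f)) * w) := by noncomm_ring
      _ = 0 := by rw [mul_sub, hfp, hf2, sub_self, zero_mul, mul_zero]
  have hwv : star w * v = 0 := by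
    have := congrArg star hvw
    rwa [star_mul, star_star, star_zero] at this
  have hvw' : v * star w = 0 := by
    have h1 : (p - e) * star w = star w := by
      have := congrArg star hwq
      rwa [star_mul, hq1] at this
    calc v * star w = (v * e) * ((p - e) * star w) := by rw [hve, h1]
      _ = v * ((e * (p - e)) * star w) := by noncomm_ring
      _ = 0 := by rw [mul_sub, hep, he2, sub_self, zero_mul, mul_zero]
  have hwv' : w * star v = 0 := by
    have := congrArg star hvw'
    rwa [star_mul, star_star, star_zero] at this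
  have hwc : w * c = 0 := by
    calc w * c = (w * (p - e)) * c := by rw [hwq]
      _ = w * ((p - e) * c) := mul_assoc _ _ _
      _ = 0 := by rw [sub_mul, hpc, hec, sub_self, mul_zero]
  refine ⟨v + w, c, ⟨?_, ?_, ?_, ?_⟩, hpc, hcp, hc, hcc, ?_, hcom⟩
  · rw [mul_add, hpv, hpw]
  · rw [add_mul, hvp, hwp]
  · rw [star_add, add_mul, mul_add, mul_add, hvw, hwv, hw1, ← hedef, add_zero, zero_add]
    abel
  · rw [star_add, add_mul, mul_add, mul_add, hvw', hwv', hw2, ← hfdef, add_zero, zero_add]
    abel
  · rw [add_mul, hwc, hvc, add_zero]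

end Pool.Agent.H80R3.SO
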