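import Pool.Agent.H80R3.SP.Defs

set_option autoImplicit false

open scoped ComplexOrder Topology InnerProductSpace
open Filter Pool.Agent.H467F

namespace Pool.Agent.H80R3.SO.CPx

universe u

variable {M : Type u} [CStarAlgebra M] {τ : M →ₗ[ℂ] ℂ}

theorem n2_unit (h : TW τ) {x : M} (hx : x ∈ unitary M) : n2 τ x = 1 := by
  unfold n2
  rw [(Unitary.mem_iff.1 hx).1, h.one]
  simp

theorem n2_mul_left (h : TW τ) {u : M} (hu : u ∈ unitary M) (a : M) :
    n2 τ (u * a) = n2 τ a := by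
  unfold n2
  have e : star (u * a) * (u * a) = star a * a := by
    rw [star_mul, mul_assoc, ← mul_assoc (star u) u a, (Unitary.mem_iff.1 hu).1, one_mul]
  rw [e]

theorem n2_mul_right (h : TW τ) {u : M} (hu : u ∈ unitary M) (a : M) :
    n2 τ (a * u) = n2 τ a := by
  have hu' : star u ∈ unitary M := Unitary.star_mem hu
  rw [← h.n2_star (a * u), star_mul, n2_mul_left h hu', h.n2_star]

theorem n2_pow (h : TW τ) {x y : M} (hx : x ∈ unitary M) (hy : y ∈ unitary M) (k : ℕ) :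
    n2 τ (x ^ k - y ^ k) ≤ k * n2 τ (x - y) := by
  induction k with
  | zero => simp [n2_zero]
  | succ k ih =>
    have e : x ^ (k + 1) - y ^ (k + 1) = x ^ k * (x - y) + (x ^ k - y ^ k) * y := by
      rw [pow_succ, pow_succ, mul_sub, sub_mul]
      abel
    rw [e]
    refine (h.n2_add_le _ _).trans ?_
    rw [n2_mul_left h (pow_mem hx k), n2_mul_right h hy]
    push_cast
    linarith

theorem tau_le (h : TW τ) (z : M) : ‖τ z‖ ≤ n2 τ z := by
  have h1 := h.cauchy' 1 z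
  rw [one_mul, n2_unit h (one_mem _), one_mul] at h1
  exact h1

theorem star_mul_one (h : TW τ) {y : M} (hy : ‖y‖ ≤ 1) (h1 : n2 τ y = 1) :
    star y * y = 1 := by
  let _ : PartialOrder M := CStarAlgebra.spectralOrder M
  have _ : StarOrderedRing M := CStarAlgebra.spectralOrderedRing M
  have hle : star y * y ≤ 1 := by
    have hn : ‖star y * y‖ ≤ 1 := by
      rw [CStarRing.norm_star_mul_self]
      exact mul_le_one₀ hy (norm_nonneg _) hy
    exact (CStarAlgebra.norm_le_one_iff_of_nonneg (star y * y) (star_mul_self_nonneg y)).1 hn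
  have h0 : 0 ≤ 1 - star y * y := sub_nonneg.2 hle
  obtain ⟨b, hb⟩ := CStarAlgebra.nonneg_iff_eq_star_mul_self.1 h0
  have ht : τ (star b * b) = 0 := by
    rw [← hb, map_sub, h.one, h.n2_sq' y, h1]
    simp
  have hb0 := h.faithful b ht
  rw [hb0, star_zero, mul_zero] at hb
  exact (sub_eq_zero.1 hb).symm

theorem n2_lim (h : TW τ) {x : ℕ → M} (hx : ∀ n, x n ∈ unitary M) {y : M}
    (ht : Tendsto (fun n => n2 τ (x n - y)) atTop (𝓝 0)) : n2 τ y = 1 := by
  have h1 : ∀ n, 1 - n2 τ y ≤ n2 τ (x n - y) := by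
    intro n
    have := h.n2_add_le (x n - y) y
    rw [sub_add_cancel, n2_unit h (hx n)] at this
    linarith
  have h2 : ∀ n, n2 τ y - 1 ≤ n2 τ (x n - y) := by
    intro n
    have := h.n2_add_le (y - x n) (x n)
    rw [sub_add_cancel, n2_unit h (hx n), n2_sub_comm τ y (x n)] at this
    linarith
  have h3 : 1 - n2 τ y ≤ 0 := ge_of_tendsto' ht h1
  have h4 : n2 τ y - 1 ≤ 0 := ge_of_tendsto' ht h2
  linarith

theorem unit_lim (h : TW τ) {x : ℕ → M} (hx : ∀ n, x n ∈ unitary M) {y : M} (hy : ‖y‖ ≤ 1)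
    (ht : Tendsto (fun n => n2 τ (x n - y)) atTop (𝓝 0)) : y ∈ unitary M := by
  have h1 := n2_lim h hx ht
  refine Unitary.mem_iff.2 ⟨star_mul_one h hy h1, ?_⟩
  have h2 := star_mul_one h (y := star y) (by rwa [norm_star]) (by rwa [h.n2_star])
  rwa [star_star] at h2

theorem tau_pow_lim (h : TW τ) {x : ℕ → M} (hx : ∀ n, x n ∈ unitary M) {y : M}
    (hy : y ∈ unitary M) (ht : Tendsto (fun n => n2 τ (x n - y)) atTop (𝓝 0)) (k : ℕ)
    (hk : ∀ n, τ (x n ^ k) = 0) : τ (y ^ k) = 0 := by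
  have h1 : ∀ n, ‖τ (y ^ k)‖ ≤ k * n2 τ (x n - y) := by
    intro n
    have e : τ (y ^ k) = - τ (x n ^ k - y ^ k) := by
      rw [map_sub, hk n]
      simp
    rw [e, norm_neg]
    exact (tau_le h _).trans (n2_pow h (hx n) hy k)
  have h2 : Tendsto (fun n => (k : ℝ) * n2 τ (x n - y)) atTop (𝓝 0) := by
    have := ht.const_mul (k : ℝ)
    rwa [mul_zero] at this
  have h3 : ‖τ (y ^ k)‖ ≤ 0 := ge_of_tendsto' h2 h1
  exact norm_le_zero_iff.1 h3

theorem exists_lim (h : TW τ) {x : ℕ → M} (hx : ∀ n, x n ∈ unitary M)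
    (hc : ∀ n, n2 τ (x n - x (n + 1)) ≤ (1 / 2) ^ n) :
    ∃ y ∈ unitary M, Tendsto (fun n => n2 τ (x n - y)) atTop (𝓝 0) := by
  have hnt : Nontrivial M := by
    refine ⟨⟨1, 0, fun h10 => ?_⟩⟩
    have h2 := h.one
    rw [h10, map_zero] at h2
    exact zero_ne_one h2
  have hone : ‖(1 : M)‖ ≤ 1 := by rw [CStarRing.norm_one]
  have hn : ∀ n, ‖x n‖ ≤ 1 := by
    intro n
    have h1 : ‖star (x n) * x n‖ ≤ 1 := by
      rw [(Unitary.mem_iff.1 (hx n)).1]
      exact hone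
    rw [CStarRing.norm_star_mul_self] at h1
    nlinarith [norm_nonneg (x n)]
  obtain ⟨y, hy, ht⟩ := h.complete x hn hc
  exact ⟨y, unit_lim h hx hy ht, ht⟩

end Pool.Agent.H80R3.SO.CPx

namespace Pool.Agent.H80R3.SO

open CPx

theorem p_CP : S_CP := by
  intro A _ τ h x hH hc
  obtain ⟨y, hy, ht⟩ := exists_lim h (x := fun n => (x n : A)) (fun n => (x n).2) hc
  refine ⟨⟨y, hy⟩, ?_, ht⟩
  have hnat : ∀ k : ℕ, k ≠ 0 → τ (y ^ k) = 0 := by
    intro k hk
    refine tau_pow_lim h (x := fun n => (x n : A)) (fun n => (x n).2) hy ht k ?_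
    intro n
    have h1 := hH n (k : ℤ) (by exact_mod_cast hk)
    rw [zpow_natCast, SubmonoidClass.coe_pow] at h1
    exact h1
  intro k hk
  obtain ⟨m, rfl | rfl⟩ := Int.eq_nat_or_neg k
  · have hm : m ≠ 0 := by
      rintro rfl
      exact hk rfl
    rw [zpow_natCast, SubmonoidClass.coe_pow]
    exact hnat m hm
  · have hm : m ≠ 0 := by
      rintro rfl
      exact hk (by simp)
    have h2 : (((⟨y, hy⟩ : unitary A) ^ (-(m : ℤ)) : unitary A) : A) = star (y ^ m) := by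
      rw [zpow_neg, zpow_natCast, ← Unitary.star_eq_inv, Unitary.coe_star, SubmonoidClass.coe_pow]
    rw [h2, h.conj, hnat m hm, star_zero]

end Pool.Agent.H80R3.SO
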