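import Mathlib
import Pool.Agent.H80R3.SP.Defs
import Pool.Agent.H565R2.FO2.Myc

/-! Task DI (helper60): the dichotomy by Mycielski's theorem. -/

set_option autoImplicit false

open scoped ComplexOrder Topology
open Filter

noncomputable section

namespace Pool.Agent.H80R3.SO

open Pool.Agent.H467F

namespace DIaux

variable {A : Type} [CStarAlgebra A]

/-- the Haar unitaries -/
structure HG (τ : A →ₗ[ℂ] ℂ) : Type where
  u : unitary A
  haar : Haar τ u

variable {τ : A →ₗ[ℂ] ℂ}

theorem HG_ext {x y : HG τ} (h : (x.u : A) = y.u) : x = y := by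
  obtain ⟨x, hx⟩ := x
  obtain ⟨y, hy⟩ := y
  have h2 : x = y := Subtype.ext h
  subst h2
  rfl

/-- the metric space of Haar unitaries -/
@[reducible] def mS (h : TW τ) : MetricSpace (HG τ) where
  dist u v := n2 τ ((u.u : A) - (v.u : A))
  dist_self u := by simp [n2_zero]
  dist_comm u v := n2_sub_comm τ _ _
  dist_triangle u v w := h.n2_tri _ _ _
  eq_of_dist_eq_zero := by
    intro u v huv
    exact HG_ext (sub_eq_zero.1 (h.eq_zero huv))

theorem mS_complete (h : TW τ) (hCP : S_CP) :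
    @CompleteSpace (HG τ) (mS h).toUniformSpace := by
  let _ := mS h
  refine Metric.complete_of_convergent_controlled_sequences (fun n => (1 / 2 : ℝ) ^ n)
    (fun n => by positivity) ?_
  intro x hx
  obtain ⟨y, hy, hlim⟩ := hCP A τ h (fun n => (x n).u) (fun n => (x n).haar)
    (fun n => (hx n n (n + 1) le_rfl (Nat.le_succ n)).le)
  refine ⟨(⟨y, hy⟩ : HG τ), ?_⟩
  rw [tendsto_iff_dist_tendsto_zero]
  exact hlim

end DIaux

open DIaux in
theorem p_DI (hCL : S_CL) (hCP : S_CP) (hFD : S_FD) (_h1 : S_TR1) : S_DI := by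
  intro A _ τ hF
  have hT : TW τ := hF.tw
  let _ := mS hT
  have hcomp : CompleteSpace (HG τ) := mS_complete hT hCP
  by_cases hne : Nonempty (HG τ)
  swap
  · left
    refine ⟨1, le_rfl, fun u v hu _ => ?_⟩
    exact absurd ⟨(⟨u, hu⟩ : HG τ)⟩ hne
  let W : ℕ → Set (HG τ × HG τ) := fun m => {p | ¬ R τ m p.1.u p.2.u}
  have hWo : ∀ m, IsOpen (W m) := by
    intro m
    rw [← isClosed_compl_iff]
    refine isClosed_of_closure_subset ?_
    intro p hp
    rw [Metric.mem_closure_iff] at hp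
    have h2 : R τ m p.1.u p.2.u := by
      refine hCL A τ hT m _ _ (fun ε hε => ?_)
      obtain ⟨q, hq, hqd⟩ := hp ε hε
      rw [Prod.dist_eq, max_lt_iff] at hqd
      have hq' : R τ m q.1.u q.2.u := by
        by_contra hcon
        exact hq hcon
      exact ⟨q.1.u, q.2.u, hqd.1, hqd.2, hq'⟩
    intro hcon
    exact hcon h2
  by_cases hd : ∀ m, Dense (W m)
  · right
    obtain ⟨f, _, hf⟩ := Pool.Agent.H565R2.FO2.mycielski W hWo hd
    exact ⟨fun s => (f s).u, fun s => (f s).haar, fun s t hst m => hf s t hst m⟩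
  · left
    push Not at hd
    obtain ⟨m, hm⟩ := hd
    have h3 : ∃ p, p ∉ closure (W m) := by
      by_contra hcon
      push Not at hcon
      exact hm hcon
    obtain ⟨p, hp⟩ := h3
    rw [Metric.mem_closure_iff] at hp
    push Not at hp
    obtain ⟨ρ, hρ, hp⟩ := hp
    refine hFD A τ hF m p.1.u p.2.u ρ p.1.haar p.2.haar hρ ?_
    intro u v hu hv h4 h5
    by_contra hcon
    have h6 := hp ((⟨u, hu⟩ : HG τ), (⟨v, hv⟩ : HG τ)) hcon
    rw [Prod.dist_eq] at h6
    have h7 : dist p.1 (⟨u, hu⟩ : HG τ) < ρ := by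
      rw [dist_comm]
      exact h4
    have h8 : dist p.2 (⟨v, hv⟩ : HG τ) < ρ := by
      rw [dist_comm]
      exact h5
    exact absurd (max_lt h7 h8) (not_lt.2 h6)

end Pool.Agent.H80R3.SO
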