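import Mathlib
import Pool.Agent.H80R3.SP.DefB

/-!
Amplifications by `t ≥ 1`: statements.
-/

set_option autoImplicit false

open scoped ComplexOrder Topology
open Filter

noncomputable section

namespace Pool.Agent.H80R3.SO

open Pool.Agent.H467F

/-- The rotation of `s s*` and `1 - p = s* s`. -/
def rotG {A : Type} [CStarAlgebra A] (p s C S : A) : A :=
  (p - s * star s) + s * S * star s + s * C + S - C * star s

/-- GMX: decomposition of the unitaries. -/
def S_GMX : Prop := ∀ (A : Type) [CStarAlgebra A] (τ : A →ₗ[ℂ] ℂ), Fac τ → Pol A →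
  ∀ p s g : A, Prj p → star s * s = 1 - p → p * (s * star s) = s * star s → star g * g = 1 →
    g * star g = 1 →
    ∃ y u2 d C S : A, UC p y ∧ UC (1 - p) u2 ∧ UC p d ∧ (1 - p) * C = C ∧ C * (1 - p) = C ∧
      (1 - p) * S = S ∧ S * (1 - p) = S ∧ star C = C ∧ star S = S ∧ C * S = S * C ∧
      C * C + S * S = 1 - p ∧ g = (y + u2) * rotG p s C S * (d + (1 - p))

/-- GRC: the rotation is unitary and commutes with `c1 + s c s* + c`. -/
def S_GRC : Prop := ∀ (A : Type) [CStarAlgebra A] (p s C S : A), Prj p → star s * s = 1 - p →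
  p * (s * star s) = s * star s → (1 - p) * C = C → C * (1 - p) = C → (1 - p) * S = S →
  S * (1 - p) = S → star C = C → star S = S → C * S = S * C → C * C + S * S = 1 - p →
  star (rotG p s C S) * rotG p s C S = 1 ∧ rotG p s C S * star (rotG p s C S) = 1 ∧
    ∀ c c1 : A, UC (1 - p) c → UC (p - s * star s) c1 → c * C = C * c → c * S = S * c →
      rotG p s C S * (c1 + s * c * star s + c) = (c1 + s * c * star s + c) * rotG p s C S

/-- GHQ: projections of given trace commuting with a given unitary. -/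
def S_GHQ : Prop := ∀ (A : Type) [CStarAlgebra A] (τ : A →ₗ[ℂ] ℂ), Fac τ → ∀ y : unitary A,
  ∀ p : A, Prj p → ∃ q : A, Prj q ∧ τ q = τ p ∧ (y : A) * q = q * y

/-- GSB: a projection of trace at least 1/2 dominates a copy of its complement. -/
def S_GSB : Prop := ∀ (A : Type) [CStarAlgebra A] (τ : A →ₗ[ℂ] ℂ), Fac τ →
  ∀ p : A, Prj p → 1 / 2 ≤ (τ p).re → ∃ s : A, star s * s = 1 - p ∧
    p * (s * star s) = s * star s

/-- GBC: block chains. -/
def S_GBC : Prop := ∀ (A : Type) [CStarAlgebra A] (τ : A →ₗ[ℂ] ℂ), Fac τ → ∀ U : Ultrafilter ℕ,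
  (∀ n, {n} ∉ U) → ∀ p s : A, Prj p → star s * s = 1 - p → p * (s * star s) = s * star s →
    UniC τ U p → ∀ x x' : unitary A, ∀ a b a' b' : A, HC τ p a → HC τ (1 - p) b → HC τ p a' →
      HC τ (1 - p) b' → (x : A) = a + b → (x' : A) = a' + b' → ∃ n : ℕ, 1 ≤ n ∧ Chain τ U n x x'

/-- GDB: amplification. -/
def S_GDB : Prop := ∀ (A : Type) [CStarAlgebra A] (τ : A →ₗ[ℂ] ℂ), Fac τ → Pol A →
  ∀ U : Ultrafilter ℕ, (∀ n, {n} ∉ U) → ∀ p : A, Prj p → 1 / 2 ≤ (τ p).re → UniC τ U p →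
    ∀ u v : unitary A, Haar τ u → Haar τ v → ∃ n : ℕ, 1 ≤ n ∧ Chain τ U n u v

end Pool.Agent.H80R3.SO
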