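import Mathlib
import Pool.Agent.H80R3.SP.Defs

/-! FD: an interior point of `R m` gives finite diameter. -/

set_option autoImplicit false

open scoped ComplexOrder Topology
open Filter

noncomputable section

namespace Pool.Agent.H80R3.SO

open Pool.Agent.H467F

namespace FDx

variable {A : Type} [CStarAlgebra A] {τ : A →ₗ[ℂ] ℂ}

lemma n2_left (w : unitary A) (x : A) : n2 τ ((w : A) * x) = n2 τ x := by
  unfold n2
  have h : star ((w : A) * x) * ((w : A) * x) = star x * x := by
    rw [star_mul, mul_assoc, ← mul_assoc (star (w : A)) (w : A) x, Unitary.coe_star_mul_self,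
      one_mul]
  rw [h]

lemma n2_right (hτ : TW τ) (w : unitary A) (x : A) : n2 τ (x * (w : A)) = n2 τ x := by
  have h := hτ.n2_star (x * (w : A))
  rw [← h, star_mul]
  have h2 : star (w : A) = ((star w : unitary A) : A) := rfl
  rw [h2, n2_left, hτ.n2_star]

lemma n2_conj (hτ : TW τ) (g : unitary A) (x y : unitary A) :
    n2 τ (((g * x * star g : unitary A) : A) - ((g * y * star g : unitary A) : A)) =
      n2 τ ((x : A) - y) := by
  have h : ((g * x * star g : unitary A) : A) - ((g * y * star g : unitary A) : A) =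
      (g : A) * (((x : A) - y) * ((star g : unitary A) : A)) := by
    simp only [Submonoid.coe_mul]
    noncomm_ring
  rw [h, n2_left, n2_right hτ]

lemma haar_conj (hτ : TW τ) (g u : unitary A) (hu : Haar τ u) : Haar τ (g * u * star g) := by
  intro k hk
  have h1 : (g * u * star g) ^ k = g * u ^ k * star g := by
    have h2 : star g = g⁻¹ := Unitary.star_eq_inv g
    rw [h2, conj_zpow]
  rw [h1]
  have h3 : ((g * u ^ k * star g : unitary A) : A) =
      (g : A) * (((u ^ k : unitary A) : A) * ((star g : unitary A) : A)) := by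
    simp only [Submonoid.coe_mul, mul_assoc]
  rw [h3, hτ.comm, mul_assoc]
  have h4 : ((star g : unitary A) : A) * (g : A) = 1 := by
    rw [← Submonoid.coe_mul, Unitary.star_mul_self]
    rfl
  rw [h4, mul_one]
  exact hu k hk

lemma near (hτ : TW τ) (r x : unitary A) :
    n2 τ ((x : A) - ((r * x * star r : unitary A) : A)) ≤ 2 * n2 τ ((r : A) - 1) := by
  have h1 : (x : A) - ((r * x * star r : unitary A) : A) =
      ((x : A) * (((1 : A) - ((star r : unitary A) : A)))) -
        ((((r : A) - 1) * (x : A)) * ((star r : unitary A) : A)) := by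
    simp only [Submonoid.coe_mul]
    noncomm_ring
  rw [h1]
  refine (hτ.n2_sub_le _ _).trans ?_
  rw [n2_left, n2_right hτ, n2_right hτ]
  have h2 : n2 τ ((1 : A) - ((star r : unitary A) : A)) = n2 τ ((r : A) - 1) := by
    rw [← hτ.n2_star, star_sub, star_one]
    have h3 : star ((star r : unitary A) : A) = (r : A) := by
      have : ((star r : unitary A) : A) = star (r : A) := rfl
      rw [this, star_star]
    rw [h3, n2_sub_comm]
  rw [h2]
  linarith

lemma n2_self (x : A) : n2 τ (x - x) = 0 := by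
  rw [sub_self]
  exact n2_zero τ

end FDx

open FDx in
theorem p_FD (h2 : S_TR2) (h1 : S_TR1) (h3 : S_TR3) (_h4 : S_TR4) (hAC : S_AC) (hST : S_ST) :
    S_FD := by
  intro A _ τ hF m u₀ v₀ ρ hu₀ hv₀ hρ H
  have hτ := hF.tw
  set d := m + 1 + m with hd
  -- Step 1
  have s1 : ∀ u u' : unitary A, Haar τ u → Haar τ u' → n2 τ ((u : A) - u₀) < ρ →
      n2 τ ((u' : A) - u₀) < ρ → R τ d u u' := by
    intro u u' hu hu' hn hn'
    have hv : n2 τ ((v₀ : A) - v₀) < ρ := by rw [n2_self]; exact hρ
    have a1 := H u v₀ hu hv₀ hn hv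
    have a2 := H u' v₀ hu' hv₀ hn' hv
    exact h2 A τ hτ m m u v₀ u' hv₀ a1 (h1 A τ hτ m u' v₀ a2)
  -- Step 2
  have s2 : ∀ u u' : unitary A, Haar τ u → Haar τ u' → n2 τ ((u : A) - u') < ρ / 2 →
      R τ d u u' := by
    intro u u' hu hu' hn
    obtain ⟨g, hg⟩ := hAC A τ hF u u₀ hu hu₀ (ρ / 2) (by linarith)
    have b1 : n2 τ (((g * u * star g : unitary A) : A) - u₀) < ρ := by linarith
    have b2 : n2 τ (((g * u' * star g : unitary A) : A) - u₀) < ρ := by
      have b3 := hτ.n2_tri ((g * u' * star g : unitary A) : A) ((g * u * star g : unitary A) : A)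
        (u₀ : A)
      rw [n2_conj hτ, n2_sub_comm τ (u' : A) (u : A)] at b3
      linarith
    have b4 := s1 _ _ (haar_conj hτ g u hu) (haar_conj hτ g u' hu') b1 b2
    have b5 := h3 A τ hτ d (star g) _ _ b4
    have b6 : ∀ x : unitary A, star g * (g * x * star g) * star (star g) = x := by
      intro x
      have c1 : star g = g⁻¹ := Unitary.star_eq_inv g
      rw [star_star, c1]
      group
    rw [b6, b6] at b5
    exact b5
  -- Step 3
  obtain ⟨L, hL⟩ := hST (ρ / 4) (by linarith)
  have s3 : ∀ (u z : unitary A), Haar τ u → n2 τ ((z : A) - 1) < ρ / 4 → ∀ k : ℕ,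
      Haar τ (z ^ k * u * star (z ^ k)) ∧
        R τ (k * (d + 1) + d) u (z ^ k * u * star (z ^ k)) := by
    intro u z hu hz k
    induction k with
    | zero =>
      have c0 : z ^ 0 * u * star (z ^ 0) = u := by
        rw [pow_zero, one_mul, star_one, mul_one]
      rw [c0]
      refine ⟨hu, ?_⟩
      rw [zero_mul, zero_add]
      exact s2 u u hu hu (by rw [n2_self]; linarith)
    | succ k ih =>
      have c1 : z ^ (k + 1) * u * star (z ^ (k + 1)) =
          z * (z ^ k * u * star (z ^ k)) * star z := by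
        rw [pow_succ' z k, star_mul]
        simp only [mul_assoc]
      have c2 : Haar τ (z * (z ^ k * u * star (z ^ k)) * star z) := haar_conj hτ z _ ih.1
      rw [c1]
      refine ⟨c2, ?_⟩
      have c3 := near hτ z (z ^ k * u * star (z ^ k))
      have c4 := s2 _ _ ih.1 c2 (by linarith)
      have c5 := h2 A τ hτ _ _ _ _ _ ih.1 ih.2 c4
      have c6 : k * (d + 1) + d + 1 + d = (k + 1) * (d + 1) + d := by ring
      rwa [c6] at c5
  have s4 : ∀ u g : unitary A, Haar τ u → R τ (L * (d + 1) + d + 1 + d) u (g * u * star g) := by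
    intro u g hu
    obtain ⟨r, z, hg, hr, hz⟩ := hL A τ hF g
    obtain ⟨e1, e2⟩ := s3 u z hu hz L
    have e3 : g * u * star g = r * (z ^ L * u * star (z ^ L)) * star r := by
      rw [hg, star_mul]
      simp only [mul_assoc]
    have e4 : Haar τ (r * (z ^ L * u * star (z ^ L)) * star r) := haar_conj hτ r _ e1
    rw [e3]
    have e5 := near hτ r (z ^ L * u * star (z ^ L))
    have e6 := s2 _ _ e1 e4 (by linarith)
    exact h2 A τ hτ _ _ _ _ _ e1 e2 e6
  -- Step 4
  refine ⟨L * (d + 1) + d + 1 + d + 1 + d, by omega, ?_⟩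
  intro u v hu hv
  obtain ⟨g, hg⟩ := hAC A τ hF u v hu hv (ρ / 2) (by linarith)
  have f1 := haar_conj hτ g u hu
  exact h2 A τ hτ _ _ _ _ _ f1 (s4 u g hu) (s2 _ _ f1 hv hg)

end Pool.Agent.H80R3.SO
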