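import Mathlib
import Pool.Agent.H80R3.SP.DefG
import Pool.Agent.H80R3.SP.CH
import Pool.Agent.H80R3.SP.TR
import Pool.Agent.H80R3.SP.BBC

/-!
Block chains for unequal blocks (helper909).
-/

set_option autoImplicit false

open scoped ComplexOrder Topology
open Filter

noncomputable section

namespace Pool.Agent.H80R3.SO

open Pool.Agent.H467F

namespace GBCx

variable {A : Type} [CStarAlgebra A] {τ : A →ₗ[ℂ] ℂ} {U : Ultrafilter ℕ}

theorem prj_compl {p : A} (hp : Prj p) : Prj (1 - p) := by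
  refine ⟨by rw [star_sub, star_one, hp.1], ?_⟩
  have h := hp.2
  have e : (1 - p) * (1 - p) = 1 - p - p + p * p := by noncomm_ring
  rw [e, h]
  noncomm_ring

theorem orth {p q a b : A} (h : p * q = 0) (ha : a * p = a) (hb : q * b = b) : a * b = 0 := by
  calc a * b = (a * p) * (q * b) := by rw [ha, hb]
    _ = a * (p * q) * b := by noncomm_ring
    _ = 0 := by rw [h, mul_zero, zero_mul]

theorem pow_add' {a b : A} (h1 : a * b = 0) (h2 : b * a = 0) (k : ℕ) :
    (a + b) ^ (k + 1) = a ^ (k + 1) + b ^ (k + 1) := by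
  induction k with
  | zero => simp
  | succ k ih =>
    rw [pow_succ, ih]
    have e1 : a ^ (k + 1) * b = 0 := by rw [pow_succ, mul_assoc, h1, mul_zero]
    have e2 : b ^ (k + 1) * a = 0 := by rw [pow_succ, mul_assoc, h2, mul_zero]
    rw [add_mul, mul_add, mul_add, e1, e2, add_zero, zero_add, ← pow_succ, ← pow_succ]

theorem UC_add {p q a b : A} (hp : Prj p) (hq : Prj q) (h : p * q = 0) (h' : q * p = 0)
    (ha : UC p a) (hb : UC q b) : UC (p + q) (a + b) := by
  have hsa := BCx.UC_star hp ha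
  have hsb := BCx.UC_star hq hb
  have e1 : p * b = 0 := orth h hp.2 hb.1
  have e2 : q * a = 0 := orth h' hq.2 ha.1
  have e3 : a * q = 0 := orth h ha.2.1 hq.2
  have e4 : b * p = 0 := orth h' hb.2.1 hp.2
  have e5 : star a * b = 0 := orth h hsa.2.1 hb.1
  have e6 : star b * a = 0 := orth h' hsb.2.1 ha.1
  have e7 : a * star b = 0 := orth h ha.2.1 hsb.1
  have e8 : b * star a = 0 := orth h' hb.2.1 hsa.1
  refine ⟨?_, ?_, ?_, ?_⟩
  · rw [add_mul, mul_add, mul_add, e1, e2, ha.1, hb.1]; simp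
  · rw [add_mul, mul_add, mul_add, e3, e4, ha.2.1, hb.2.1]; simp
  · rw [star_add, add_mul, mul_add, mul_add, e5, e6, ha.2.2.1, hb.2.2.1]; simp
  · rw [star_add, add_mul, mul_add, mul_add, e7, e8, ha.2.2.2, hb.2.2.2]; simp

theorem HC_add {p q a b : A} (hp : Prj p) (hq : Prj q) (h : p * q = 0) (h' : q * p = 0)
    (ha : HC τ p a) (hb : HC τ q b) : HC τ (p + q) (a + b) := by
  refine ⟨UC_add hp hq h h' ha.1 hb.1, fun k hk => ?_⟩
  obtain ⟨l, rfl⟩ : ∃ l, k = l + 1 := ⟨k - 1, by omega⟩
  rw [pow_add' (orth h ha.1.2.1 hb.1.1) (orth h' hb.1.2.1 ha.1.1), map_add, ha.2 _ hk,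
    hb.2 _ hk, add_zero]

theorem compl0 {p : A} (hp : Prj p) : p * (1 - p) = 0 ∧ (1 - p) * p = 0 := by
  constructor
  · rw [mul_sub, mul_one, hp.2, sub_self]
  · rw [sub_mul, one_mul, hp.2, sub_self]

theorem unit_of {p a b : A} (hp : Prj p) (ha : UC p a) (hb : UC (1 - p) b) :
    a + b ∈ unitary A := by
  have h := UC_add hp (prj_compl hp) (compl0 hp).1 (compl0 hp).2 ha hb
  have e : p + (1 - p) = 1 := by noncomm_ring
  rw [e] at h
  exact Unitary.mem_iff.2 ⟨h.2.2.1, h.2.2.2⟩

theorem haar_of (h : TW τ) (x : unitary A) (hx : ∀ k : ℕ, 1 ≤ k → τ ((x : A) ^ k) = 0) :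
    Haar τ x := by
  intro k hk
  obtain ⟨l, rfl | rfl⟩ := k.eq_nat_or_neg
  · rw [zpow_natCast]
    exact hx l (by omega)
  · rw [zpow_neg, zpow_natCast]
    have e : τ (((x ^ l)⁻¹ : unitary A) : A) = star (τ ((x : A) ^ l)) := by
      rw [← h.conj]
      rfl
    rw [e, hx l (by omega), star_zero]

theorem haar_sum (h : TW τ) {p a b : A} (hp : Prj p) (ha : HC τ p a) (hb : HC τ (1 - p) b)
    (x : unitary A) (hx : (x : A) = a + b) : Haar τ x := by
  apply haar_of h
  intro k hk
  rw [hx]
  exact (HC_add hp (prj_compl hp) (compl0 hp).1 (compl0 hp).2 ha hb).2 k hk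

theorem first (h : TW τ) {p a a' b : A} (hp : Prj p) (hU : UniC τ U p) (ha : HC τ p a)
    (ha' : HC τ p a') (hb : HC τ (1 - p) b) (x x' : unitary A) (hx : (x : A) = a + b)
    (hx' : (x' : A) = a' + b) : ∃ n : ℕ, Chain τ U n x x' := by
  obtain ⟨m, hm, hc⟩ := hU a a' ha ha'
  obtain ⟨w, w0, w1, wH, wC⟩ := BCx.pad (n := m) ha ha' hc le_rfl
  have hpp := compl0 hp
  refine ⟨m, fun i k => ⟨w i k + b, unit_of hp ((wH i).1 k) hb.1⟩, ?_, ?_, ?_, ?_⟩
  · funext k
    apply Subtype.ext
    simp only [w0]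
    exact hx.symm
  · funext k
    apply Subtype.ext
    simp only [w1]
    exact hx'.symm
  · intro i _ _
    have key : ∀ l : ℕ, Tendsto (fun n => τ ((w i n + b) ^ (l + 1)))
        (U : Filter ℕ) (𝓝 0) := fun l => by
      have e : ∀ n, τ ((w i n + b) ^ (l + 1)) = τ (w i n ^ (l + 1)) := fun n => by
        rw [pow_add' (orth hpp.1 ((wH i).1 n).2.1 hb.1.1) (orth hpp.2 hb.1.2.1 ((wH i).1 n).1),
          map_add, hb.2 _ (by omega), add_zero]
      simp only [e]
      exact (wH i).2 (l + 1) (by omega)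
    intro k hk
    obtain ⟨l, rfl | rfl⟩ := k.eq_nat_or_neg
    · obtain ⟨l', rfl⟩ : ∃ l', l = l' + 1 := ⟨l - 1, by omega⟩
      simp only [zpow_natCast]
      exact key l'
    · obtain ⟨l', rfl⟩ : ∃ l', l = l' + 1 := ⟨l - 1, by omega⟩
      have e : ∀ n, τ (((⟨w i n + b, unit_of hp ((wH i).1 n) hb.1⟩ : unitary A) ^
            (-((l' + 1 : ℕ) : ℤ)) : unitary A) : A) =
          star (τ ((w i n + b) ^ (l' + 1))) := fun n => by
        rw [zpow_neg, zpow_natCast, ← h.conj]
        rfl
      simp only [e]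
      have := (key l').star
      rwa [star_zero] at this
  · intro i _
    unfold CommU
    have e : ∀ n, (w i n + b) * (w (i + 1) n + b) - (w (i + 1) n + b) * (w i n + b) =
        w i n * w (i + 1) n - w (i + 1) n * w i n := fun n => by
      have f1 : w i n * b = 0 := orth hpp.1 ((wH i).1 n).2.1 hb.1.1
      have f2 : b * w i n = 0 := orth hpp.2 hb.1.2.1 ((wH i).1 n).1
      have f3 : w (i + 1) n * b = 0 := orth hpp.1 ((wH (i + 1)).1 n).2.1 hb.1.1
      have f4 : b * w (i + 1) n = 0 := orth hpp.2 hb.1.2.1 ((wH (i + 1)).1 n).1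
      rw [add_mul, add_mul, mul_add, mul_add, mul_add, mul_add, f1, f2, f3, f4]
      noncomm_ring
    simp only [e]
    exact wC i

end GBCx

open GBCx in
theorem p_GBC (hHX : S_HX) : S_GBC := by
  intro A _ τ hF U hUn p s hp hs hps hU x x' a b a' b' ha hb ha' hb' hx hx'
  have h := hF.tw
  obtain ⟨e, he⟩ : ∃ e : A, e = s * star s := ⟨_, rfl⟩
  have hp' := prj_compl hp
  have hs1 : s * (1 - p) = s := BCx.vp hp' hs
  have hsp : s * p = 0 := by
    rw [mul_sub, mul_one] at hs1
    have h2 : s - s * p = s - 0 := by rw [hs1, sub_zero]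
    exact sub_right_injective h2
  have hees : e * s = s := by rw [he, mul_assoc, hs, hs1]
  have hpe : p * e = e := by rw [he]; exact hps
  have hse : star e = e := by rw [he, star_mul, star_star]
  have hep : e * p = e := by
    have := congrArg star hpe
    rwa [star_mul, hp.1, hse] at this
  have hee : e * e = e := by
    nth_rewrite 2 [he]
    rw [← mul_assoc, hees, ← he]
  have hps' : p * s = s := by
    calc p * s = p * (e * s) := by rw [hees]
      _ = (p * e) * s := by rw [mul_assoc]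
      _ = s := by rw [hpe, hees]
  have hssp : star s * p = star s := by
    have := congrArg star hps'
    rwa [star_mul, hp.1] at this
  have hpss : p * star s = 0 := by
    have := congrArg star hsp
    rwa [star_mul, hp.1, star_zero] at this
  have hsse : star s * e = star s := by
    have := congrArg star hees
    rwa [star_mul, hse] at this
  have hss : s * s = 0 := by
    calc s * s = s * (p * s) := by rw [hps']
      _ = (s * p) * s := by rw [mul_assoc]
      _ = 0 := by rw [hsp, zero_mul]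
  have hss' : star s * star s = 0 := by
    have := congrArg star hss
    rwa [star_mul, star_zero] at this
  have hse0 : s * e = 0 := by
    calc s * e = s * (p * e) := by rw [hpe]
      _ = (s * p) * e := by rw [mul_assoc]
      _ = 0 := by rw [hsp, zero_mul]
  have hes0 : e * star s = 0 := by
    have := congrArg star hse0
    rwa [star_mul, hse, star_zero] at this
  have hP : Prj e := ⟨hse, hee⟩
  have hQ : Prj (p - e) := by
    refine ⟨by rw [star_sub, hp.1, hse], ?_⟩
    rw [sub_mul, mul_sub, mul_sub, hp.2, hpe, hep, hee]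
    noncomm_ring
  have hQe : (p - e) * e = 0 := by rw [sub_mul, hpe, hee, sub_self]
  have heQ : e * (p - e) = 0 := by rw [mul_sub, hep, hee, sub_self]
  -- the Haar unitary of `p - e`
  obtain ⟨x0, hx0c, hx0⟩ := hHX A τ hF {p - e} (by
    intro y hy
    rw [Set.mem_singleton_iff] at hy ⊢
    rw [hy, hQ.1]) (by
    intro y hy z hz
    rw [Set.mem_singleton_iff] at hy hz
    rw [hy, hz]) (p - e) rfl hQ
  obtain ⟨c1, hc1⟩ : ∃ c1 : A, c1 = (x0 : A) * (p - e) := ⟨_, rfl⟩
  have hcm := hx0c (p - e) rfl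
  have hx0u := Unitary.mem_iff.1 x0.2
  have hC1 : HC τ (p - e) c1 := by
    have hcs : star (x0 : A) * (p - e) = (p - e) * star (x0 : A) := by
      have := congrArg star hcm
      rw [star_mul, star_mul, hQ.1] at this
      exact this.symm
    refine ⟨⟨?_, ?_, ?_, ?_⟩, ?_⟩
    · rw [hc1, ← mul_assoc, ← hcm, mul_assoc, hQ.2]
    · rw [hc1, mul_assoc, hQ.2]
    · rw [hc1, star_mul, hQ.1]
      calc (p - e) * star (x0 : A) * ((x0 : A) * (p - e)) =
          (p - e) * (star (x0 : A) * (x0 : A)) * (p - e) := by noncomm_ring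
        _ = p - e := by rw [hx0u.1, mul_one, hQ.2]
    · rw [hc1, star_mul, hQ.1]
      calc (x0 : A) * (p - e) * ((p - e) * star (x0 : A)) =
          (x0 : A) * ((p - e) * (p - e)) * star (x0 : A) := by noncomm_ring
        _ = ((x0 : A) * (p - e)) * star (x0 : A) := by rw [hQ.2]
        _ = (p - e) * ((x0 : A) * star (x0 : A)) := by rw [hcm, mul_assoc]
        _ = p - e := by rw [hx0u.2, mul_one]
    · intro k hk
      have e1 : ∀ l : ℕ, c1 ^ (l + 1) = (x0 : A) ^ (l + 1) * (p - e) := by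
        intro l
        induction l with
        | zero => simp [hc1]
        | succ l ih =>
          rw [pow_succ, ih, hc1]
          calc (x0 : A) ^ (l + 1) * (p - e) * ((x0 : A) * (p - e)) =
              (x0 : A) ^ (l + 1) * ((p - e) * (x0 : A)) * (p - e) := by noncomm_ring
            _ = (x0 : A) ^ (l + 1) * ((x0 : A) * (p - e)) * (p - e) := by rw [hcm]
            _ = ((x0 : A) ^ (l + 1) * (x0 : A)) * ((p - e) * (p - e)) := by noncomm_ring
            _ = _ := by rw [hQ.2, ← pow_succ]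
      obtain ⟨l, rfl⟩ : ∃ l, k = l + 1 := ⟨k - 1, by omega⟩
      rw [e1]
      exact (hx0 _ hk).2
  -- transport to `e`
  have htr : ∀ y : A, HC τ (1 - p) y → HC τ e (s * y * star s) := by
    intro y hy
    have hpow : ∀ l : ℕ, (s * y * star s) ^ (l + 1) = s * y ^ (l + 1) * star s := by
      intro l
      induction l with
      | zero => simp
      | succ l ih =>
        rw [pow_succ, ih]
        calc s * y ^ (l + 1) * star s * (s * y * star s) =
            s * y ^ (l + 1) * ((star s * s) * y) * star s := by noncomm_ring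
          _ = s * (y ^ (l + 1) * y) * star s := by rw [hs, hy.1.1]; noncomm_ring
          _ = _ := by rw [← pow_succ]
    refine ⟨⟨?_, ?_, ?_, ?_⟩, ?_⟩
    · rw [← mul_assoc, ← mul_assoc, hees]
    · rw [mul_assoc, hsse]
    · rw [star_mul, star_mul, star_star]
      calc s * (star y * star s) * (s * y * star s) =
          s * (star y * ((star s * s) * y)) * star s := by noncomm_ring
        _ = s * (1 - p) * star s := by rw [hs, hy.1.1, hy.1.2.2.1]
        _ = e := by rw [hs1, he]
    · rw [star_mul, star_mul, star_star]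
      calc s * y * star s * (s * (star y * star s)) =
          s * (y * (star s * s) * star y) * star s := by noncomm_ring
        _ = s * (1 - p) * star s := by rw [hs, hy.1.2.1, hy.1.2.2.2]
        _ = e := by rw [hs1, he]
    · intro k hk
      obtain ⟨l, rfl⟩ : ∃ l, k = l + 1 := ⟨k - 1, by omega⟩
      rw [hpow, mul_assoc, h.comm, mul_assoc, hs]
      have h1 := (BCx.UC_pow hy.1 l).2
      rw [h1]
      exact hy.2 _ hk
  have hpsum : (p - e) + e = p := by noncomm_ring
  have hpart : ∀ y : A, HC τ (1 - p) y → HC τ p (c1 + s * y * star s) := by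
    intro y hy
    have h1 := HC_add hQ hP hQe heQ hC1 (htr y hy)
    rwa [hpsum] at h1
  -- the swap
  obtain ⟨z, hz⟩ : ∃ z : A, z = (p - e) + s + star s := ⟨_, rfl⟩
  have hzs : star z = z := by
    rw [hz, star_add, star_add, hQ.1, star_star]
    abel
  have hQs : (p - e) * s = 0 := by rw [sub_mul, hps', hees, sub_self]
  have hsQ : s * (p - e) = 0 := by rw [mul_sub, hsp, hse0, sub_self]
  have hsQ' : star s * (p - e) = 0 := by rw [mul_sub, hssp, hsse, sub_self]
  have hQs' : (p - e) * star s = 0 := by rw [sub_mul, hpss, hes0, sub_self]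
  have hzz : z * z = 1 := by
    rw [hz]
    have e1 : ((p - e) + s + star s) * ((p - e) + s + star s) = (p - e) * (p - e) +
        (p - e) * s + (p - e) * star s + s * (p - e) + s * s + s * star s + star s * (p - e) +
        star s * s + star s * star s := by noncomm_ring
    rw [e1, hQ.2, hQs, hQs', hsQ, hss, hsQ', hs, hss', ← he]
    noncomm_ring
  have hzu : z ∈ unitary A := Unitary.mem_iff.2 ⟨by rw [hzs, hzz], by rw [hzs, hzz]⟩
  have k1 : z * (p - e) = p - e := by
    rw [hz, add_mul, add_mul, hQ.2, hsQ, hsQ', add_zero, add_zero]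
  have k1' : (p - e) * z = p - e := by
    rw [hz, mul_add, mul_add, hQ.2, hQs, hQs', add_zero, add_zero]
  have k2 : z * s = 1 - p := by
    rw [hz, add_mul, add_mul, hQs, hss, hs, zero_add, zero_add]
  have k2' : star s * z = 1 - p := by
    rw [hz, mul_add, mul_add, hsQ', hs, hss', zero_add, add_zero]
  have k3 : z * (1 - p) = s := by
    have e1 : (p - e) * (1 - p) = 0 := by
      rw [mul_sub, mul_one, sub_mul, hp.2, hep, sub_self]
    have e2 : star s * (1 - p) = 0 := by rw [mul_sub, mul_one, hssp, sub_self]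
    rw [hz, add_mul, add_mul, e1, e2, hs1, zero_add, add_zero]
  have k3' : (1 - p) * z = star s := by
    have := congrArg star k3
    rwa [star_mul, hzs, hp'.1] at this
  have hconj : ∀ y y' : A, HC τ (1 - p) y → HC τ (1 - p) y' →
      z * ((c1 + s * y * star s) + y') * z = (c1 + s * y' * star s) + y := by
    intro y y' hy hy'
    have ec : z * c1 * z = c1 := by
      calc z * c1 * z = z * ((p - e) * c1 * (p - e)) * z := by rw [hC1.1.1, hC1.1.2.1]
        _ = (z * (p - e)) * c1 * ((p - e) * z) := by noncomm_ring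
        _ = c1 := by rw [k1, k1', hC1.1.1, hC1.1.2.1]
    have ey : z * y' * z = s * y' * star s := by
      calc z * y' * z = z * ((1 - p) * y' * (1 - p)) * z := by rw [hy'.1.1, hy'.1.2.1]
        _ = (z * (1 - p)) * y' * ((1 - p) * z) := by simp only [mul_assoc]
        _ = s * y' * star s := by rw [k3, k3']
    calc z * ((c1 + s * y * star s) + y') * z =
        z * c1 * z + (z * s) * y * (star s * z) + z * y' * z := by noncomm_ring
      _ = c1 + y + s * y' * star s := by rw [ec, ey, k2, k2', hy.1.1, hy.1.2.1]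
      _ = _ := by abel
  have hCH := fun m u v => (p_CH A τ h U hUn m u v)
  -- the second kind of steps
  have second : ∀ y y1 y2 : A, HC τ (1 - p) y → HC τ (1 - p) y1 → HC τ (1 - p) y2 →
      ∀ u v : unitary A, (u : A) = (c1 + s * y * star s) + y1 →
        (v : A) = (c1 + s * y * star s) + y2 → ∃ n, R τ n u v := by
    intro y y1 y2 hy hy1 hy2 u v hu hv
    obtain ⟨n, hn⟩ := first h hp hU (hpart y1 hy1) (hpart y2 hy2) hy
      ⟨_, unit_of hp (hpart y1 hy1).1 hy.1⟩ ⟨_, unit_of hp (hpart y2 hy2).1 hy.1⟩ rfl rfl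
    have h2 := p_TR3 A τ h n ⟨z, hzu⟩ _ _ ((hCH n _ _).1 hn)
    refine ⟨n, ?_⟩
    have eu : (⟨z, hzu⟩ : unitary A) * ⟨_, unit_of hp (hpart y1 hy1).1 hy.1⟩ *
        star (⟨z, hzu⟩ : unitary A) = u := by
      apply Subtype.ext
      change z * ((c1 + s * y1 * star s) + y) * star z = (u : A)
      rw [hzs, hconj y1 y hy1 hy, hu]
    have ev : (⟨z, hzu⟩ : unitary A) * ⟨_, unit_of hp (hpart y2 hy2).1 hy.1⟩ *
        star (⟨z, hzu⟩ : unitary A) = v := by
      apply Subtype.ext
      change z * ((c1 + s * y2 * star s) + y) * star z = (v : A)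
      rw [hzs, hconj y2 y hy2 hy, hv]
    rw [eu, ev] at h2
    exact h2
  obtain ⟨X1, hX1⟩ : ∃ X1 : unitary A, (X1 : A) = (c1 + s * b * star s) + b :=
    ⟨⟨_, unit_of hp (hpart b hb).1 hb.1⟩, rfl⟩
  obtain ⟨X2, hX2⟩ : ∃ X2 : unitary A, (X2 : A) = (c1 + s * b * star s) + b' :=
    ⟨⟨_, unit_of hp (hpart b hb).1 hb'.1⟩, rfl⟩
  obtain ⟨n1, hn1⟩ := first h hp hU ha (hpart b hb) hb x X1 hx hX1
  obtain ⟨n2, hn2⟩ := second b b b' hb hb hb' X1 X2 hX1 hX2
  obtain ⟨n3, hn3⟩ := first h hp hU (hpart b hb) ha' hb' X2 x' hX2 hx'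
  have H1 := haar_sum h hp (hpart b hb) hb X1 hX1
  have H2 := haar_sum h hp (hpart b hb) hb' X2 hX2
  have r1 := p_TR2 A τ h n1 n2 x X1 X2 H1 ((hCH n1 _ _).1 hn1) hn2
  have r2 := p_TR2 A τ h (n1 + 1 + n2) n3 x X2 x' H2 r1 ((hCH n3 _ _).1 hn3)
  exact ⟨n1 + 1 + n2 + 1 + n3, by omega, (hCH _ _ _).2 r2⟩

end Pool.Agent.H80R3.SO
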