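import Mathlib
import Pool.Agent.H80R3.SP.DefG

/-! Task G_DB (helper219, adapting helper60): amplification. -/

set_option autoImplicit false

open scoped ComplexOrder Topology
open Filter

noncomputable section

namespace Pool.Agent.H80R3.SO

open Pool.Agent.H467F

namespace GDBx

variable {A : Type} [CStarAlgebra A] {p : A}

lemma UC_p (hp : Prj p) : UC p p := ⟨hp.2, hp.2, by rw [hp.1, hp.2], by rw [hp.1, hp.2]⟩

lemma UC_mul0 {a b : A} (ha : UC p a) (hb : UC p b) (hp : Prj p) : UC p (a * b) := by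
  have hsb1 : star b * p = star b := by
    have := congrArg star hb.1
    rwa [star_mul, hp.1] at this
  refine ⟨by rw [← mul_assoc, ha.1], by rw [mul_assoc, hb.2.1], ?_, ?_⟩
  · rw [star_mul]
    calc star b * star a * (a * b) = star b * (star a * a) * b := by noncomm_ring
      _ = p := by rw [ha.2.2.1, hsb1, hb.2.2.1]
  · rw [star_mul]
    calc a * b * (star b * star a) = a * (b * star b) * star a := by noncomm_ring
      _ = p := by rw [hb.2.2.2, ha.2.1, ha.2.2.2]


lemma UCs {a : A} (ha : UC p a) (hp : Prj p) : UC p (star a) := by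
  refine ⟨?_, ?_, ?_, ?_⟩
  · have := congrArg star ha.2.1
    rwa [star_mul, hp.1] at this
  · have := congrArg star ha.1
    rwa [star_mul, hp.1] at this
  · rw [star_star]; exact ha.2.2.2
  · rw [star_star]; exact ha.2.2.1

lemma pq_zero {P Q a b : A} (hPQ : P * Q = 0) (ha : a * P = a) (hb : Q * b = b) : a * b = 0 := by
  rw [← ha, ← hb]
  calc a * P * (Q * b) = a * (P * Q) * b := by noncomm_ring
    _ = 0 := by rw [hPQ, mul_zero, zero_mul]

lemma sum_mul {P Q a b a' b' : A} (hPQ : P * Q = 0) (hQP : Q * P = 0) (ha : a * P = a)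
    (hb : b * Q = b) (ha' : P * a' = a') (hb' : Q * b' = b') :
    (a + b) * (a' + b') = a * a' + b * b' := by
  have h1 : a * b' = 0 := pq_zero hPQ ha hb'
  have h2 : b * a' = 0 := pq_zero hQP hb ha'
  rw [add_mul, mul_add, mul_add, h1, h2]
  abel

lemma sum_UC {P Q a b : A} (hP : Prj P) (hQ : Prj Q) (hPQ : P * Q = 0) (hQP : Q * P = 0)
    (ha : UC P a) (hb : UC Q b) : UC (P + Q) (a + b) := by
  have hsa := UCs ha hP
  have hsb := UCs hb hQ
  refine ⟨?_, ?_, ?_, ?_⟩
  · rw [sum_mul hPQ hQP hP.2 hQ.2 ha.1 hb.1, ha.1, hb.1]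
  · rw [sum_mul hPQ hQP ha.2.1 hb.2.1 hP.2 hQ.2, ha.2.1, hb.2.1]
  · rw [star_add, sum_mul hPQ hQP hsa.2.1 hsb.2.1 ha.1 hb.1, ha.2.2.1, hb.2.2.1]
  · rw [star_add, sum_mul hPQ hQP ha.2.1 hb.2.1 hsa.1 hsb.1, ha.2.2.2, hb.2.2.2]

lemma UC_pow {P a : A} (ha : UC P a) : ∀ k : ℕ, P * a ^ (k + 1) = a ^ (k + 1) ∧
    a ^ (k + 1) * P = a ^ (k + 1) := by
  intro k
  induction k with
  | zero => simpa using ⟨ha.1, ha.2.1⟩
  | succ k ih =>
    refine ⟨?_, ?_⟩
    · rw [pow_succ, ← mul_assoc, ih.1]
    · rw [pow_succ, mul_assoc, ha.2.1]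

lemma sum_pow {P Q a b : A} (hPQ : P * Q = 0) (hQP : Q * P = 0)
    (ha : UC P a) (hb : UC Q b) : ∀ k : ℕ, (a + b) ^ (k + 1) = a ^ (k + 1) + b ^ (k + 1) := by
  intro k
  induction k with
  | zero => simp
  | succ k ih =>
    rw [pow_succ, ih, sum_mul hPQ hQP (UC_pow ha k).2 (UC_pow hb k).2 ha.1 hb.1, ← pow_succ,
      ← pow_succ]

variable {τ : A →ₗ[ℂ] ℂ}

lemma sum_HC {P Q a b : A} (hP : Prj P) (hQ : Prj Q) (hPQ : P * Q = 0) (hQP : Q * P = 0)
    (ha : HC τ P a) (hb : HC τ Q b) : HC τ (P + Q) (a + b) := by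
  refine ⟨sum_UC hP hQ hPQ hQP ha.1 hb.1, fun k hk => ?_⟩
  obtain ⟨k, rfl⟩ : ∃ j, k = j + 1 := ⟨k - 1, by omega⟩
  rw [sum_pow hPQ hQP ha.1 hb.1, map_add, ha.2 _ hk, hb.2 _ hk, add_zero]

/-- transport by a partial isometry -/
lemma HC_iso (hT : TW τ) {P e s c : A} (hP : Prj P) (hs1 : star s * s = P)
    (hs2 : s * star s = e) (hsP : s * P = s) (hc : HC τ P c) : HC τ e (s * c * star s) := by
  have hc' := UCs hc.1 hP
  have hsP' : P * star s = star s := by
    have := congrArg star hsP
    rwa [star_mul, hP.1] at this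
  have hpow : ∀ k : ℕ, (s * c * star s) ^ (k + 1) = s * c ^ (k + 1) * star s := by
    intro k
    induction k with
    | zero => simp
    | succ k ih =>
      rw [pow_succ, ih]
      calc s * c ^ (k + 1) * star s * (s * c * star s) =
          s * c ^ (k + 1) * ((star s * s) * c) * star s := by noncomm_ring
        _ = s * c ^ (k + 1 + 1) * star s := by
          rw [hs1, hc.1.1, pow_succ c (k + 1)]
          noncomm_ring
  refine ⟨⟨?_, ?_, ?_, ?_⟩, fun k hk => ?_⟩
  · rw [← hs2]
    calc s * star s * (s * c * star s) = s * ((star s * s) * c) * star s := by noncomm_ring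
      _ = s * c * star s := by rw [hs1, hc.1.1]
  · rw [← hs2]
    calc s * c * star s * (s * star s) = s * (c * (star s * s)) * star s := by noncomm_ring
      _ = s * c * star s := by rw [hs1, hc.1.2.1]
  · rw [star_mul, star_mul, star_star]
    calc s * (star c * star s) * (s * c * star s) =
        s * (star c * ((star s * s) * c)) * star s := by noncomm_ring
      _ = e := by rw [hs1, hc.1.1, hc.1.2.2.1, hsP, hs2]
  · rw [star_mul, star_mul, star_star]
    calc s * c * star s * (s * (star c * star s)) =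
        s * (c * ((star s * s) * star c)) * star s := by noncomm_ring
      _ = e := by rw [hs1, hc'.1, hc.1.2.2.2, hsP, hs2]
  · obtain ⟨k, rfl⟩ : ∃ j, k = j + 1 := ⟨k - 1, by omega⟩
    rw [hpow, mul_assoc, hT.comm, mul_assoc, hs1, (UC_pow hc.1 k).2]
    exact hc.2 _ hk

/-- cut a commuting unitary -/
lemma HC_cut {P z : A} (hP : Prj P) (hzz : star z * z = 1) (hzz' : z * star z = 1)
    (hzp : z * P = P * z) (hk : ∀ k : ℕ, 1 ≤ k → τ (z ^ k * P) = 0) : HC τ P (z * P) := by
  refine ⟨⟨?_, ?_, ?_, ?_⟩, ?_⟩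
  · rw [← mul_assoc, ← hzp, mul_assoc, hP.2]
  · rw [mul_assoc, hP.2]
  · rw [star_mul, hP.1]
    calc P * star z * (z * P) = P * (star z * z) * P := by noncomm_ring
      _ = P := by rw [hzz, mul_one, hP.2]
  · rw [star_mul, hP.1]
    calc z * P * (P * star z) = (z * (P * P)) * star z := by noncomm_ring
      _ = P * (z * star z) := by rw [hP.2, hzp, mul_assoc]
      _ = P := by rw [hzz', mul_one]
  · have hpow : ∀ k : ℕ, (z * P) ^ (k + 1) = z ^ (k + 1) * P := by
      intro k
      induction k with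
      | zero => simp
      | succ k ih =>
        rw [pow_succ, ih, pow_succ z (k + 1)]
        calc z ^ (k + 1) * P * (z * P) = z ^ (k + 1) * ((P * z) * P) := by
              noncomm_ring
          _ = z ^ (k + 1) * z * P := by
              rw [← hzp, mul_assoc, hP.2, mul_assoc]
    intro k hk'
    obtain ⟨k, rfl⟩ : ∃ j, k = j + 1 := ⟨k - 1, by omega⟩
    rw [hpow]
    exact hk _ hk'

lemma HC_conj (hT : TW τ) (hp : Prj p) {a d : A} (ha : HC τ p a) (hd : UC p d) :
    HC τ p (d * a * star d) := HC_iso hT hp hd.2.2.1 hd.2.2.2 hd.2.1 ha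

lemma Haar_of_pow (hT : TW τ) (x : unitary A) (hx : ∀ k : ℕ, 1 ≤ k → τ ((x : A) ^ k) = 0) :
    Haar τ x := by
  intro k hk
  rcases Int.lt_or_gt_of_ne hk with h | h
  · obtain ⟨n, hn⟩ : ∃ n : ℕ, k = -(n : ℤ) := ⟨k.natAbs, by omega⟩
    subst hn
    have hn1 : 1 ≤ n := by omega
    have h1 : ((x ^ (-(n : ℤ)) : unitary A) : A) = star ((x : A) ^ n) := by
      rw [zpow_neg, zpow_natCast]
      rfl
    rw [h1, hT.conj, hx n hn1, star_zero]
  · obtain ⟨n, hn⟩ : ∃ n : ℕ, k = (n : ℤ) := ⟨k.natAbs, by omega⟩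
    subst hn
    have hn1 : 1 ≤ n := by omega
    rw [zpow_natCast]
    exact hx n hn1

lemma R_zero (hT : TW τ) (u x : unitary A) (h : (u : A) * x = x * u) : R τ 0 u x := by
  intro k
  refine ⟨fun i => if i = 0 then u else x, by simp, by simp, fun i h1 h2 => by omega, ?_⟩
  intro i hi
  have h0 : i = 0 := by omega
  subst h0
  simp only [if_true, zero_add, one_ne_zero, if_false]
  rw [h, sub_self, n2_zero]
  positivity

lemma pi_right {a p : A} (hp : Prj p) (h : star a * a = p) : a * p = a := by
  have h1 : star (a - a * p) * (a - a * p) = 0 := by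
    have : star (a - a * p) * (a - a * p) =
        star a * a - star a * a * p - p * (star a * a) + p * (star a * a) * p := by
      rw [star_sub, star_mul, hp.1]
      noncomm_ring
    rw [this, h, hp.2]
    rw [hp.2]
    abel
  have h2 := CStarRing.star_mul_self_eq_zero_iff (a - a * p) |>.1 h1
  exact (sub_eq_zero.1 h2).symm

lemma pi_left {a p q : A} (hp : Prj p) (h : star a * a = p) (h' : a * star a = q) :
    q * a = a := by
  rw [← h', mul_assoc, h, pi_right hp h]

lemma Prj_compl {p : A} (hp : Prj p) : Prj (1 - p) := by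
  refine ⟨by rw [star_sub, star_one, hp.1], ?_⟩
  have : (1 - p) * (1 - p) = 1 - p - p + p * p := by noncomm_ring
  rw [this, hp.2]
  abel


end GDBx

open GDBx in
theorem p_GDB (hMX : S_GMX) (hRC : S_GRC) (hHX : S_HX) (hHQ : S_GHQ) (hSB : S_GSB)
    (hBC : S_GBC) (hCH : S_CH) (hTR1 : S_TR1) (hTR2 : S_TR2) (hTR3 : S_TR3) : S_GDB := by
  intro A _ τ hF hPol U hU p hp hτp hUni u v hu hv
  have hT := hF.tw
  have hE : ∀ n (u v : unitary A), Chain τ U n u v ↔ R τ n u v := fun n u v =>
    hCH A τ hT U hU n u v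
  have hp' := Prj_compl hp
  have hpp : p * (1 - p) = 0 := by rw [mul_sub, mul_one, hp.2, sub_self]
  have hpp' : (1 - p) * p = 0 := by rw [sub_mul, one_mul, hp.2, sub_self]
  have hsum1 : p + (1 - p) = 1 := by abel
  obtain ⟨s, hs1, hs2⟩ := hSB A τ hF p hp hτp
  have hsr : s * (1 - p) = s := pi_right hp' hs1
  have hps : p * s = s := by
    calc p * s = p * (s * (1 - p)) := by rw [hsr]
      _ = p * (s * star s) * s := by rw [← hs1]; noncomm_ring
      _ = s * (star s * s) := by rw [hs2]; noncomm_ring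
      _ = s := by rw [hs1, hsr]
  have he1 : star (s * star s) = s * star s := by rw [star_mul, star_star]
  have he2 : (s * star s) * (s * star s) = s * star s := by
    calc (s * star s) * (s * star s) = s * (star s * s) * star s := by noncomm_ring
      _ = s * star s := by rw [hs1, hsr]
  have hep : (s * star s) * p = s * star s := by
    have := congrArg star hs2
    rwa [star_mul, he1, hp.1] at this
  have hpe : Prj (p - s * star s) := by
    refine ⟨by rw [star_sub, he1, hp.1], ?_⟩
    have : (p - s * star s) * (p - s * star s) = p * p - p * (s * star s) - (s * star s) * p +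
      (s * star s) * (s * star s) := by noncomm_ring
    rw [this, hp.2, hs2, hep, he2]
    abel
  have hee : Prj (s * star s) := ⟨he1, he2⟩
  have ho1 : (p - s * star s) * (s * star s) = 0 := by rw [sub_mul, hs2, he2, sub_self]
  have ho2 : (s * star s) * (p - s * star s) = 0 := by rw [mul_sub, hep, he2, sub_self]
  have uni : ∀ a b : A, UC p a → UC (1 - p) b → a + b ∈ unitary A := by
    intro a b ha hb
    have h := sum_UC hp hp' hpp hpp' ha hb
    rw [hsum1] at h
    exact ⟨h.2.2.1, h.2.2.2⟩
  have bh : ∀ (b : unitary A) (x y : A), HC τ p x → HC τ (1 - p) y → (b : A) = x + y →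
      Haar τ b := by
    intro b x y hx hy hb
    have h := sum_HC hp hp' hpp hpp' hx hy
    exact Haar_of_pow hT b (fun k hk => by rw [hb]; exact h.2 k hk)
  have key : ∀ u : unitary A, Haar τ u → ∃ (m : ℕ) (b : unitary A) (x y : A),
      HC τ p x ∧ HC τ (1 - p) y ∧ (b : A) = x + y ∧ R τ m u b := by
    intro u hu
    obtain ⟨q, hq, hτq, hyq⟩ := hHQ A τ hF u p hp
    have huu : star (u : A) * u = 1 := u.2.1
    have huu' : (u : A) * star (u : A) = 1 := u.2.2
    have hyq' : star (u : A) * q = q * star (u : A) := by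
      have := congrArg star hyq
      rw [star_mul, star_mul, hq.1] at this
      exact this.symm
    obtain ⟨x, hxT, hxk⟩ := hHX A τ hF {(u : A), star (u : A), q} (by
      intro y hy
      simp only [Set.mem_insert_iff, Set.mem_singleton_iff] at hy ⊢
      rcases hy with rfl | rfl | rfl
      · exact Or.inr (Or.inl rfl)
      · exact Or.inl (star_star _)
      · exact Or.inr (Or.inr hq.1)) (by
      intro y hy z hz
      simp only [Set.mem_insert_iff, Set.mem_singleton_iff] at hy hz
      rcases hy with rfl | rfl | rfl <;> rcases hz with rfl | rfl | rfl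
      · rfl
      · rw [huu, huu']
      · exact hyq
      · rw [huu, huu']
      · rfl
      · exact hyq'
      · exact hyq.symm
      · exact hyq'.symm
      · rfl) q (by simp) hq
    have hxu : (x : A) * u = u * x := hxT _ (by simp)
    have hxq : (x : A) * q = q * x := hxT _ (by simp)
    have hxH : Haar τ x := Haar_of_pow hT x (fun k hk => (hxk k hk).1)
    have hR0 : R τ 0 u x := R_zero hT u x hxu.symm
    have hq' := Prj_compl hq
    obtain ⟨a1, h11, h12⟩ := hF.equ p q hp.1 hp.2 hq.1 hq.2 hτq.symm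
    obtain ⟨a2, h21, h22⟩ := hF.equ (1 - p) (1 - q) hp'.1 hp'.2 hq'.1 hq'.2 (by
      rw [map_sub, map_sub, hτq])
    have e1 : a1 * p = a1 := pi_right hp h11
    have e2 : q * a1 = a1 := pi_left hp h11 h12
    have e3 : a2 * p = 0 := by
      have := pi_right hp' h21
      rw [mul_sub, mul_one] at this
      exact sub_eq_self.1 this
    have e4 : q * a2 = 0 := by
      have := pi_left hp' h21 h22
      rw [sub_mul, one_mul] at this
      exact sub_eq_self.1 this
    have e5 : star a1 * a2 = 0 := by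
      have : star a1 = star a1 * q := by
        have h := congrArg star e2
        rw [star_mul, hq.1] at h
        exact h.symm
      rw [this, mul_assoc, e4, mul_zero]
    have e6 : star a2 * a1 = 0 := by
      have := congrArg star e5
      rwa [star_mul, star_star, star_zero] at this
    have e7 : a2 * star a1 = 0 := by
      have : star a1 = p * star a1 := by
        have h := congrArg star e1
        rw [star_mul, hp.1] at h
        exact h.symm
      rw [this, ← mul_assoc, e3, zero_mul]
    have e8 : a1 * star a2 = 0 := by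
      have := congrArg star e7
      rwa [star_mul, star_star, star_zero] at this
    have hgg : star (a1 + a2) * (a1 + a2) = 1 := by
      rw [star_add, add_mul, mul_add, mul_add, h11, h21, e5, e6]
      abel
    have hgg' : (a1 + a2) * star (a1 + a2) = 1 := by
      rw [star_add, add_mul, mul_add, mul_add, h12, h22, e7, e8]
      abel
    have hgp : (a1 + a2) * p = q * (a1 + a2) := by
      rw [add_mul, mul_add, e1, e2, e3, e4]
    generalize a1 + a2 = g at hgg hgg' hgp
    obtain ⟨u1, u2, d, C, S, hu1, hu2, hd, hpC, hCp, hpS, hSp, hC, hSs, hCS, hCCSS, hg⟩ :=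
      hMX A τ hF hPol p s g hp hs1 hs2 hgg hgg'
    obtain ⟨hr1, hr2, hr3⟩ := hRC A p s C S hp hs1 hs2 hpC hCp hpS hSp hC hSs hCS hCCSS
    obtain ⟨z, hzT, hzk⟩ := hHX A τ hF {1 - p, C, S} (by
      intro y hy
      simp only [Set.mem_insert_iff, Set.mem_singleton_iff] at hy ⊢
      rcases hy with rfl | rfl | rfl
      · exact Or.inl hp'.1
      · exact Or.inr (Or.inl hC)
      · exact Or.inr (Or.inr hSs)) (by
      intro y hy z hz
      simp only [Set.mem_insert_iff, Set.mem_singleton_iff] at hy hz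
      rcases hy with rfl | rfl | rfl <;> rcases hz with rfl | rfl | rfl
      · rfl
      · rw [hpC, hCp]
      · rw [hpS, hSp]
      · rw [hpC, hCp]
      · rfl
      · exact hCS
      · rw [hpS, hSp]
      · exact hCS.symm
      · rfl) (1 - p) (by simp) hp'
    have hzp : (z : A) * (1 - p) = (1 - p) * z := hzT _ (by simp)
    have hzC : (z : A) * C = C * z := hzT _ (by simp)
    have hzS : (z : A) * S = S * z := hzT _ (by simp)
    have hc : HC τ (1 - p) ((z : A) * (1 - p)) :=
      HC_cut hp' z.2.1 z.2.2 hzp (fun k hk => (hzk k hk).2)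
    have hcC : (z : A) * (1 - p) * C = C * ((z : A) * (1 - p)) := by
      rw [mul_assoc, hpC, hzC, hzp, ← mul_assoc, hCp]
    have hcS : (z : A) * (1 - p) * S = S * ((z : A) * (1 - p)) := by
      rw [mul_assoc, hpS, hzS, hzp, ← mul_assoc, hSp]
    obtain ⟨z1, hz1T, hz1k⟩ := hHX A τ hF {p - s * star s} (by
      intro y hy
      rw [Set.mem_singleton_iff] at hy ⊢
      rw [hy]; exact hpe.1) (by
      intro y hy z hz
      rw [Set.mem_singleton_iff] at hy hz
      rw [hy, hz]) (p - s * star s) (by simp) hpe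
    have hc1 : HC τ (p - s * star s) ((z1 : A) * (p - s * star s)) :=
      HC_cut hpe z1.2.1 z1.2.2 (hz1T _ (by simp)) (fun k hk => (hz1k k hk).2)
    have hrc := hr3 _ _ hc.1 hc1.1 hcC hcS
    generalize hcdef : (z : A) * (1 - p) = c at hc hrc
    generalize hc1def : (z1 : A) * (p - s * star s) = c1 at hc1 hrc
    have hF1 : HC τ p (c1 + s * c * star s) := by
      have h := sum_HC hpe hee ho1 ho2 hc1 (HC_iso hT hp' hs1 rfl hsr hc)
      rwa [sub_add_cancel] at h
    have hUCp' : UC (1 - p) (1 - p) := UC_p hp'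
    let gU : unitary A := ⟨g, hgg, hgg'⟩
    let D : unitary A := ⟨u1 + u2, uni _ _ hu1 hu2⟩
    let E : unitary A := ⟨d + (1 - p), uni _ _ hd hUCp'⟩
    let Rt : unitary A := ⟨rotG p s C S, hr1, hr2⟩
    let cc : unitary A := ⟨(c1 + s * c * star s) + c, uni _ _ hF1.1 hc.1⟩
    have hgU : gU = D * Rt * E := Subtype.ext hg
    let x' : unitary A := star gU * x * gU
    have hx'A : (x' : A) = star g * (x : A) * g := rfl
    have hx'x : star (x' : A) * x' = 1 := x'.2.1
    have hxx' : (x' : A) * star (x' : A) = 1 := x'.2.2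
    have hgp' : p * star g = star g * q := by
      have := congrArg star hgp
      rwa [star_mul, star_mul, hp.1, hq.1] at this
    have hx'p : (x' : A) * p = p * x' := by
      rw [hx'A]
      calc star g * (x : A) * g * p = star g * (x : A) * (g * p) := by noncomm_ring
        _ = star g * ((x : A) * q) * g := by rw [hgp]; noncomm_ring
        _ = (star g * q) * (x : A) * g := by rw [hxq]; noncomm_ring
        _ = p * (star g * (x : A) * g) := by rw [← hgp']; noncomm_ring
    have hx'pow : ∀ k : ℕ, (x' : A) ^ k = star g * (x : A) ^ k * g := by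
      intro k
      induction k with
      | zero => rw [pow_zero, pow_zero, mul_one, hgg]
      | succ k ih =>
        rw [pow_succ, ih, hx'A]
        calc star g * (x : A) ^ k * g * (star g * (x : A) * g) =
            star g * (x : A) ^ k * (g * star g) * (x : A) * g := by noncomm_ring
          _ = star g * (x : A) ^ (k + 1) * g := by
            rw [hgg', mul_one, pow_succ]
            noncomm_ring
    have htr1 : ∀ k : ℕ, 1 ≤ k → τ ((x' : A) ^ k) = 0 := by
      intro k hk
      rw [hx'pow, mul_assoc, hT.comm, mul_assoc, hgg', mul_one]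
      exact (hxk k hk).1
    have htr2 : ∀ k : ℕ, 1 ≤ k → τ ((x' : A) ^ k * p) = 0 := by
      intro k hk
      rw [hx'pow]
      have h1 : star g * (x : A) ^ k * g * p = star g * ((x : A) ^ k * q * g) := by
        rw [mul_assoc _ g p, hgp]
        noncomm_ring
      rw [h1, hT.comm]
      have h2 : (x : A) ^ k * q * g * star g = (x : A) ^ k * q := by
        rw [mul_assoc, hgg', mul_one]
      rw [h2]
      exact (hxk k hk).2
    have hHCa : HC τ p ((x' : A) * p) := HC_cut hp x'.2.1 x'.2.2 hx'p htr2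
    have hHCb : HC τ (1 - p) ((x' : A) * (1 - p)) := by
      refine HC_cut hp' x'.2.1 x'.2.2 ?_ (fun k hk => ?_)
      · rw [mul_sub, sub_mul, mul_one, one_mul, hx'p]
      · rw [mul_sub, mul_one, map_sub, htr1 k hk, htr2 k hk, sub_zero]
    have hx'dg : (x' : A) = (x' : A) * p + (x' : A) * (1 - p) := by
      rw [← mul_add, hsum1, mul_one]
    have conj2 : ∀ a b a' b' : A, UC p a → UC (1 - p) b → UC p a' → UC (1 - p) b' →
        (a + b) * (a' + b') * star (a + b) = a * a' * star a + b * b' * star b := by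
      intro a b a' b' ha hb ha' hb'
      have hsa := UCs ha hp
      have hsb := UCs hb hp'
      have h1 : a * a' * p = a * a' := by rw [mul_assoc, ha'.2.1]
      have h2 : b * b' * (1 - p) = b * b' := by rw [mul_assoc, hb'.2.1]
      rw [star_add, sum_mul hpp hpp' ha.2.1 hb.2.1 ha'.1 hb'.1,
        sum_mul hpp hpp' h1 h2 hsa.1 hsb.1]
    let y0 : unitary A := E * x' * star E
    have hy0 : (y0 : A) = d * ((x' : A) * p) * star d +
        (1 - p) * ((x' : A) * (1 - p)) * star (1 - p) := by
      have h1 : (y0 : A) = (d + (1 - p)) * (x' : A) * star (d + (1 - p)) := rfl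
      rw [h1]
      conv_lhs => rw [hx'dg]
      exact conj2 _ _ _ _ hd hUCp' hHCa.1 hHCb.1
    have hHa := HC_conj hT hp hHCa hd
    have hHb := HC_conj hT hp' hHCb hUCp'
    obtain ⟨n, hn, hch⟩ := hBC A τ hF U hU p s hp hs1 hs2 hUni y0 cc _ _ _ _ hHa hHb hF1 hc
      hy0 rfl
    have hR1 := (hE n y0 cc).1 hch
    have hR2 := hTR3 A τ hT n Rt _ _ hR1
    have hRcc : Rt * cc * star Rt = cc := by
      have h1 : Rt * cc = cc * Rt := Subtype.ext hrc
      rw [h1, mul_assoc, Unitary.mul_star_self, mul_one]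
    rw [hRcc] at hR2
    have hR3 := hTR3 A τ hT n D _ _ hR2
    have hxx : D * (Rt * y0 * star Rt) * star D = x := by
      have h1 : D * (Rt * y0 * star Rt) * star D = (D * Rt * E) * x' * star (D * Rt * E) := by
        show D * (Rt * (E * x' * star E) * star Rt) * star D = _
        rw [star_mul, star_mul]
        simp only [mul_assoc]
      rw [h1, ← hgU]
      show gU * (star gU * x * gU) * star gU = x
      calc gU * (star gU * x * gU) * star gU = (gU * star gU) * x * (gU * star gU) := by
            simp only [mul_assoc]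
        _ = x := by rw [Unitary.mul_star_self, one_mul, mul_one]
    rw [hxx] at hR3
    refine ⟨0 + 1 + n, D * cc * star D, u1 * (c1 + s * c * star s) * star u1,
      u2 * c * star u2, HC_conj hT hp hF1 hu1, HC_conj hT hp' hc hu2, ?_,
      hTR2 A τ hT 0 n u x _ hxH hR0 hR3⟩
    exact conj2 _ _ _ _ hu1 hu2 hF1.1 hc.1
  obtain ⟨m, b, x, y, hx, hy, hb, hR⟩ := key u hu
  obtain ⟨m', b', x', y', hx', hy', hb', hR'⟩ := key v hv
  obtain ⟨n, hn, hch⟩ := hBC A τ hF U hU p s hp hs1 hs2 hUni b b' x y x' y' hx hy hx' hy' hb hb'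
  have h1 := hTR2 A τ hT m n u b b' (bh b x y hx hy hb) hR ((hE n b b').1 hch)
  have h2 := hTR2 A τ hT _ m' u b' v (bh b' x' y' hx' hy' hb') h1
    (hTR1 A τ hT m' v b' hR')
  exact ⟨_, by omega, (hE _ u v).2 h2⟩

end Pool.Agent.H80R3.SO
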