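import Mathlib
import Pool.Agent.H80R3.SP.Defs
import Pool.Agent.H80R3.SP.DefB
import Pool.Agent.H80R3.SP.DefG

/-!
GHQ: a projection of given trace commuting with a given unitary (adapted from BHQ by helper248).
-/

set_option autoImplicit false

open scoped ComplexOrder Topology
open Filter

noncomputable section

namespace Pool.Agent.H80R3.SO

open Pool.Agent.H467F

theorem p_GHQ : S_GHQ := by
  intro A _ τ h y p hp
  have y1 : (y : A) * star (y : A) = 1 := by
    have := y.2.2
    exact this
  have y2 : star (y : A) * (y : A) = 1 := by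
    have := y.2.1
    exact this
  have t0 : 0 ≤ τ p := by
    have := h.tw.nonneg p
    rwa [hp.1, hp.2] at this
  have t0' : 0 ≤ (τ p).re := (Complex.nonneg_iff.1 t0).1
  have ti : (τ p).im = 0 := (Complex.nonneg_iff.1 t0).2.symm
  have t1 : (τ p).re ≤ 1 := by
    have h1 := h.tw.re_nonneg (1 - p)
    have e : star (1 - p) * (1 - p) = 1 - p := by
      rw [star_sub, star_one, hp.1, mul_sub, sub_mul, sub_mul, hp.2]
      simp
    rw [e, map_sub, h.tw.one, Complex.sub_re, Complex.one_re] at h1
    linarith
  have te : τ p = (((τ p).re : ℝ) : ℂ) := Complex.ext rfl (by rw [ti]; simp)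
  obtain ⟨D, hSD, hDc, hD⟩ := h.lyap {(y : A), star (y : A)} (by
      intro x hx
      rcases hx with rfl | hx
      · exact Or.inr rfl
      · rw [Set.mem_singleton_iff] at hx
        subst hx
        rw [star_star]
        exact Or.inl rfl) (by
      intro x hx z hz
      rcases hx with rfl | hx
      · rcases hz with rfl | hz
        · rfl
        · rw [Set.mem_singleton_iff] at hz
          subst hz
          rw [y1, y2]
      · rw [Set.mem_singleton_iff] at hx
        subst hx
        rcases hz with rfl | hz
        · rw [y1, y2]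
        · rw [Set.mem_singleton_iff] at hz
          subst hz
          rfl)
  obtain ⟨p', hpD, hP, hτ⟩ := hD (Fin 2) Unit
    (fun i => ((if i = 0 then (τ p).re else 1 - (τ p).re : ℝ) : ℂ) • (1 : A))
    (fun _ => (1 : A)) (fun _ => D.smul_mem (one_mem D) _)
    (fun i => Pool.Agent.Helper278.pos_proj (star_one A) (one_mul 1) _ (by
      split_ifs
      · exact t0'
      · linarith))
    (by
      rw [Fin.sum_univ_two, ← add_smul]
      have : (((if (0 : Fin 2) = 0 then (τ p).re else 1 - (τ p).re : ℝ)) : ℂ) +
          (((if (1 : Fin 2) = 0 then (τ p).re else 1 - (τ p).re : ℝ)) : ℂ) = 1 := by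
        rw [if_pos rfl, if_neg (by decide)]
        push_cast
        ring
      rw [this, one_smul])
  refine ⟨p' 0, ⟨hP.star_eq 0, hP.idem 0⟩, ?_, ?_⟩
  · have h1 := hτ 0 ()
    simp only [mul_one] at h1
    rw [h1, map_smul, h.tw.one, smul_eq_mul, mul_one, if_pos trivial]
    exact te.symm
  · exact hDc _ (hSD _ (Or.inl rfl)) _ (hpD 0)

end Pool.Agent.H80R3.SO
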