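import Mathlib
import Pool.Agent.H80R3.SP.DefG

/-!
# GMX: decomposition of the unitaries, general corner
-/

set_option autoImplicit false

noncomputable section

namespace Pool.Agent.H80R3.SO

section galg

variable {A : Type} [CStarAlgebra A]

theorem gmx_assoc {a b c : A} (h : a * b = c) (x : A) : a * (b * x) = c * x := by
  rw [← mul_assoc, h]

theorem gmx_sr {r s : A} (hr : star r = r) (hrr : r * r = r) (hs : star s * s = r) :
    s * r = s := by
  have h : star (s * r - s) * (s * r - s) = 0 := by
    have h1 : star (s * r - s) * (s * r - s) =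
        star r * (star s * s) * r - star r * (star s * s) - (star s * s) * r + star s * s := by
      rw [star_sub, star_mul]
      noncomm_ring
    rw [h1, hs, hr, hrr, hrr]
    abel
  exact sub_eq_zero.1 ((CStarRing.star_mul_self_eq_zero_iff (s * r - s)).1 h)

theorem gmx_rs {r s : A} (hr : star r = r) (hes : r * (s * star s) = 0) : r * s = 0 := by
  have h : (r * s) * star (r * s) = 0 := by
    rw [star_mul, hr]
    have h1 : r * s * (star s * r) = r * (s * star s) * r := by noncomm_ring
    rw [h1, hes, zero_mul]
  exact (CStarRing.mul_star_self_eq_zero_iff (r * s)).1 h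

/-- algebra -/
theorem gmx_alg (p r s g y u2 C S : A) (hp : star p = p) (hpp : p * p = p) (hrd : r = 1 - p)
    (hs : star s * s = r) (hps : p * (s * star s) = s * star s) (hg : star g * g = 1)
    (hg' : g * star g = 1)
    (hy : p * y = y ∧ y * p = y ∧ star y * y = p ∧ y * star y = p)
    (hu2 : r * u2 = u2 ∧ u2 * r = u2 ∧ star u2 * u2 = r ∧ u2 * star u2 = r)
    (rC : r * C = C) (Cr : C * r = C) (rS : r * S = S) (Sr : S * r = S) (sC : star C = C)
    (sS : star S = S) (hCS : C * S = S * C) (h1 : C * C + S * S = r)
    (ha : y * (s * C) = p * g * r) (hb : u2 * S = r * g * r) :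
    ∃ d : A, (p * d = d ∧ d * p = d ∧ star d * d = p ∧ d * star d = p) ∧
      g = (y + u2) * rotG p s C S * (d + r) := by
  have pr : p * r = 0 := by rw [hrd, mul_sub, mul_one, hpp, sub_self]
  have rp : r * p = 0 := by rw [hrd, sub_mul, one_mul, hpp, sub_self]
  have rr : r * r = r := by rw [hrd, mul_sub, mul_one, sub_mul, one_mul, hpp]; abel
  have sr' : star r = r := by rw [hrd, star_sub, star_one, hp]
  have pr1 : p + r = 1 := by rw [hrd]; abel
  have sr : s * r = s := gmx_sr sr' rr hs
  have rs : r * s = 0 := gmx_rs sr' (by rw [hrd, sub_mul, one_mul, hps, sub_self])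
  have ps : p * s = s := by
    have : p * s + r * s = s := by rw [← add_mul, pr1, one_mul]
    rwa [rs, add_zero] at this
  have rss : r * star s = star s := by
    have := congrArg star sr
    rwa [star_mul, sr'] at this
  have ssr : star s * r = 0 := by
    have := congrArg star rs
    rwa [star_mul, sr', star_zero] at this
  have ssp : star s * p = star s := by
    have := congrArg star ps
    rwa [star_mul, hp] at this
  have pC : p * C = 0 := by rw [← rC, ← mul_assoc, pr, zero_mul]
  have pS : p * S = 0 := by rw [← rS, ← mul_assoc, pr, zero_mul]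
  have Cp : C * p = 0 := by rw [← Cr, mul_assoc, rp, mul_zero]
  have Sp : S * p = 0 := by rw [← Sr, mul_assoc, rp, mul_zero]
  have Cs : C * s = 0 := by rw [← Cr, mul_assoc, rs, mul_zero]
  have Ss : S * s = 0 := by rw [← Sr, mul_assoc, rs, mul_zero]
  have ssC : star s * C = 0 := by rw [← rC, ← mul_assoc, ssr, zero_mul]
  have ssS : star s * S = 0 := by rw [← rS, ← mul_assoc, ssr, zero_mul]
  obtain ⟨py, yp, syy, yys⟩ := hy
  obtain ⟨ru2, u2r, su2, u2s⟩ := hu2
  have psy : p * star y = star y := by
    have := congrArg star yp
    rwa [star_mul, hp] at this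
  have syp : star y * p = star y := by
    have := congrArg star py
    rwa [star_mul, hp] at this
  have rsu : r * star u2 = star u2 := by
    have := congrArg star u2r
    rwa [star_mul, sr'] at this
  have sur : star u2 * r = star u2 := by
    have := congrArg star ru2
    rwa [star_mul, sr'] at this
  have syu : star y * u2 = 0 := by rw [← syp, ← ru2, mul_assoc, ← mul_assoc p, pr, zero_mul, mul_zero]
  have suy : star u2 * y = 0 := by rw [← sur, ← py, mul_assoc, ← mul_assoc r, rp, zero_mul, mul_zero]
  have ysu : y * star u2 = 0 := by rw [← yp, ← rsu, mul_assoc, ← mul_assoc p, pr, zero_mul, mul_zero]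
  have usy : u2 * star y = 0 := by rw [← u2r, ← psy, mul_assoc, ← mul_assoc r, rp, zero_mul, mul_zero]
  have yS : y * S = 0 := by rw [← yp, mul_assoc, pS, mul_zero]
  have u2s' : u2 * s = 0 := by rw [← u2r, mul_assoc, rs, mul_zero]
  set W := y + u2 with hW
  set R := rotG p s C S with hR
  have sR : star R = (p - s * star s) + s * (S * star s) + C * star s + S - s * C := by
    rw [hR, rotG]
    simp only [star_add, star_sub, star_mul, star_star, sC, sS, hp]
  have R' : R = (p - s * star s) + s * (S * star s) + s * C + S - C * star s := by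
    rw [hR, rotG]
    simp only [mul_assoc]
  have WW : star W * W = 1 := by
    rw [hW, star_add]
    simp only [mul_add, add_mul, syy, su2, syu, suy, add_zero, zero_add, pr1]
  have WW' : W * star W = 1 := by
    rw [hW, star_add]
    simp only [mul_add, add_mul, yys, u2s, ysu, usy, add_zero, zero_add, pr1]
  have RR : star R * R = 1 := by
    have e : star R * R = (p - s * star s) + s * ((S * S + C * C) * star s) + (C * C + S * S) +
        s * (S * C - C * S) + (C * S - S * C) * star s := by
      rw [sR, R']
      simp only [mul_add, add_mul, mul_sub, sub_mul, mul_assoc, hpp, pC, pS, Cp, Sp, Cs, Ss, ssC,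
        ssS, ps, ssp, hs, rss, rC, rS, gmx_assoc pC, gmx_assoc pS, gmx_assoc Cs, gmx_assoc Ss,
        gmx_assoc ssC, gmx_assoc ssS, gmx_assoc ps, gmx_assoc hs, gmx_assoc rC, gmx_assoc rS,
        mul_zero, zero_mul, add_zero, zero_add, sub_zero, zero_sub, neg_zero]
      abel
    rw [e, hCS, sub_self, zero_mul, mul_zero, add_zero, add_zero, add_comm (S * S), h1, rss]
    rw [sub_add_cancel, pr1]
  have RR' : R * star R = 1 := by
    have e : R * star R = (p - s * star s) + s * ((S * S + C * C) * star s) + (C * C + S * S) +
        s * (C * S - S * C) + (S * C - C * S) * star s := by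
      rw [sR, R']
      simp only [mul_add, add_mul, mul_sub, sub_mul, mul_assoc, hpp, pC, pS, Cp, Sp, Cs, Ss, ssC,
        ssS, ps, ssp, hs, rss, rC, rS, gmx_assoc pC, gmx_assoc pS, gmx_assoc Cs, gmx_assoc Ss,
        gmx_assoc ssC, gmx_assoc ssS, gmx_assoc ps, gmx_assoc hs, gmx_assoc rC, gmx_assoc rS,
        mul_zero, zero_mul, add_zero, zero_add, sub_zero, zero_sub, neg_zero]
      abel
    rw [e, hCS, sub_self, zero_mul, mul_zero, add_zero, add_zero, add_comm (S * S), h1, rss]
    rw [sub_add_cancel, pr1]
  have WRr : W * (R * r) = g * r := by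
    have e1 : R * r = s * C + S := by
      rw [R']
      simp only [add_mul, sub_mul, mul_assoc, pr, ssr, Cr, Sr, mul_zero, sub_zero, zero_add]
    have e2 : W * (s * C + S) = y * (s * C) + u2 * S := by
      rw [hW]
      simp only [mul_add, add_mul, gmx_assoc u2s', yS, zero_mul, add_zero, zero_add]
    rw [e1, e2, ha, hb, ← add_mul, ← add_mul, pr1, one_mul]
  set k := star R * (star W * g) with hk
  have kr : k * r = r := by
    have e : k * r = star R * (star W * (g * r)) := by rw [hk]; noncomm_ring
    rw [e, ← WRr, gmx_assoc WW, one_mul, gmx_assoc RR, one_mul]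
  have kk : star k * k = 1 := by
    have e : star k * k = star g * (W * (R * (star R * (star W * g)))) := by
      rw [hk]
      simp only [star_mul, star_star, mul_assoc]
    rw [e, gmx_assoc RR', one_mul, gmx_assoc WW', one_mul, hg]
  have kk' : k * star k = 1 := by
    have e : k * star k = star R * (star W * (g * (star g * (W * R)))) := by
      rw [hk]
      simp only [star_mul, star_star, mul_assoc]
    rw [e, gmx_assoc hg', one_mul, gmx_assoc WW, one_mul, RR]
  have skr : star k * r = r := by
    calc star k * r = star k * (k * r) := by rw [kr]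
      _ = r := by rw [gmx_assoc kk, one_mul]
  have rk : r * k = r := by
    have := congrArg star skr
    rwa [star_mul, star_star, sr'] at this
  have rsk : r * star k = r := by
    have := congrArg star kr
    rwa [star_mul, sr'] at this
  have hpd : p = 1 - r := by rw [hrd]; abel
  refine ⟨p * (k * p), ⟨?_, ?_, ?_, ?_⟩, ?_⟩
  · rw [gmx_assoc hpp]
  · simp only [mul_assoc, hpp]
  · have e : star (p * (k * p)) * (p * (k * p)) = p * (star k * (p * (k * p))) := by
      simp only [star_mul, hp, mul_assoc, gmx_assoc hpp]
    have e2 : p * (k * p) = k * p := by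
      nth_rewrite 1 [hpd]
      rw [sub_mul, one_mul, gmx_assoc rk, rp, sub_zero]
    rw [e, e2, gmx_assoc kk, one_mul, hpp]
  · have e : (p * (k * p)) * star (p * (k * p)) = p * (k * (p * (star k * p))) := by
      simp only [star_mul, hp, mul_assoc, gmx_assoc hpp]
    have e2 : p * (star k * p) = star k * p := by
      nth_rewrite 1 [hpd]
      rw [sub_mul, one_mul, gmx_assoc rsk, rp, sub_zero]
    rw [e, e2, gmx_assoc kk', one_mul, hpp]
  · have e : p * (k * p) + r = k := by
      have e2 : p * (k * p) = k * p := by
        nth_rewrite 1 [hpd]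
        rw [sub_mul, one_mul, gmx_assoc rk, rp, sub_zero]
      have e3 : k * p + k * r = k := by rw [← mul_add, pr1, mul_one]
      rw [kr] at e3
      rw [e2, e3]
    rw [e, hk, mul_assoc, gmx_assoc RR', one_mul, gmx_assoc WW', one_mul]

end galg

theorem p_GMX (hP : S_POLU) : S_GMX := by
  intro A _ τ hF hPol p s g hp hs hps hg hg'
  obtain ⟨hpst, hpp⟩ := hp
  obtain ⟨r, hrd⟩ : ∃ r : A, r = 1 - p := ⟨_, rfl⟩
  rw [← hrd] at hs ⊢
  have pr : p * r = 0 := by rw [hrd, mul_sub, mul_one, hpp, sub_self]
  have rr : r * r = r := by rw [hrd, mul_sub, mul_one, sub_mul, one_mul, hpp]; abel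
  have sr' : star r = r := by rw [hrd, star_sub, star_one, hpst]
  have pr1 : p + r = 1 := by rw [hrd]; abel
  have sr : s * r = s := gmx_sr sr' rr hs
  have rs : r * s = 0 := gmx_rs sr' (by rw [hrd, sub_mul, one_mul, hps, sub_self])
  have ps : p * s = s := by
    have : p * s + r * s = s := by rw [← add_mul, pr1, one_mul]
    rwa [rs, add_zero] at this
  have rss : r * star s = star s := by
    have := congrArg star sr
    rwa [star_mul, sr'] at this
  have ssp : star s * p = star s := by
    have := congrArg star ps
    rwa [star_mul, hpst] at this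
  -- the first polar decomposition
  obtain ⟨y, D, hy, pD, Dp, sD, DD, hya, _⟩ :=
    hP A τ hF hPol p (p * g * star s) ⟨hpst, hpp⟩
      (by simp only [mul_assoc, gmx_assoc hpp]) (by simp only [mul_assoc, ssp])
  obtain ⟨u2, S, hu2, rS, Sr, sS, SS, hb, comS⟩ :=
    hP A τ hF hPol r (r * g * r) ⟨sr', rr⟩
      (by simp only [mul_assoc, gmx_assoc rr]) (by simp only [mul_assoc, rr])
  -- `D` lives under `s s*`
  have see : star s * (s * star s) = star s := by rw [gmx_assoc hs, rss]
  have hDe : D * (s * star s) = D := by
    have h : star (D * (s * star s) - D) * (D * (s * star s) - D) = 0 := by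
      have h1 : star (D * (s * star s) - D) * (D * (s * star s) - D) =
          (s * star s) * (D * D) * (s * star s) - (s * star s) * (D * D) -
            (D * D) * (s * star s) + D * D := by
        rw [star_sub, star_mul, star_mul, star_star, sD]
        noncomm_ring
      have h2 : (D * D) * (s * star s) = D * D := by
        rw [DD]
        simp only [mul_assoc, see]
      have h3 : (s * star s) * (D * D) = D * D := by
        have := congrArg star h2
        simpa only [star_mul, star_star, sD] using this
      rw [h1, h3, h2]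
      abel
    exact sub_eq_zero.1 ((CStarRing.star_mul_self_eq_zero_iff (D * (s * star s) - D)).1 h)
  have heD : (s * star s) * D = D := by
    have := congrArg star hDe
    simpa only [star_mul, star_star, sD] using this
  set C := star s * (D * s) with hC
  have rC : r * C = C := by rw [hC, gmx_assoc rss]
  have Cr : C * r = C := by rw [hC]; simp only [mul_assoc, sr]
  have sC : star C = C := by
    rw [hC]
    simp only [star_mul, star_star, sD, mul_assoc]
  have CC : C * C = r * (star g * (p * (g * r))) := by
    have e1 : C * C = star s * ((D * (s * star s)) * (D * s)) := by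
      rw [hC]
      simp only [mul_assoc]
    have e2 : star s * (D * (D * s)) = star s * ((D * D) * s) := by simp only [mul_assoc]
    rw [e1, hDe, e2, DD]
    simp only [star_mul, star_star, hpst, mul_assoc, gmx_assoc hpp, hs, gmx_assoc hs]
  have h1 : C * C + S * S = r := by
    rw [CC, SS]
    have e : r * (star g * (p * (g * r))) + star (r * g * r) * (r * g * r) =
        r * (star g * ((p + r) * (g * r))) := by
      simp only [star_mul, sr', mul_assoc, gmx_assoc rr, add_mul, mul_add]
    rw [e, pr1, one_mul, gmx_assoc hg, one_mul, rr]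
  have hCS : C * S = S * C := by
    apply comS
    have e3 : C * (C * C) = C * C * C := (mul_assoc C C C).symm
    rw [← SS, eq_sub_of_add_eq' h1, mul_sub, sub_mul, rC, Cr, e3]
  have ha : y * (s * C) = p * g * r := by
    have e1 : y * (s * C) = y * ((s * star s) * D) * s := by
      rw [hC]
      simp only [mul_assoc]
    rw [e1, heD, hya]
    simp only [mul_assoc, hs]
  obtain ⟨d, hd, hgd⟩ := gmx_alg p r s g y u2 C S hpst hpp hrd hs hps hg hg' hy hu2 rC Cr rS Sr sC
    sS hCS h1 ha hb
  exact ⟨y, u2, d, C, S, hy, hu2, hd, rC, Cr, rS, Sr, sC, sS, hCS, h1, hgd⟩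

end Pool.Agent.H80R3.SO
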