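import Mathlib
import Pool.Agent.H80R3.SP.DefG

/-!
Amplifications: the rotation is unitary and commutes with diagonal elements.
-/

set_option autoImplicit false
set_option linter.unusedSimpArgs false

open scoped ComplexOrder Topology
open Filter

noncomputable section

namespace Pool.Agent.H80R3.SO

open Pool.Agent.H467F

theorem GRC_as {A : Type} [CStarAlgebra A] {a b c : A} (h : a * b = c) (x : A) :
    a * (b * x) = c * x := by
  rw [← mul_assoc, h]

theorem p_GRC : S_GRC := by
  intro A _ p s C S hp hss hpe hC1 hC2 hS1 hS2 hCs hSs hCS hsum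
  obtain ⟨hps, hpp⟩ := hp
  obtain ⟨t, ht⟩ : ∃ t, t = star s := ⟨_, rfl⟩
  have hts : t * s = 1 - p := by rw [ht]; exact hss
  have hsp : s * p = 0 := by
    have h1 : star (s * p) * (s * p) = 0 := by
      rw [star_mul, hps]
      calc p * star s * (s * p) = p * (star s * s) * p := by simp only [mul_assoc]
        _ = 0 := by rw [hss, mul_sub, mul_one, hpp, sub_self, zero_mul]
    exact (CStarRing.star_mul_self_eq_zero_iff _).1 h1
  have hes : s * (t * s) = s := by rw [hts, mul_sub, mul_one, hsp, sub_zero]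
  have hps' : p * s = s := by
    calc p * s = p * (s * (t * s)) := by rw [hes]
      _ = p * (s * star s) * s := by rw [ht]; simp only [mul_assoc]
      _ = s * (t * s) := by rw [hpe, ht]; simp only [mul_assoc]
      _ = s := hes
  have hs0 : s * s = 0 := by
    calc s * s = s * (p * s) := by rw [hps']
      _ = 0 := by rw [← mul_assoc, hsp, zero_mul]
  have hpt : p * t = 0 := by
    have := congrArg star hsp
    rw [star_mul, hps, star_zero] at this
    rw [ht]; exact this
  have htp : t * p = t := by
    have := congrArg star hps'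
    rw [star_mul, hps] at this
    rw [ht]; exact this
  have htt : t * t = 0 := by
    calc t * t = t * p * t := by rw [htp]
      _ = 0 := by rw [mul_assoc, hpt, mul_zero]
  have hpC : p * C = 0 := by
    rw [sub_mul, one_mul, sub_eq_self] at hC1
    exact hC1
  have hCp : C * p = 0 := by
    rw [mul_sub, mul_one, sub_eq_self] at hC2
    exact hC2
  have hpS : p * S = 0 := by
    rw [sub_mul, one_mul, sub_eq_self] at hS1
    exact hS1
  have hSp : S * p = 0 := by
    rw [mul_sub, mul_one, sub_eq_self] at hS2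
    exact hS2
  have hCs' : C * s = 0 := by
    calc C * s = C * (p * s) := by rw [hps']
      _ = 0 := by rw [← mul_assoc, hCp, zero_mul]
  have hSs' : S * s = 0 := by
    calc S * s = S * (p * s) := by rw [hps']
      _ = 0 := by rw [← mul_assoc, hSp, zero_mul]
  have htC : t * C = 0 := by
    calc t * C = t * p * C := by rw [htp]
      _ = 0 := by rw [mul_assoc, hpC, mul_zero]
  have htS : t * S = 0 := by
    calc t * S = t * p * S := by rw [htp]
      _ = 0 := by rw [mul_assoc, hpS, mul_zero]
  have hSS : S * S = 1 - p - C * C := by rw [← hsum]; abel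
  have hSC : S * C = C * S := hCS.symm
  have hV : rotG p s C S = (p - s * t) + s * (S * t) + s * C + S - C * t := by
    unfold rotG
    rw [ht]
    simp only [mul_assoc]
  have hVs : star (rotG p s C S) = (p - s * t) + s * (S * t) + C * t + S - s * C := by
    unfold rotG
    rw [ht]
    simp only [star_add, star_sub, star_mul, star_star, hCs, hSs, hps, mul_assoc]
  refine ⟨?_, ?_, ?_⟩
  · rw [hVs, hV]
    simp only [add_mul, mul_add, sub_mul, mul_sub, mul_assoc, hpp, hsp, hps', hs0, hpt, htp, htt,
      hpC, hCp, hpS, hSp, hCs', hSs', htC, htS, hSS, hSC, hts, GRC_as hpp, GRC_as hsp, GRC_as hps',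
      GRC_as hs0, GRC_as hpt, GRC_as htp, GRC_as htt, GRC_as hpC, GRC_as hCp, GRC_as hpS,
      GRC_as hSp, GRC_as hCs', GRC_as hSs', GRC_as htC, GRC_as htS, GRC_as hSS, GRC_as hSC,
      GRC_as hts, mul_zero, zero_mul, one_mul, mul_one]
    abel
  · rw [hVs, hV]
    simp only [add_mul, mul_add, sub_mul, mul_sub, mul_assoc, hpp, hsp, hps', hs0, hpt, htp, htt,
      hpC, hCp, hpS, hSp, hCs', hSs', htC, htS, hSS, hSC, hts, GRC_as hpp, GRC_as hsp, GRC_as hps',
      GRC_as hs0, GRC_as hpt, GRC_as htp, GRC_as htt, GRC_as hpC, GRC_as hCp, GRC_as hpS,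
      GRC_as hSp, GRC_as hCs', GRC_as hSs', GRC_as htC, GRC_as htS, GRC_as hSS, GRC_as hSC,
      GRC_as hts, mul_zero, zero_mul, one_mul, mul_one]
    abel
  · intro c c1 hc hc1 hcC hcS
    obtain ⟨c_a, c_b, -, -⟩ := hc
    obtain ⟨d_a, d_b, -, -⟩ := hc1
    have hpc : p * c = 0 := by
      rw [sub_mul, one_mul, sub_eq_self] at c_a
      exact c_a
    have hcp : c * p = 0 := by
      rw [mul_sub, mul_one, sub_eq_self] at c_b
      exact c_b
    have hpc1 : p * c1 = c1 := by
      calc p * c1 = p * ((p - s * star s) * c1) := by rw [d_a]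
        _ = (p * p - p * (s * star s)) * c1 := by rw [← mul_assoc, mul_sub]
        _ = c1 := by rw [hpp, hpe, d_a]
    have hep : s * star s * p = s * star s := by rw [mul_assoc, ← ht, htp]
    have hc1p : c1 * p = c1 := by
      calc c1 * p = c1 * (p - s * star s) * p := by rw [d_b]
        _ = c1 * (p * p - s * star s * p) := by rw [mul_assoc, sub_mul]
        _ = c1 := by rw [hpp, hep, d_b]
    have hsc1 : s * c1 = 0 := by
      calc s * c1 = s * (p * c1) := by rw [hpc1]
        _ = 0 := by rw [← mul_assoc, hsp, zero_mul]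
    have h7 : (1 - p) * t = t := by rw [sub_mul, one_mul, hpt, sub_zero]
    have htc1 : t * c1 = 0 := by
      calc t * c1 = t * ((p - s * star s) * c1) := by rw [d_a]
        _ = (t * p - t * s * t) * c1 := by rw [← ht]; simp only [mul_sub, sub_mul, mul_assoc]
        _ = 0 := by rw [htp, hts, h7, sub_self, zero_mul]
    have hc1s : c1 * s = 0 := by
      calc c1 * s = c1 * (p - s * star s) * s := by rw [d_b]
        _ = c1 * (p * s - s * (t * s)) := by rw [← ht]; simp only [mul_sub, sub_mul, mul_assoc]
        _ = 0 := by rw [hps', hes, sub_self, mul_zero]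
    have hc1t : c1 * t = 0 := by
      calc c1 * t = c1 * p * t := by rw [hc1p]
        _ = 0 := by rw [mul_assoc, hpt, mul_zero]
    have hc1C : c1 * C = 0 := by
      calc c1 * C = c1 * p * C := by rw [hc1p]
        _ = 0 := by rw [mul_assoc, hpC, mul_zero]
    have hc1S : c1 * S = 0 := by
      calc c1 * S = c1 * p * S := by rw [hc1p]
        _ = 0 := by rw [mul_assoc, hpS, mul_zero]
    have hCc1 : C * c1 = 0 := by
      calc C * c1 = C * (p * c1) := by rw [hpc1]
        _ = 0 := by rw [← mul_assoc, hCp, zero_mul]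
    have hSc1 : S * c1 = 0 := by
      calc S * c1 = S * (p * c1) := by rw [hpc1]
        _ = 0 := by rw [← mul_assoc, hSp, zero_mul]
    have htc : t * c = 0 := by
      calc t * c = t * p * c := by rw [htp]
        _ = 0 := by rw [mul_assoc, hpc, mul_zero]
    have hcs : c * s = 0 := by
      calc c * s = c * (p * s) := by rw [hps']
        _ = 0 := by rw [← mul_assoc, hcp, zero_mul]
    rw [hV, ← ht]
    simp only [add_mul, mul_add, sub_mul, mul_sub, mul_assoc, hpp, hsp, hps', hs0, hpt, htp, htt,
      hpC, hCp, hpS, hSp, hCs', hSs', htC, htS, hts, GRC_as hpp, GRC_as hsp, GRC_as hps',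
      GRC_as hs0, GRC_as hpt, GRC_as htp, GRC_as htt, GRC_as hpC, GRC_as hCp, GRC_as hpS,
      GRC_as hSp, GRC_as hCs', GRC_as hSs', GRC_as htC, GRC_as htS,
      GRC_as hts, hpc, hcp, hpc1, hc1p, hsc1, htc1, hc1s, hc1t, hc1C, hc1S, hCc1, hSc1, htc, hcs,
      hcC, hcS, GRC_as hpc, GRC_as hcp, GRC_as hpc1, GRC_as hc1p, GRC_as hsc1, GRC_as htc1,
      GRC_as hc1s, GRC_as hc1t, GRC_as hc1C, GRC_as hc1S, GRC_as hCc1, GRC_as hSc1, GRC_as htc,
      GRC_as hcs, GRC_as hcC, GRC_as hcS, mul_zero, zero_mul, one_mul, mul_one]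
    abel

end Pool.Agent.H80R3.SO
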