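import Mathlib
import Pool.Agent.H80R3.SP.Defs
import Pool.Agent.H80R3.SP.DefB
import Pool.Agent.H80R3.SP.DefG

/-!
GSB: a projection of trace at least 1/2 dominates a copy of its complement (helper144).
-/

set_option autoImplicit false

open scoped ComplexOrder Topology
open Filter

noncomputable section

namespace Pool.Agent.H80R3.SO

open Pool.Agent.H467F

theorem p_GSB : S_GSB := by
  intro A _ τ h p hp ha
  obtain ⟨hp1, hp2⟩ := hp
  obtain ⟨a, haa⟩ : ∃ a : ℝ, a = (τ p).re := ⟨_, rfl⟩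
  have hτp : τ p = ((a : ℝ) : ℂ) := by
    have h1 := h.tw.im_zero p
    rw [hp1, hp2] at h1
    apply Complex.ext
    · rw [haa]; simp
    · rw [h1]; simp
  rw [← haa] at ha
  have hq1 : star (1 - p) = 1 - p := by rw [star_sub, star_one, hp1]
  have hq2 : (1 - p) * (1 - p) = 1 - p := by
    rw [sub_mul, one_mul, mul_sub, mul_one, hp2, sub_self, sub_zero]
  have hpq : p * (1 - p) = 0 := by rw [mul_sub, mul_one, hp2, sub_self]
  have hτq : τ (1 - p) = ((1 - a : ℝ) : ℂ) := by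
    rw [map_sub, h.tw.one, hτp]; push_cast; ring
  have ha1 : a ≤ 1 := by
    have h1 := h.tw.re_nonneg (1 - p)
    rw [hq1, hq2, hτq, Complex.ofReal_re] at h1
    linarith
  have hapos : 0 < a := by linarith
  obtain ⟨l, hl⟩ : ∃ l : ℝ, l = (1 - a) / a := ⟨_, rfl⟩
  have hl0 : 0 ≤ l := by rw [hl]; exact div_nonneg (by linarith) hapos.le
  have hl1 : l ≤ 1 := by rw [hl, div_le_one hapos]; linarith
  have hla : l * a = 1 - a := by rw [hl]; field_simp
  obtain ⟨D, hSD, hDc, hD⟩ := h.lyap {p} (by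
      intro x hx
      rw [Set.mem_singleton_iff] at hx ⊢
      rw [hx, hp1]) (by
      intro x hx z hz
      rw [Set.mem_singleton_iff] at hx hz
      rw [hx, hz])
  have hpD : p ∈ D := hSD p rfl
  obtain ⟨e, heD, hP, hτ⟩ := hD (Fin 2) (Fin 2)
    ![((l : ℝ) : ℂ) • p, (((1 - l : ℝ)) : ℂ) • p + ((1 : ℝ) : ℂ) • (1 - p)]
    ![1, 1 - p] (by
      intro i
      fin_cases i
      · exact D.smul_mem hpD _
      · exact add_mem (D.smul_mem hpD _) (D.smul_mem (sub_mem (one_mem D) hpD) _)) (by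
      intro i
      fin_cases i
      · exact Pool.Agent.Helper278.pos_proj hp1 hp2 l hl0
      · exact Pool.Agent.Helper278.pos_add
          (Pool.Agent.Helper278.pos_proj hp1 hp2 (1 - l) (by linarith))
          (Pool.Agent.Helper278.pos_proj hq1 hq2 1 (by norm_num))) (by
      rw [Fin.sum_univ_two]
      show ((l : ℝ) : ℂ) • p + ((((1 - l : ℝ)) : ℂ) • p + ((1 : ℝ) : ℂ) • (1 - p)) = 1
      rw [← add_assoc, ← add_smul]
      have e1 : ((l : ℝ) : ℂ) + (((1 - l : ℝ)) : ℂ) = 1 := by push_cast; ring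
      rw [e1, Complex.ofReal_one, one_smul, one_smul, add_sub_cancel])
  have h00 : τ (e 0 * 1) = τ (((l : ℝ) : ℂ) • p * 1) := hτ 0 0
  have h01 : τ (e 0 * (1 - p)) = τ (((l : ℝ) : ℂ) • p * (1 - p)) := hτ 0 1
  have hτe : τ (e 0) = τ (1 - p) := by
    rw [mul_one, mul_one, map_smul, hτp, smul_eq_mul, ← Complex.ofReal_mul, hla] at h00
    rw [h00, hτq]
  rw [smul_mul_assoc, hpq, smul_zero, map_zero] at h01
  have hcomm : e 0 * p = p * e 0 := hDc _ (heD 0) _ hpD
  have hz : e 0 * (1 - p) = 0 := by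
    apply h.tw.faithful
    have e1 : star (e 0 * (1 - p)) * (e 0 * (1 - p)) = (1 - p) * (e 0 * (1 - p)) := by
      rw [star_mul, hq1, hP.star_eq 0, mul_assoc, ← mul_assoc (e 0), hP.idem 0]
    rw [e1, h.tw.comm, mul_assoc, hq2]
    exact h01
  obtain ⟨s, hs1, hs2⟩ := h.equ (1 - p) (e 0) hq1 hq2 (hP.star_eq 0) (hP.idem 0) hτe.symm
  refine ⟨s, hs1, ?_⟩
  rw [hs2, ← hcomm]
  rw [mul_sub, mul_one, sub_eq_zero] at hz
  exact hz.symm

end Pool.Agent.H80R3.SO
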