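import Mathlib
import Pool.Agent.H80R3.SP.Defs
import Pool.Agent.Helper467.FP.P_tw_elt
import Pool.Agent.Helper278.GroupMain

/-!
II_1 factors of operators have the properties used.
-/

set_option autoImplicit false

open scoped ComplexOrder Topology InnerProductSpace
open Filter

noncomputable section

namespace Pool.Agent.H80R3.SO

open Pool.Agent.H467F

theorem p_IN (H : Type) [NormedAddCommGroup H] [InnerProductSpace ℂ H] [CompleteSpace H]
    (N : VonNeumannAlgebra H) (t : Pool.Agent.Helper278.Elt N →ₗ[ℂ] ℂ)
    (hN : Pool.Agent.Helper278.IsIIOneFactor N (t : Pool.Agent.Helper278.Elt N → ℂ)) :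
    Fac t := by
  have htw : TW t := tw_elt N t hN.normal ⟨hN.trace.one, hN.trace.tracial, hN.trace.faithful⟩
  have hst : (Pool.Agent.Helper278.mkState N t hN.normal hN.trace).τ = t := by
    ext x
    rfl
  refine ⟨htw, ?_, ?_⟩
  · have h := Pool.Agent.Helper278.lyapProp (Pool.Agent.Helper278.mkState N t hN.normal hN.trace)
      (Pool.Agent.Helper278.diffuse_of_factor (Pool.Agent.Helper278.mkState N t hN.normal hN.trace)
        hN.center hN.infinite)
    rw [hst] at h
    exact h
  · intro p q hp hpp hq hqq hτ
    exact Pool.Agent.Helper278.exists_equiv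
      (Pool.Agent.Helper278.mkState N t hN.normal hN.trace) hN.center p q hp hpp hq hqq hτ

end Pool.Agent.H80R3.SO
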