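import Mathlib
import Pool.Agent.H80R3.SP.Defs

/-!
Sequential commutation orbits: part ST (auxiliary).
-/

set_option autoImplicit false

open scoped ComplexOrder Topology
open Filter

noncomputable section

namespace Pool.Agent.H80R3.SO

open Pool.Agent.H467F

namespace STx

variable {A : Type} [CStarAlgebra A] {J : ℕ}

theorem mul_sum' (e : Fin J → A) (he : Pool.Agent.Helper278.PVM e) (c d : Fin J → ℂ) :
    (∑ j, c j • e j) * (∑ j, d j • e j) = ∑ j, (c j * d j) • e j := by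
  rw [Finset.sum_mul]
  refine Finset.sum_congr rfl fun i _ => ?_
  rw [Finset.mul_sum, Finset.sum_eq_single i]
  · rw [smul_mul_smul_comm, he.idem]
  · intro j _ hj
    rw [smul_mul_smul_comm, he.orth i j (Ne.symm hj), smul_zero]
  · intro h
    exact absurd (Finset.mem_univ i) h

theorem star_sum' (e : Fin J → A) (he : Pool.Agent.Helper278.PVM e) (c : Fin J → ℂ) :
    star (∑ j, c j • e j) = ∑ j, (star (c j)) • e j := by
  rw [star_sum]
  refine Finset.sum_congr rfl fun i _ => ?_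
  rw [star_smul, he.star_eq]

theorem one_sum' (e : Fin J → A) (he : Pool.Agent.Helper278.PVM e) :
    ∑ j, ((1 : ℂ)) • e j = 1 := by
  simp only [one_smul]
  exact he.sum

theorem pow_sum' (e : Fin J → A) (he : Pool.Agent.Helper278.PVM e) (c : Fin J → ℂ) (n : ℕ) :
    (∑ j, c j • e j) ^ n = ∑ j, (c j ^ n) • e j := by
  induction n with
  | zero =>
    simp only [pow_zero]
    exact (one_sum' e he).symm
  | succ n ih =>
    rw [pow_succ, ih, mul_sum' e he]
    refine Finset.sum_congr rfl fun i _ => ?_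
    rw [pow_succ]

theorem star_mul_self (c : ℂ) : star c * c = ((‖c‖ ^ 2 : ℝ) : ℂ) := by
  rw [Complex.star_def, ← Complex.normSq_eq_conj_mul_self, Complex.normSq_eq_norm_sq]

/-- the unitary with finite spectrum -/
theorem unitary_sum' (e : Fin J → A) (he : Pool.Agent.Helper278.PVM e) (c : Fin J → ℂ)
    (hc : ∀ j, ‖c j‖ = 1) : (∑ j, c j • e j) ∈ unitary A := by
  rw [Unitary.mem_iff]
  constructor
  · rw [star_sum' e he, mul_sum' e he, ← one_sum' e he]
    refine Finset.sum_congr rfl fun i _ => ?_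
    rw [star_mul_self, hc]
    simp
  · rw [star_sum' e he, mul_sum' e he, ← one_sum' e he]
    refine Finset.sum_congr rfl fun i _ => ?_
    rw [mul_comm, star_mul_self, hc]
    simp

theorem n2_mul_unitary (τ : A →ₗ[ℂ] ℂ) (h : TW τ) (x : A) (u : unitary A) :
    n2 τ (x * (u : A)) = n2 τ x := by
  unfold n2
  have h1 : τ (star (x * (u : A)) * (x * (u : A))) = τ (star x * x) := by
    have h2 : star (x * (u : A)) * (x * (u : A)) = (star (u : A) * star x * x) * (u : A) := by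
      rw [star_mul]
      simp only [mul_assoc]
    rw [h2, h.comm]
    have h3 : (u : A) * (star (u : A) * star x * x) = ((u : A) * star (u : A)) * (star x * x) := by
      simp only [mul_assoc]
    have h4 : (u : A) * star (u : A) = 1 := (Unitary.mem_iff.1 u.2).2
    rw [h3, h4, one_mul]
  rw [h1]

theorem tau_nonneg (τ : A →ₗ[ℂ] ℂ) (h : TW τ) (e : Fin J → A)
    (he : Pool.Agent.Helper278.PVM e) (j : Fin J) : 0 ≤ (τ (e j)).re := by
  have h1 := h.re_nonneg (e j)
  rwa [he.star_eq, he.idem] at h1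

theorem n2_sum (τ : A →ₗ[ℂ] ℂ) (h : TW τ) (e : Fin J → A)
    (he : Pool.Agent.Helper278.PVM e) (c : Fin J → ℂ) (b : ℝ) (hb : 0 ≤ b)
    (hc : ∀ j, ‖c j‖ ≤ b) : n2 τ (∑ j, c j • e j) ≤ b := by
  have h1 : n2 τ (∑ j, c j • e j) ^ 2 ≤ b ^ 2 := by
    rw [h.n2_sq, star_sum' e he, mul_sum' e he, map_sum, Complex.re_sum]
    have h2 : ∀ j ∈ (Finset.univ : Finset (Fin J)),
        (τ ((star (c j) * c j) • e j)).re ≤ b ^ 2 * (τ (e j)).re := by
      intro j _
      rw [map_smul, star_mul_self, smul_eq_mul, Complex.re_ofReal_mul]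
      refine mul_le_mul_of_nonneg_right ?_ (tau_nonneg τ h e he j)
      exact pow_le_pow_left₀ (norm_nonneg _) (hc j) 2
    refine (Finset.sum_le_sum h2).trans ?_
    rw [← Finset.mul_sum, ← Complex.re_sum, ← map_sum, he.sum, h.one]
    simp
  exact (pow_le_pow_iff_left₀ (n2_nonneg _ _) hb two_ne_zero).1 h1

theorem norm_rt (K j : ℕ) : ‖rt K j‖ = 1 := by
  unfold rt
  exact Complex.norm_exp_ofReal_mul_I _

theorem rt_pow (J L j : ℕ) (hL : 1 ≤ L) : rt (J * L) j ^ L = rt J j := by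
  unfold rt
  rw [← Complex.exp_nat_mul]
  congr 1
  rw [← mul_assoc]
  congr 1
  have hL' : (L : ℝ) ≠ 0 := by
    have : (1 : ℝ) ≤ L := by exact_mod_cast hL
    positivity
  have : (L : ℝ) * (2 * Real.pi * j / ((J * L : ℕ) : ℝ)) = 2 * Real.pi * j / J := by
    push_cast
    by_cases hJ : (J : ℝ) = 0
    · rw [hJ]; simp
    · field_simp
  rw [← this]
  push_cast
  ring

theorem rt_sub_one (J L : ℕ) (hL : 1 ≤ L) (j : Fin J) :
    ‖rt (J * L) (j : ℕ) - 1‖ ≤ 2 * Real.pi / L := by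
  unfold rt
  have h1 : ‖Complex.exp (((2 * Real.pi * ((j : ℕ) : ℝ) / ((J * L : ℕ) : ℝ) : ℝ) : ℂ) * Complex.I) - 1‖ ≤
      ‖(2 * Real.pi * ((j : ℕ) : ℝ) / ((J * L : ℕ) : ℝ) : ℝ)‖ := by
    rw [mul_comm]
    exact Real.norm_exp_I_mul_ofReal_sub_one_le
  refine h1.trans ?_
  have hL' : (0 : ℝ) < L := by
    have : (1 : ℝ) ≤ L := by exact_mod_cast hL
    linarith
  have hj : ((j : ℕ) : ℝ) ≤ J := by
    have := j.2.le
    exact_mod_cast this
  have hJ : (0 : ℝ) < J := by
    have : 0 < J := lt_of_le_of_lt (Nat.zero_le _) j.2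
    exact_mod_cast this
  rw [Real.norm_of_nonneg (by positivity)]
  push_cast
  rw [div_le_div_iff₀ (by positivity) hL']
  have hpi := Real.pi_pos
  have : 2 * Real.pi * ((j : ℕ) : ℝ) * L ≤ 2 * Real.pi * J * L := by
    refine mul_le_mul_of_nonneg_right ?_ hL'.le
    exact mul_le_mul_of_nonneg_left hj (by positivity)
  nlinarith

end STx

open STx in
theorem p_ST (hFS : S_FS) : S_ST := by
  intro ρ hρ
  obtain ⟨L, hL⟩ := exists_nat_gt (2 * Real.pi / ρ)
  obtain ⟨J, hJ⟩ := exists_nat_gt ((2 / ρ) ^ 2)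
  have hpi := Real.pi_pos
  have hL0 : (0 : ℝ) < L := lt_trans (by positivity) hL
  have hL1 : 1 ≤ L := by
    have : 0 < L := by exact_mod_cast hL0
    omega
  have hJ0 : (0 : ℝ) < J := lt_trans (by positivity) hJ
  have hJ1 : 1 ≤ J := by
    have : 0 < J := by exact_mod_cast hJ0
    omega
  have hLρ : 2 * Real.pi / L < ρ := by
    rw [div_lt_iff₀ hL0]
    rw [div_lt_iff₀ hρ] at hL
    linarith
  have hJρ : 2 / Real.sqrt J < ρ := by
    have h1 : 2 / ρ < Real.sqrt J := by
      rw [Real.lt_sqrt (by positivity)]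
      exact hJ
    rw [div_lt_iff₀ (Real.sqrt_pos.2 hJ0)]
    rw [div_lt_iff₀ hρ] at h1
    linarith
  refine ⟨L, ?_⟩
  intro A _ τ hF g
  obtain ⟨e, he, hge, -⟩ := hFS A τ hF J hJ1 g
  have hz1 := unitary_sum' e he (fun j => rt (J * L) (j : ℕ)) (fun j => norm_rt _ _)
  set z : unitary A := ⟨∑ j, (fun j : Fin J => rt (J * L) (j : ℕ)) j • e j, hz1⟩ with hz
  have hzL : ((z ^ L : unitary A) : A) = ∑ j : Fin J, rt J (j : ℕ) • e j := by
    have : ((z ^ L : unitary A) : A) = (z : A) ^ L := by simp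
    rw [this]
    show (∑ j, (fun j : Fin J => rt (J * L) (j : ℕ)) j • e j) ^ L = _
    rw [pow_sum' e he]
    refine Finset.sum_congr rfl fun i _ => ?_
    rw [rt_pow J L _ hL1]
  refine ⟨g * star (z ^ L), z, ?_, ?_, ?_⟩
  · rw [mul_assoc]
    have h4 : star (z ^ L) * z ^ L = 1 := by
      apply Subtype.ext
      exact (Unitary.mem_iff.1 (z ^ L).2).1
    rw [h4, mul_one]
  · have h1 : ((g * star (z ^ L) : unitary A) : A) - 1 =
        ((g : A) - ((z ^ L : unitary A) : A)) * ((star (z ^ L) : unitary A) : A) := by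
      rw [sub_mul]
      congr 1
      exact (Unitary.mem_iff.1 (z ^ L).2).2.symm
    rw [h1, n2_mul_unitary τ hF.tw, hzL]
    exact lt_of_le_of_lt hge hJρ
  · have h1 : (z : A) - 1 = ∑ j : Fin J, (rt (J * L) (j : ℕ) - 1) • e j := by
      show (∑ j, (fun j : Fin J => rt (J * L) (j : ℕ)) j • e j) - 1 = _
      rw [← one_sum' e he, ← Finset.sum_sub_distrib]
      refine Finset.sum_congr rfl fun i _ => ?_
      rw [sub_smul]
    rw [h1]
    exact lt_of_le_of_lt (n2_sum τ hF.tw e he _ (2 * Real.pi / L) (by positivity)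
      (fun j => rt_sub_one J L hL1 j)) hLρ

end Pool.Agent.H80R3.SO
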